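import Pool.Agent.KS6_71.HX.Rigid

set_option autoImplicit false

/-! Aligned copies of the body `A κ`. -/

namespace Pool.Agent.KS6_71.HX

open Set Metric
open Pool.Agent.H389R3.Heesch (E φ φ_apply ctr UC CC isOpen_UC disjoint_UC convex_UC preconn_subset
  abs_coord_le_dist Fs Ds mem_Fs mem_Ds)

variable {n : ℕ}

/-- the cells of the second kind of small cubes: the `κ` cells to the left and the `κ` cells to the
right of the bar of `2 κ` cells with least cell `w` -/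
noncomputable def Es (i₀ : Fin n) (κ : ℤ) (w : Cell n) : Finset (Cell n) :=
  (Finset.Ico (-κ) 0 ∪ Finset.Ico (2 * κ) (3 * κ)).image
    (fun j => Function.update w i₀ (w i₀ + j))

variable {i₀ i₁ : Fin n} {κ : ℤ}

lemma mem_Es {w c : Cell n} : c ∈ Es i₀ κ w ↔ (∀ l, l ≠ i₀ → c l = w l) ∧
    ((w i₀ - κ ≤ c i₀ ∧ c i₀ < w i₀) ∨ (w i₀ + 2 * κ ≤ c i₀ ∧ c i₀ < w i₀ + 3 * κ)) := by
  unfold Es
  rw [Finset.mem_image]
  constructor
  · rintro ⟨j, hj, rfl⟩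
    rw [Finset.mem_union, Finset.mem_Ico, Finset.mem_Ico] at hj
    refine ⟨fun l hl => by simp [hl], ?_⟩
    simp only [Function.update_self]
    omega
  · rintro ⟨h1, h2⟩
    refine ⟨c i₀ - w i₀, ?_, ?_⟩
    · rw [Finset.mem_union, Finset.mem_Ico, Finset.mem_Ico]; omega
    · ext l
      by_cases hl : l = i₀
      · subst hl; simp
      · simp [hl, h1 l hl]

/-- the small cubes of a tile: a column of `2 κ - 1` cells next to the bar, at `w i₀ + s`, for the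
clusters of the first kind, and the cells `Es` for the clusters of the second kind -/
noncomputable def Dd (i₀ i₁ : Fin n) (κ : ℤ) (w : Cell n) (s : ℤ) (b : Bool) : Finset (Cell n) :=
  if b then Es i₀ κ w else Ds i₀ i₁ (2 * κ - 1) w s

/-- the tile with least cell `w` and the column at `w i₀ + s` -/
noncomputable def tl (i₀ i₁ : Fin n) (κ : ℤ) (w : Cell n) (s : ℤ) : Set (E n) :=
  body i₀ i₁ (Fs i₀ (2 * κ - 1) w) (Dd i₀ i₁ κ w s)

/-- frames of the prototile -/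
noncomputable abbrev F₀ (i₀ : Fin n) (κ : ℤ) : Finset (Cell n) := Fs i₀ (2 * κ - 1) 0

/-- small cubes of the prototile -/
noncomputable abbrev D₀ (i₀ i₁ : Fin n) (κ : ℤ) : Bool → Finset (Cell n) :=
  Dd i₀ i₁ κ 0 (2 * κ)

lemma mem_F₀ {c : Cell n} :
    c ∈ F₀ i₀ κ ↔ (∀ l, l ≠ i₀ → c l = 0) ∧ 0 ≤ c i₀ ∧ c i₀ < 2 * κ := by
  rw [mem_Fs]
  simp only [Pi.zero_apply]
  constructor
  · rintro ⟨h1, h2, h3⟩; exact ⟨h1, h2, by omega⟩
  · rintro ⟨h1, h2, h3⟩; exact ⟨h1, h2, by omega⟩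

lemma disjoint_F₀_D₀ (h01 : i₀ ≠ i₁) (b : Bool) : Disjoint (F₀ i₀ κ) (D₀ i₀ i₁ κ b) := by
  rw [Finset.disjoint_left]
  intro c hc hc'
  rw [mem_F₀] at hc
  unfold D₀ Dd at hc'
  cases b
  · rw [if_neg (by simp), mem_Ds h01] at hc'
    simp only [Pi.zero_apply] at hc'
    omega
  · rw [if_pos rfl, mem_Es] at hc'
    simp only [Pi.zero_apply] at hc'
    omega

/-- `u` maps the prototile to the position with least cell `a`, reflected if `δ = -1` -/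
def Al (i₀ : Fin n) (κ : ℤ) (a : Cell n) (δ : ℝ) (u : E n → E n) : Prop :=
  (δ = 1 ∨ δ = -1) ∧ ∀ x : E n, u x i₀ = a i₀ + κ + δ * (x i₀ - κ) ∧ ∀ l, l ≠ i₀ → u x l = x l + a l

lemma al_inj {a a' : Cell n} {δ δ' : ℝ} {u : E n → E n} (h : Al i₀ κ a δ u)
    (h' : Al i₀ κ a' δ' u) : a = a' ∧ δ = δ' := by
  have key : ∀ t : ℝ, (a i₀ : ℝ) + κ + δ * (t - κ) = a' i₀ + κ + δ' * (t - κ) := by
    intro t
    have h1 := (h.2 (EuclideanSpace.single i₀ t)).1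
    have h2 := (h'.2 (EuclideanSpace.single i₀ t)).1
    rw [PiLp.single_apply, if_pos rfl] at h1 h2
    rw [← h1, ← h2]
  have k1 := key κ
  have k2 := key (κ + 1)
  rw [sub_self, mul_zero, mul_zero, add_zero, add_zero] at k1
  have e0 : a i₀ = a' i₀ := by
    have : (a i₀ : ℝ) = a' i₀ := by linarith
    exact_mod_cast this
  refine ⟨?_, ?_⟩
  · ext l
    by_cases hl : l = i₀
    · subst hl; exact e0
    · have h1 := (h.2 0).2 l hl
      have h2 := (h'.2 0).2 l hl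
      have : (a l : ℝ) = a' l := by linarith
      exact_mod_cast this
  · rw [e0] at k2
    linarith

lemma al_of_rigid (h01 : i₀ ≠ i₁) (b : Bool) (u : E n ≃ᵢ E n) (c d : Cell n)
    (h : ∀ l, u (cpt i₀ i₁ (b, l) d) = cpt i₀ i₁ (b, l) c) :
    ∃ (a : Cell n) (δ : ℝ), Al i₀ κ a δ u ∧ (∀ l, l ≠ i₀ → a l = c l - d l) ∧
      ((δ = 1 ∧ a i₀ = c i₀ - d i₀) ∨ (δ = -1 ∧ a i₀ = c i₀ + d i₀ + 1 - 2 * κ)) := by
  obtain ⟨δ, hδ, hu⟩ := rigid h01 b u c d h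
  rcases hδ with rfl | rfl
  · refine ⟨c - d, 1, ⟨Or.inl rfl, fun x => ⟨?_, fun l hl => ?_⟩⟩, fun l _ => rfl, Or.inl ⟨rfl, rfl⟩⟩
    · rw [(hu x).1, Pi.sub_apply]; push_cast; ring
    · rw [(hu x).2 l hl, Pi.sub_apply]; push_cast; ring
  · refine ⟨Function.update (c - d) i₀ (c i₀ + d i₀ + 1 - 2 * κ), -1,
      ⟨Or.inr rfl, fun x => ⟨?_, fun l hl => ?_⟩⟩, fun l hl => by simp [hl], Or.inr ⟨rfl, by simp⟩⟩
    · rw [(hu x).1, Function.update_self]; push_cast; ring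
    · rw [(hu x).2 l hl, Function.update_of_ne hl, Pi.sub_apply]; push_cast; ring

/-- a test point of a cell -/
noncomputable def tpt (i₀ : Fin n) (c : Cell n) : E n :=
  (φ n).symm (fun l => (c l : ℝ) + if l = i₀ then 1 / 2 else 1 / 20)

lemma tpt_apply (c : Cell n) (l : Fin n) :
    tpt i₀ c l = (c l : ℝ) + if l = i₀ then 1 / 2 else 1 / 20 := rfl

lemma tpt_mem (hn : 2 ≤ n) (h01 : i₀ ≠ i₁) (c : Cell n) : tpt i₀ c ∈ Fr i₀ i₁ c := by
  refine ⟨mem_UC.2 fun l => ?_, fun s hs => ?_⟩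
  · rw [tpt_apply, abs_lt]
    split_ifs <;> constructor <;> linarith
  · have h1 := abs_le.1 (hs i₁)
    rw [tpt_apply, if_neg h01.symm] at h1
    simp only [pos] at h1
    have h2 := off_i1 (i₀ := i₀) (i₁ := i₁) s
    have h3 := rad_lt hn s
    linarith [h1.1]

/-- the cells of an aligned copy -/
lemma al_cell (h01 : i₀ ≠ i₁) {a C : Cell n} {δ : ℝ} {u : E n → E n} (h : Al i₀ κ a δ u)
    (hC : ∀ l, l ≠ i₀ → C l = a l) (hC1 : a i₀ ≤ C i₀) (hC2 : C i₀ < a i₀ + 2 * κ) :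
    ∃ c ∈ F₀ i₀ κ, (∀ s, u (cpt i₀ i₁ s c) = cpt i₀ i₁ s C) ∧ u (tpt i₀ c) = tpt i₀ C := by
  obtain ⟨hδ, hu⟩ := h
  rcases hδ with rfl | rfl
  · refine ⟨C - a, ?_, fun s => ?_, ?_⟩
    · rw [mem_F₀]
      refine ⟨fun l hl => by simp [hC l hl], ?_, ?_⟩ <;> simp only [Pi.sub_apply] <;> omega
    · ext l
      by_cases hl : l = i₀
      · subst hl
        rw [(hu _).1, cpt_apply, cpt_apply]
        unfold pos
        rw [Pi.sub_apply]; push_cast; ring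
      · rw [(hu _).2 l hl, cpt_apply, cpt_apply]
        unfold pos
        rw [Pi.sub_apply]; push_cast; ring
    · ext l
      by_cases hl : l = i₀
      · subst hl
        rw [(hu _).1, tpt_apply, tpt_apply, Pi.sub_apply]; push_cast; ring
      · rw [(hu _).2 l hl, tpt_apply, tpt_apply, Pi.sub_apply]; push_cast; ring
  · refine ⟨Function.update 0 i₀ (a i₀ + 2 * κ - 1 - C i₀), ?_, fun s => ?_, ?_⟩
    · rw [mem_F₀]
      refine ⟨fun l hl => by simp [hl], ?_, ?_⟩ <;> simp only [Function.update_self] <;> omega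
    · ext l
      by_cases hl : l = i₀
      · subst hl
        rw [(hu _).1, cpt_apply, cpt_apply]
        unfold pos
        rw [Function.update_self, off_i0 h01]; push_cast; ring
      · rw [(hu _).2 l hl, cpt_apply, cpt_apply]
        unfold pos
        rw [Function.update_of_ne hl, Pi.zero_apply, hC l hl]; push_cast; ring
    · ext l
      by_cases hl : l = i₀
      · subst hl
        rw [(hu _).1, tpt_apply, tpt_apply, Function.update_self, if_pos rfl]; push_cast; ring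
      · rw [(hu _).2 l hl, tpt_apply, tpt_apply, Function.update_of_ne hl, Pi.zero_apply, hC l hl]
        push_cast; ring

variable {ι : Type*} {g : ι → (E n ≃ᵢ E n)}

/-- copies with a common cell are equal -/
lemma no_share (hn : 2 ≤ n) (h01 : i₀ ≠ i₁) (hg : Sep i₀ i₁ (F₀ i₀ κ) (D₀ i₀ i₁ κ) g)
    {o i j : ι} {a a' : Cell n} {δ δ' : ℝ} (h : Al i₀ κ a δ ((g i).trans (g o).symm))
    (h' : Al i₀ κ a' δ' ((g j).trans (g o).symm)) (hrow : ∀ l, l ≠ i₀ → a l = a' l)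
    (h1 : a i₀ < a' i₀ + 2 * κ) (h2 : a' i₀ < a i₀ + 2 * κ) : i = j := by
  obtain ⟨c, hc, -, hct⟩ := al_cell (C := Function.update a i₀ (max (a i₀) (a' i₀))) h01 h
    (fun l hl => by simp [hl]) (by simp) (by simp; omega)
  obtain ⟨c', hc', -, hct'⟩ := al_cell (C := Function.update a i₀ (max (a i₀) (a' i₀))) h01 h'
    (fun l hl => by simp [hl, hrow l hl]) (by simp) (by simp; omega)
  by_contra hne
  refine hg i j hne (tpt i₀ c) (Or.inl ⟨c, hc, tpt_mem hn h01 c⟩) (tpt i₀ c')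
    (Or.inl ⟨c', hc', tpt_mem hn h01 c'⟩) ?_
  have h3 : (g o).symm (g i (tpt i₀ c)) = (g o).symm (g j (tpt i₀ c')) := hct.trans hct'.symm
  exact (g o).symm.injective h3

/-- the clusters of holes of an aligned surrounded copy are filled by aligned copies -/
lemma fill_cell (hn : 2 ≤ n) (h01 : i₀ ≠ i₁) (hg : Sep i₀ i₁ (F₀ i₀ κ) (D₀ i₀ i₁ κ) g)
    {S : Set ι} {o i : ι} (hfill : Filled i₀ i₁ (F₀ i₀ κ) (D₀ i₀ i₁ κ) g S i)
    {a C : Cell n} {δ : ℝ} (h : Al i₀ κ a δ ((g i).trans (g o).symm))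
    (hC : ∀ l, l ≠ i₀ → C l = a l) (hC1 : a i₀ ≤ C i₀) (hC2 : C i₀ < a i₀ + 2 * κ) (b : Bool) :
    ∃ j ∈ S, i ≠ j ∧ ∃ d ∈ D₀ i₀ i₁ κ b, ∃ (a' : Cell n) (δ' : ℝ),
      Al i₀ κ a' δ' ((g j).trans (g o).symm) ∧ (∀ l, l ≠ i₀ → a' l = C l - d l) ∧
      ((δ' = 1 ∧ a' i₀ = C i₀ - d i₀) ∨ (δ' = -1 ∧ a' i₀ = C i₀ + d i₀ + 1 - 2 * κ)) := by
  obtain ⟨c, hc, hcs, -⟩ := al_cell h01 h hC hC1 hC2
  obtain ⟨j, hjS, hij, d, hd, hjd⟩ :=
    cluster_filled hn h01 (disjoint_F₀_D₀ h01) hg hfill hc b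
  refine ⟨j, hjS, hij, d, hd, ?_⟩
  refine al_of_rigid h01 b ((g j).trans (g o).symm) C d ?_
  intro l
  rw [← hcs (b, l)]
  change (g o).symm (g j (cpt i₀ i₁ (b, l) d)) = (g o).symm (g i (cpt i₀ i₁ (b, l) c))
  rw [hjd l]

/-- the neighbours in the row -/
lemma neighbour (hn : 2 ≤ n) (h01 : i₀ ≠ i₁) (hκ : 1 ≤ κ)
    (hg : Sep i₀ i₁ (F₀ i₀ κ) (D₀ i₀ i₁ κ) g)
    {S : Set ι} {o i : ι} (hfill : Filled i₀ i₁ (F₀ i₀ κ) (D₀ i₀ i₁ κ) g S i)
    {a : Cell n} {δ : ℝ} (h : Al i₀ κ a δ ((g i).trans (g o).symm)) {τ : ℤ} (hτ : τ = 1 ∨ τ = -1) :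
    ∃ j ∈ S, ∃ (a' : Cell n) (δ' : ℝ), Al i₀ κ a' δ' ((g j).trans (g o).symm) ∧
      (∀ l, l ≠ i₀ → a' l = a l) ∧ a' i₀ = a i₀ + τ * (2 * κ) := by
  obtain ⟨t, ht0, ht1, htt⟩ : ∃ t : ℤ, 0 ≤ t ∧ t < 2 * κ ∧
      ((τ = 1 ∧ t = κ) ∨ (τ = -1 ∧ t = κ - 1)) := by
    rcases hτ with h | h
    · exact ⟨κ, by omega, by omega, Or.inl ⟨h, rfl⟩⟩
    · exact ⟨κ - 1, by omega, by omega, Or.inr ⟨h, rfl⟩⟩
  obtain ⟨j, hjS, hij, d, hd, a', δ', hal, hrow, hcol⟩ :=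
    fill_cell (C := Function.update a i₀ (a i₀ + t)) hn h01 hg hfill h
      (fun l hl => by simp [hl]) (by simp; omega) (by simp; omega) true
  unfold D₀ Dd at hd
  rw [if_pos rfl, mem_Es] at hd
  simp only [Pi.zero_apply] at hd
  simp only [Function.update_self] at hcol
  have hrow' : ∀ l, l ≠ i₀ → a' l = a l := by
    intro l hl
    rw [hrow l hl, Function.update_of_ne hl, hd.1 l hl, sub_zero]
  refine ⟨j, hjS, a', δ', hal, hrow', ?_⟩
  have hfar : ¬ (a i₀ < a' i₀ + 2 * κ ∧ a' i₀ < a i₀ + 2 * κ) := by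
    rintro ⟨h1, h2⟩
    exact hij (no_share hn h01 hg h hal (fun l hl => (hrow' l hl).symm) h1 h2)
  rcases htt with ⟨rfl, rfl⟩ | ⟨rfl, rfl⟩
  · omega
  · omega

end Pool.Agent.KS6_71.HX
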