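import Pool.Graph.R_seed8.H389R3.HeeschCorona

set_option autoImplicit false

/-! Frames with several small cubical holes of distinct sizes, and the small cubes that fit into
them. -/

namespace Pool.Agent.KS6_71.HX

open Set Metric
open Pool.Agent.H389R3.Heesch (E φ φ_apply ctr UC CC isOpen_UC disjoint_UC convex_UC preconn_subset
  abs_coord_le_dist)

variable {n : ℕ}

/-- the sites of the holes of a cell -/
abbrev Site (n : ℕ) := Bool × Fin n

/-- cells -/
abbrev Cell (n : ℕ) := Fin n → ℤ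

/-- offset of the centre of the hole `s` in a cell -/
noncomputable def off (i₀ i₁ : Fin n) (s : Site n) (l : Fin n) : ℝ :=
  1 / 2 + (if l = i₁ then (if s.1 then 1 / 5 else -(1 / 5)) else 0)
    + (if l = s.2 ∧ s.2 ≠ i₀ then 1 / 10 else 0)

/-- coordinates of the centre of the hole `s` of the cell `c` -/
noncomputable def pos (i₀ i₁ : Fin n) (s : Site n) (c : Cell n) : Fin n → ℝ :=
  fun l => (c l : ℝ) + off i₀ i₁ s l

/-- number of a site -/
def idx (s : Site n) : ℕ := (if s.1 then n else 0) + (s.2 : ℕ)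

/-- half the side of the hole `s` -/
noncomputable def rad (s : Site n) : ℝ := 1 / (100 * n) * (1 - (idx s : ℝ) / (8 * n ^ 2))

lemma idx_lt (s : Site n) : idx s < 2 * n := by
  have := s.2.2
  unfold idx
  split_ifs <;> omega

lemma idx_inj {s s' : Site n} (h : idx s = idx s') : s = s' := by
  obtain ⟨b, i⟩ := s
  obtain ⟨b', i'⟩ := s'
  have h1 := i.2
  have h2 := i'.2
  unfold idx at h
  cases b <;> cases b' <;> simp only [if_true, Bool.false_eq_true, if_false] at h
  · have : i = i' := Fin.ext (by omega)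
    rw [this]
  · omega
  · omega
  · have : i = i' := Fin.ext (by omega)
    rw [this]

section
variable (hn : 2 ≤ n)
include hn

lemma n_real : (2 : ℝ) ≤ n := by exact_mod_cast hn

lemma rad_le (s : Site n) : rad s ≤ 1 / (100 * n) := by
  have h := n_real hn
  unfold rad
  have h1 : (0 : ℝ) ≤ (idx s : ℝ) / (8 * n ^ 2) := by positivity
  have h2 : (0 : ℝ) < 1 / (100 * n) := by positivity
  nlinarith

lemma rad_gt (s : Site n) : 1 / (100 * n) * (1 - 1 / (4 * n)) < rad s := by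
  have h := n_real hn
  unfold rad
  have h2 : (0 : ℝ) < 1 / (100 * n) := by positivity
  have h3 : (idx s : ℝ) < 2 * n := by exact_mod_cast idx_lt s
  have h4 : (idx s : ℝ) / (8 * n ^ 2) < 1 / (4 * n) := by
    rw [div_lt_div_iff₀ (by positivity) (by positivity)]
    nlinarith
  apply mul_lt_mul_of_pos_left _ h2
  linarith

lemma rad_pos (s : Site n) : 0 < rad s := by
  refine lt_trans ?_ (rad_gt hn s)
  have h := n_real hn
  have : 1 / (4 * (n : ℝ)) < 1 := by
    rw [div_lt_one (by positivity)]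
    linarith
  have h2 : (0 : ℝ) < 1 / (100 * n) := by positivity
  exact mul_pos h2 (by linarith)

lemma rad_lt (s : Site n) : rad s < 1 / 100 := by
  refine lt_of_le_of_lt (rad_le hn s) ?_
  have h := n_real hn
  rw [div_lt_div_iff₀ (by positivity) (by norm_num)]
  linarith

lemma n_rad_le (s : Site n) : n * rad s ≤ 1 / 100 := by
  have h := n_real hn
  have h1 := rad_le hn s
  calc (n : ℝ) * rad s ≤ n * (1 / (100 * n)) := by gcongr
    _ = 1 / 100 := by field_simp

lemma rad_cmp (s s' : Site n) : n * (rad s - rad s') < rad s' := by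
  have h := n_real hn
  have h1 := rad_le hn s
  have h2 := rad_gt hn s'
  set r : ℝ := 1 / (100 * n) with hr
  have hrp : 0 < r := by positivity
  have h3 : r * (1 - 1 / (4 * n)) = r - r * (1 / (4 * n)) := by ring
  have h4 : n * (r * (1 / (4 * n))) = r / 4 := by field_simp
  have h5 : r * (1 / (4 * n)) ≤ r / 8 := by
    have : 1 / (4 * (n : ℝ)) ≤ 1 / 8 := by
      apply one_div_le_one_div_of_le (by norm_num)
      linarith
    calc r * (1 / (4 * n)) ≤ r * (1 / 8) := by gcongr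
      _ = r / 8 := by ring
  have h6 : n * (rad s - rad s') ≤ n * (r * (1 / (4 * n))) := by
    apply mul_le_mul_of_nonneg_left _ (by linarith)
    linarith
  rw [h4] at h6
  linarith

lemma rad_inj {s s' : Site n} (h : rad s = rad s') : s = s' := by
  have hh := n_real hn
  unfold rad at h
  have h2 : (1 : ℝ) / (100 * n) ≠ 0 := by positivity
  have h3 := mul_left_cancel₀ h2 h
  have h4 : (8 * (n : ℝ) ^ 2) ≠ 0 := by positivity
  have h5 : (idx s : ℝ) / (8 * n ^ 2) = (idx s' : ℝ) / (8 * n ^ 2) := by linarith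
  rw [div_left_inj' h4] at h5
  exact idx_inj (by exact_mod_cast h5)

end

section
variable {i₀ i₁ : Fin n}

lemma off_bound (s : Site n) (l : Fin n) : |off i₀ i₁ s l - 1 / 2| ≤ 3 / 10 := by
  unfold off
  rw [abs_le]
  split_ifs <;> constructor <;> norm_num

lemma off_i0 (h01 : i₀ ≠ i₁) (s : Site n) : off i₀ i₁ s i₀ = 1 / 2 := by
  unfold off
  rw [if_neg h01, if_neg (by rintro ⟨h1, h2⟩; exact h2 h1.symm)]
  norm_num

lemma off_i1 (s : Site n) : 3 / 10 ≤ off i₀ i₁ s i₁ := by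
  unfold off
  rw [if_pos rfl]
  split_ifs <;> norm_num

lemma off_sep {s s' : Site n} (h : s ≠ s') : ∃ l, 1 / 10 ≤ |off i₀ i₁ s l - off i₀ i₁ s' l| := by
  obtain ⟨b, i⟩ := s
  obtain ⟨b', i'⟩ := s'
  by_cases hb : b = b'
  · subst hb
    have hi : i ≠ i' := fun hh => h (by rw [hh])
    by_cases hi0 : i = i₀
    · refine ⟨i', ?_⟩
      have hi' : i' ≠ i₀ := fun hh => hi (by rw [hi0, hh])
      unfold off
      rw [if_neg (c := i' = (b, i).2 ∧ (b, i).2 ≠ i₀) (by rintro ⟨h1, -⟩; exact hi h1.symm),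
        if_pos (c := i' = (b, i').2 ∧ (b, i').2 ≠ i₀) ⟨rfl, hi'⟩, le_abs]
      right
      simp only
      linarith
    · refine ⟨i, ?_⟩
      unfold off
      rw [if_neg (c := i = (b, i').2 ∧ (b, i').2 ≠ i₀) (by rintro ⟨h1, -⟩; exact hi h1),
        if_pos (c := i = (b, i).2 ∧ (b, i).2 ≠ i₀) ⟨rfl, hi0⟩, le_abs]
      left
      simp only
      linarith
  · refine ⟨i₁, ?_⟩
    unfold off
    simp only [if_true]
    cases b <;> cases b' <;> simp at hb ⊢
    · rw [le_abs]; right; split_ifs <;> norm_num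
    · rw [le_abs]; left; split_ifs <;> norm_num

end

/-- open small cube at the site `s` of the cell `c` -/
def Hd (i₀ i₁ : Fin n) (s : Site n) (c : Cell n) : Set (E n) :=
  {x | ∀ l, |x l - pos i₀ i₁ s c l| < rad s}

/-- closed small cube at the site `s` of the cell `c` -/
def Cd (i₀ i₁ : Fin n) (s : Site n) (c : Cell n) : Set (E n) :=
  {x | ∀ l, |x l - pos i₀ i₁ s c l| ≤ rad s}

/-- open frame: the open cell without its closed holes -/
def Fr (i₀ i₁ : Fin n) (c : Cell n) : Set (E n) :=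
  {x | x ∈ UC c ∧ ∀ s, x ∉ Cd i₀ i₁ s c}

/-- the open shape with the frames `F` and the small cubes `D` -/
def W (i₀ i₁ : Fin n) (F : Finset (Cell n)) (D : Bool → Finset (Cell n)) : Set (E n) :=
  {x | (∃ c ∈ F, x ∈ Fr i₀ i₁ c) ∨ ∃ s : Site n, ∃ c ∈ D s.1, x ∈ Hd i₀ i₁ s c}

/-- the body with the frames `F` and the small cubes `D` -/
def body (i₀ i₁ : Fin n) (F : Finset (Cell n)) (D : Bool → Finset (Cell n)) : Set (E n) :=
  closure (W i₀ i₁ F D)

/-- centre of a hole -/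
noncomputable def cpt (i₀ i₁ : Fin n) (s : Site n) (c : Cell n) : E n :=
  (φ n).symm (pos i₀ i₁ s c)

lemma mem_UC {c : Cell n} {x : E n} : x ∈ UC c ↔ ∀ l, |x l - ((c l : ℝ) + 1 / 2)| < 1 / 2 := by
  unfold UC
  rw [mem_preimage, mem_ball, dist_pi_lt_iff (by norm_num)]
  rfl

lemma mem_CC {c : Cell n} {x : E n} : x ∈ CC c ↔ ∀ l, |x l - ((c l : ℝ) + 1 / 2)| ≤ 1 / 2 := by
  unfold CC
  rw [mem_preimage, mem_closedBall, dist_pi_le_iff (by norm_num)]
  rfl

variable {i₀ i₁ : Fin n}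

lemma cpt_apply (s : Site n) (c : Cell n) (l : Fin n) :
    cpt i₀ i₁ s c l = pos i₀ i₁ s c l := rfl

lemma Hd_eq (hn : 2 ≤ n) (s : Site n) (c : Cell n) :
    Hd i₀ i₁ s c = φ n ⁻¹' ball (pos i₀ i₁ s c) (rad s) := by
  ext x
  rw [mem_preimage, mem_ball, dist_pi_lt_iff (rad_pos hn s)]
  rfl

lemma Cd_eq (hn : 2 ≤ n) (s : Site n) (c : Cell n) :
    Cd i₀ i₁ s c = φ n ⁻¹' closedBall (pos i₀ i₁ s c) (rad s) := by
  ext x
  rw [mem_preimage, mem_closedBall, dist_pi_le_iff (rad_pos hn s).le]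
  rfl

lemma isOpen_Hd (hn : 2 ≤ n) (s : Site n) (c : Cell n) : IsOpen (Hd i₀ i₁ s c) := by
  rw [Hd_eq hn]
  exact isOpen_ball.preimage (φ n).continuous

lemma isClosed_Cd (hn : 2 ≤ n) (s : Site n) (c : Cell n) : IsClosed (Cd i₀ i₁ s c) := by
  rw [Cd_eq hn]
  exact isClosed_closedBall.preimage (φ n).continuous

lemma closure_Hd (hn : 2 ≤ n) (s : Site n) (c : Cell n) :
    closure (Hd i₀ i₁ s c) = Cd i₀ i₁ s c := by
  rw [Hd_eq hn, Cd_eq hn, ← closure_ball _ (rad_pos hn s).ne']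
  exact ((φ n).toHomeomorph.preimage_closure _).symm

lemma Hd_subset_Cd (s : Site n) (c : Cell n) : Hd i₀ i₁ s c ⊆ Cd i₀ i₁ s c :=
  fun _ hx l => (hx l).le

lemma cpt_mem_Hd (hn : 2 ≤ n) (s : Site n) (c : Cell n) : cpt i₀ i₁ s c ∈ Hd i₀ i₁ s c := by
  intro l
  rw [cpt_apply, sub_self, abs_zero]
  exact rad_pos hn s

lemma Cd_subset_UC (hn : 2 ≤ n) (s : Site n) (c : Cell n) : Cd i₀ i₁ s c ⊆ UC c := by
  intro x hx
  rw [mem_UC]
  intro l
  have h1 := abs_le.1 (hx l)
  have h2 := abs_le.1 (off_bound (i₀ := i₀) (i₁ := i₁) s l)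
  have h3 := rad_lt hn s
  simp only [pos] at h1
  rw [abs_lt]
  constructor <;> linarith [h1.1, h1.2, h2.1, h2.2]

lemma Cd_disjoint (hn : 2 ≤ n) {s s' : Site n} {c c' : Cell n} {x : E n} (h : x ∈ Cd i₀ i₁ s c)
    (h' : x ∈ Cd i₀ i₁ s' c') : s = s' ∧ c = c' := by
  have hc : c = c' := by
    by_contra hne
    exact Set.disjoint_left.1 (disjoint_UC hne) (Cd_subset_UC hn s c h) (Cd_subset_UC hn s' c' h')
  subst hc
  refine ⟨?_, rfl⟩
  by_contra hne
  obtain ⟨l, hl⟩ := off_sep (i₀ := i₀) (i₁ := i₁) hne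
  have h1 := abs_le.1 (h l)
  have h2 := abs_le.1 (h' l)
  simp only [pos] at h1 h2
  have h3 := rad_lt hn s
  have h4 := rad_lt hn s'
  rw [le_abs] at hl
  rcases hl with hl | hl <;> linarith [h1.1, h1.2, h2.1, h2.2]

lemma isOpen_Fr (hn : 2 ≤ n) (c : Cell n) : IsOpen (Fr i₀ i₁ c) := by
  have : Fr i₀ i₁ c = UC c ∩ ⋂ s, (Cd i₀ i₁ s c)ᶜ := by
    ext x
    rw [mem_inter_iff, mem_iInter]
    rfl
  rw [this]
  exact (isOpen_UC c).inter (isOpen_iInter_of_finite fun s => (isClosed_Cd hn s c).isOpen_compl)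

lemma isOpen_W (hn : 2 ≤ n) (F : Finset (Cell n)) (D : Bool → Finset (Cell n)) :
    IsOpen (W i₀ i₁ F D) := by
  have : W i₀ i₁ F D = (⋃ c ∈ F, Fr i₀ i₁ c) ∪ ⋃ s : Site n, ⋃ c ∈ D s.1, Hd i₀ i₁ s c := by
    ext x
    simp [W]
  rw [this]
  exact (isOpen_biUnion fun _ _ => isOpen_Fr hn _).union
    (isOpen_iUnion fun s => isOpen_biUnion fun _ _ => isOpen_Hd hn _ _)

/-- near a point of a closed hole the frame is the outside of the hole -/
lemma closure_Fr_of (hn : 2 ≤ n) {s : Site n} {c : Cell n} {x : E n} (hx : x ∈ Cd i₀ i₁ s c)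
    (hx' : x ∈ closure (Cd i₀ i₁ s c)ᶜ) : x ∈ closure (Fr i₀ i₁ c) := by
  rw [_root_.mem_closure_iff] at hx' ⊢
  intro N hN hxN
  have hO : IsOpen (N ∩ (UC c ∩ ⋂ s' : {s' : Site n // s' ≠ s}, (Cd i₀ i₁ s'.1 c)ᶜ)) :=
    hN.inter ((isOpen_UC c).inter
      (isOpen_iInter_of_finite fun s' => (isClosed_Cd hn s'.1 c).isOpen_compl))
  obtain ⟨y, ⟨hy1, hy2, hy3⟩, hy4⟩ := hx' _ hO ⟨hxN, Cd_subset_UC hn s c hx, by
    rw [mem_iInter]
    intro s' hs'
    exact s'.2 (Cd_disjoint hn hs' hx).1⟩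
  refine ⟨y, hy1, hy2, ?_⟩
  intro s' hs'
  by_cases h : s' = s
  · subst h; exact hy4 hs'
  · rw [mem_iInter] at hy3
    exact hy3 ⟨s', h⟩ hs'

lemma frontier_subset (hn : 2 ≤ n) (s : Site n) (c : Cell n) {x : E n} (hx : x ∈ Cd i₀ i₁ s c)
    (hx' : x ∉ Hd i₀ i₁ s c) : x ∈ closure (Fr i₀ i₁ c) := by
  apply closure_Fr_of hn hx
  obtain ⟨l, hl⟩ : ∃ l, rad s ≤ |x l - pos i₀ i₁ s c l| := by
    by_contra h
    push Not at h
    exact hx' h
  -- move the coordinate `l` away from the centre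
  rw [mem_closure_iff_seq_limit]
  set σ : ℝ := if pos i₀ i₁ s c l ≤ x l then 1 else -1 with hσ
  refine ⟨fun m : ℕ => x + EuclideanSpace.single l (σ * (1 / ((m : ℝ) + 1))), ?_, ?_⟩
  · intro m hm
    have h1 := hm l
    simp only [PiLp.add_apply, PiLp.single_apply, if_true] at h1
    have h2 : (0 : ℝ) < 1 / ((m : ℝ) + 1) := by positivity
    rw [hσ] at h1
    by_cases h : pos i₀ i₁ s c l ≤ x l
    · rw [if_pos h] at h1
      rw [abs_of_nonneg (by linarith)] at hl
      have := (abs_le.1 h1).2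
      linarith
    · rw [if_neg h] at h1
      rw [abs_of_neg (by linarith)] at hl
      have := (abs_le.1 h1).1
      linarith
  · have h1 : Filter.Tendsto (fun m : ℕ => σ * (1 / ((m : ℝ) + 1))) Filter.atTop (nhds (σ * 0)) :=
      tendsto_one_div_add_atTop_nhds_zero_nat.const_mul σ
    rw [mul_zero] at h1
    have h2 : Filter.Tendsto (fun m : ℕ => x + EuclideanSpace.single l (σ * (1 / ((m : ℝ) + 1))))
        Filter.atTop (nhds (x + EuclideanSpace.single l (0 : ℝ))) := by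
      apply Filter.Tendsto.const_add
      have hc : Continuous (fun t : ℝ => (EuclideanSpace.single l t : E n)) := by
        have : (fun t : ℝ => (EuclideanSpace.single l t : E n)) =
            fun t => t • (EuclideanSpace.single l (1 : ℝ) : E n) := by
          ext t m
          simp
        rw [this]
        fun_prop
      exact (hc.tendsto 0).comp h1
    have h3 : (EuclideanSpace.single l (0 : ℝ) : E n) = 0 := by
      ext m
      simp
    rw [h3, add_zero] at h2
    exact h2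

lemma CC_subset (hn : 2 ≤ n) {c : Cell n} {x : E n} (hx : x ∈ CC c) :
    x ∈ closure (Fr i₀ i₁ c) ∨ ∃ s, x ∈ Cd i₀ i₁ s c := by
  by_cases h : ∃ s, x ∈ Cd i₀ i₁ s c
  · exact Or.inr h
  · left
    push Not at h
    have h1 : x ∈ closure (UC c) := by
      have : closure (UC c) = CC (n := n) c := by
        unfold UC CC
        rw [← closure_ball _ (by norm_num : (1 / 2 : ℝ) ≠ 0)]
        exact ((φ n).toHomeomorph.preimage_closure _).symm
      rw [this]
      exact hx
    have hO : IsOpen (⋂ s, (Cd i₀ i₁ s c)ᶜ : Set (E n)) :=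
      isOpen_iInter_of_finite fun s => (isClosed_Cd hn s c).isOpen_compl
    have h2 := hO.inter_closure (t := UC c) ⟨by rw [mem_iInter]; exact h, h1⟩
    refine closure_mono ?_ h2
    rintro y ⟨hy1, hy2⟩
    rw [mem_iInter] at hy1
    exact ⟨hy2, hy1⟩

end Pool.Agent.KS6_71.HX
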