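import Mathlib

set_option autoImplicit false

/-! Heesch's problem: bodies, patches, coronas. -/

namespace Pool.Agent.KS6_71.HX

open Set

/-- A body of Euclidean `n`-space: a compact set that equals the closure of its nonempty
interior. -/
def IsBody {n : ℕ} (A : Set (EuclideanSpace ℝ (Fin n))) : Prop :=
  IsCompact A ∧ (interior A).Nonempty ∧ closure (interior A) = A

/-- `Q` is congruent to `A`: some isometry of Euclidean `n`-space maps `A` onto `Q`. -/
def Congruent {n : ℕ} (A Q : Set (EuclideanSpace ℝ (Fin n))) : Prop :=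
  ∃ g : EuclideanSpace ℝ (Fin n) ≃ᵢ EuclideanSpace ℝ (Fin n), g '' A = Q

/-- `P` is a patch (packing) of congruent copies of `A`: its members are congruent to `A` and have
pairwise disjoint interiors. -/
def IsPatch {n : ℕ} (A : Set (EuclideanSpace ℝ (Fin n)))
    (P : Set (Set (EuclideanSpace ℝ (Fin n)))) : Prop :=
  (∀ Q ∈ P, Congruent A Q) ∧ ∀ Q ∈ P, ∀ Q' ∈ P, Q ≠ Q' → Disjoint (interior Q) (interior Q')

/-- `A` is the prototile of a monohedral tiling: some family of congruent copies of `A` with pairwise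
disjoint interiors covers the space (if `A` is a body then such a family is automatically
countable). -/
def TilesSpace {n : ℕ} (A : Set (EuclideanSpace ℝ (Fin n))) : Prop :=
  ∃ P : Set (Set (EuclideanSpace ℝ (Fin n))), IsPatch A P ∧ ⋃₀ P = univ

/-- The corona `C^k(A)` in the family `P`: the tiles `Q` of `P` that are reachable by a chain
`A = c 0, c 1, …, c m = Q` of tiles of `P` with `m ≤ k` in which consecutive tiles intersect. -/
def corona {n : ℕ} (P : Set (Set (EuclideanSpace ℝ (Fin n))))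
    (A : Set (EuclideanSpace ℝ (Fin n))) (k : ℕ) : Set (Set (EuclideanSpace ℝ (Fin n))) :=
  {Q | ∃ (m : ℕ) (c : ℕ → Set (EuclideanSpace ℝ (Fin n))), m ≤ k ∧ c 0 = A ∧ c m = Q ∧
    (∀ i ≤ m, c i ∈ P) ∧ ∀ i < m, (c i ∩ c (i + 1)).Nonempty}

/-- The patch `P` of congruent copies of `A`, with `A ∈ P`, completely surrounds `A` `k` times:
`|C^{j-1}(A)| ⊂ int |C^j(A)|` for `j = 1, …, k`. -/
def SurroundsTimes {n : ℕ} (P : Set (Set (EuclideanSpace ℝ (Fin n))))
    (A : Set (EuclideanSpace ℝ (Fin n))) (k : ℕ) : Prop :=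
  IsPatch A P ∧ A ∈ P ∧
    ∀ j, 1 ≤ j → j ≤ k → ⋃₀ corona P A (j - 1) ⊆ interior (⋃₀ corona P A j)

/-- `A` can be surrounded `k` times in the sense of nested finite packings
`{A} = 𝒞 0 ⊆ 𝒞 1 ⊆ … ⊆ 𝒞 k` by congruent copies of `A`: for `i = 1, …, k` the closure of the
complement of `⋃ 𝒞 i` meets no member of `𝒞 (i - 1)`. -/
def SurroundedByPackings {n : ℕ} (A : Set (EuclideanSpace ℝ (Fin n))) (k : ℕ) : Prop :=
  ∃ C : ℕ → Set (Set (EuclideanSpace ℝ (Fin n))), C 0 = {A} ∧
    (∀ i ≤ k, (C i).Finite ∧ IsPatch A (C i)) ∧ (∀ i < k, C i ⊆ C (i + 1)) ∧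
    ∀ i, 1 ≤ i → i ≤ k → ∀ Q ∈ C (i - 1), closure (⋃₀ C i)ᶜ ∩ Q = ∅

end Pool.Agent.KS6_71.HX
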