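import Pool.Agent.KS6_71.HX.Hole

set_option autoImplicit false

/-! Families of copies of a body: matching holes and small cubes. -/

namespace Pool.Agent.KS6_71.HX

open Set Metric
open Pool.Agent.H389R3.Heesch (E φ φ_apply ctr UC CC isOpen_UC disjoint_UC convex_UC preconn_subset
  abs_coord_le_dist)

variable {n : ℕ} {i₀ i₁ : Fin n} {F : Finset (Cell n)} {D : Bool → Finset (Cell n)}

/-- distinct copies of the open shape are disjoint -/
def Sep {ι : Type*} (i₀ i₁ : Fin n) (F : Finset (Cell n)) (D : Bool → Finset (Cell n))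
    (g : ι → (E n ≃ᵢ E n)) : Prop :=
  ∀ i j, i ≠ j → ∀ x ∈ W i₀ i₁ F D, ∀ y ∈ W i₀ i₁ F D, g i x ≠ g j y

/-- the copy `i` lies in the interior of the union of the copies in `S` -/
def Filled {ι : Type*} (i₀ i₁ : Fin n) (F : Finset (Cell n)) (D : Bool → Finset (Cell n))
    (g : ι → (E n ≃ᵢ E n)) (S : Set ι) (i : ι) : Prop :=
  g i '' body i₀ i₁ F D ⊆ interior (⋃ j ∈ S, g j '' body i₀ i₁ F D)

variable {ι : Type*} {g : ι → (E n ≃ᵢ E n)}

lemma sep_comp (hg : Sep i₀ i₁ F D g) {i j : ι} (hij : i ≠ j) :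
    ∀ x ∈ W i₀ i₁ F D, ((g j).trans (g i).symm) x ∉ W i₀ i₁ F D := by
  intro x hx hmem
  refine hg i j hij _ hmem x hx ?_
  change g i ((g i).symm (g j x)) = _
  rw [(g i).apply_symm_apply]

lemma Hd_subset_W {s : Site n} {d : Cell n} (hd : d ∈ D s.1) : Hd i₀ i₁ s d ⊆ W i₀ i₁ F D :=
  fun _ hx => Or.inr ⟨s, d, hd, hx⟩

lemma hole_not_W (hn : 2 ≤ n) (hFD : ∀ b, Disjoint F (D b)) {c : Cell n} (hc : c ∈ F)
    {s : Site n} {x : E n} (hx : x ∈ Hd i₀ i₁ s c) : x ∉ W i₀ i₁ F D := by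
  rintro (⟨a, -, ha⟩ | ⟨s', d, hd, hxd⟩)
  · have h1 := Cd_subset_UC hn s c (Hd_subset_Cd _ _ hx)
    by_cases h : a = c
    · subst h
      exact ha.2 s (Hd_subset_Cd _ _ hx)
    · exact Set.disjoint_left.1 (disjoint_UC h) ha.1 h1
  · obtain ⟨h1, h2⟩ := Cd_disjoint hn (Hd_subset_Cd _ _ hx) (Hd_subset_Cd _ _ hxd)
    subst h1; subst h2
    exact Finset.disjoint_left.1 (hFD _) hc hd

/-- near a corner of a hole of a surrounded copy there are points of small cubes inside the hole -/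
lemma exists_atom (hn : 2 ≤ n) (h01 : i₀ ≠ i₁) (hFD : ∀ b, Disjoint F (D b))
    (hg : Sep i₀ i₁ F D g) {S : Set ι} {i : ι} (hfill : Filled i₀ i₁ F D g S i) {c : Cell n}
    (hc : c ∈ F) (s : Site n) {σ : ℝ} (hσ : |σ| = 1) {N : Set (E n)} (hN : IsOpen N)
    (hcN : corner i₀ i₁ s c σ ∈ N) :
    ∃ j ∈ S, i ≠ j ∧ ∃ s' : Site n, ∃ d ∈ D s'.1, (∀ y ∈ Hd i₀ i₁ s' d,
      ((g j).trans (g i).symm) y ∈ Hd i₀ i₁ s c) ∧
      ∃ y ∈ Hd i₀ i₁ s' d, ((g j).trans (g i).symm) y ∈ N := by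
  set z := corner i₀ i₁ s c σ with hz
  have hzC : z ∈ Cd i₀ i₁ s c := corner_mem hn s c hσ
  have hzb : z ∈ body i₀ i₁ F D := by
    refine closure_mono ?_ (frontier_subset hn s c hzC (corner_notMem hn s c hσ))
    intro y hy
    exact Or.inl ⟨c, hc, hy⟩
  set I : Set (E n) := interior (⋃ j ∈ S, g j '' body i₀ i₁ F D) with hI
  have hzI : g i z ∈ I := hfill ⟨z, hzb, rfl⟩
  have hO1 : IsOpen (N ∩ g i ⁻¹' I) := hN.inter (isOpen_interior.preimage (g i).continuous)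
  have hz2 : z ∈ closure (Hd i₀ i₁ s c) := by rw [closure_Hd hn]; exact hzC
  obtain ⟨y, ⟨hyN, hyI⟩, hyH⟩ := _root_.mem_closure_iff.1 hz2 _ hO1 ⟨hcN, hzI⟩
  have hyU := interior_subset hyI
  simp only [mem_iUnion] at hyU
  obtain ⟨j, hjS, w, hw, hwy⟩ := hyU
  have hcl : g i y ∈ closure (g j '' W i₀ i₁ F D) := by
    rw [← hwy]
    have e := (g j).toHomeomorph.image_closure (W i₀ i₁ F D)
    change g j '' closure (W i₀ i₁ F D) = closure (g j '' W i₀ i₁ F D) at e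
    rw [← e]
    exact ⟨w, hw, rfl⟩
  have hO2 : IsOpen (g i '' (N ∩ Hd i₀ i₁ s c)) :=
    (g i).toHomeomorph.isOpenMap _ (hN.inter (isOpen_Hd hn s c))
  obtain ⟨_, ⟨y', ⟨hy'N, hy'H⟩, rfl⟩, ⟨w', hw', hw'y⟩⟩ :=
    _root_.mem_closure_iff.1 hcl _ hO2 ⟨y, ⟨hyN, hyH⟩, rfl⟩
  have hval : ((g j).trans (g i).symm) w' = y' := by
    change (g i).symm (g j w') = y'
    rw [hw'y, (g i).symm_apply_apply]
  have hij : i ≠ j := by
    intro h
    subst h
    have h5 : w' = y' := (g i).injective hw'y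
    subst h5
    exact hole_not_W hn hFD hc hy'H hw'
  have hcomp := sep_comp hg hij
  rcases hw' with ⟨a, ha, hwa⟩ | ⟨s', d, hd, hwd⟩
  · exact absurd (hval ▸ hy'H) (frame_not_hole _ hn h01 hcomp hc ha hwa)
  · refine ⟨j, hjS, hij, s', d, hd, ?_, w', hwd, hval ▸ hy'N⟩
    exact subset_hole _ hn hcomp hc (convex_Hd hn s' d).isPreconnected (Hd_subset_W hd) hwd
      (hval ▸ hy'H)

/-- two small cubes inside the same hole are the same -/
lemma atom_unique (hn : 2 ≤ n) (hg : Sep i₀ i₁ F D g) {i j j' : ι} {c : Cell n} {s s' s'' : Site n}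
    {d d' : Cell n} (hd : d ∈ D s'.1) (hd' : d' ∈ D s''.1)
    (h : ∀ y ∈ Hd i₀ i₁ s' d, ((g j).trans (g i).symm) y ∈ Hd i₀ i₁ s c)
    (h' : ∀ y ∈ Hd i₀ i₁ s'' d', ((g j').trans (g i).symm) y ∈ Hd i₀ i₁ s c) :
    j = j' ∧ s' = s'' ∧ d = d' := by
  have h1 := center_mem hn ((g j).trans (g i).symm) (fun y hy => Hd_subset_Cd _ _ (h y hy))
  have h2 := center_mem hn ((g j').trans (g i).symm) (fun y hy => Hd_subset_Cd _ _ (h' y hy))
  have e1 : g j (((g j).trans (g i).symm).symm (cpt i₀ i₁ s c)) = g i (cpt i₀ i₁ s c) := by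
    change g j ((g j).symm (g i (cpt i₀ i₁ s c))) = _
    rw [(g j).apply_symm_apply]
  have e2 : g j' (((g j').trans (g i).symm).symm (cpt i₀ i₁ s c)) = g i (cpt i₀ i₁ s c) := by
    change g j' ((g j').symm (g i (cpt i₀ i₁ s c))) = _
    rw [(g j').apply_symm_apply]
  have hj : j = j' := by
    by_contra hne
    exact hg j j' hne _ (Hd_subset_W hd h1) _ (Hd_subset_W hd' h2) (by rw [e1, e2])
  subst hj
  obtain ⟨h3, h4⟩ := Cd_disjoint hn (Hd_subset_Cd _ _ h1) (Hd_subset_Cd _ _ h2)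
  exact ⟨rfl, h3, h4⟩

/-- a small cube inside a hole of a surrounded copy fills the hole -/
lemma atom_match (hn : 2 ≤ n) (h01 : i₀ ≠ i₁) (hFD : ∀ b, Disjoint F (D b))
    (hg : Sep i₀ i₁ F D g) {S : Set ι} {i : ι} (hfill : Filled i₀ i₁ F D g S i) {c : Cell n}
    (hc : c ∈ F) {s s' : Site n} {j : ι} {d : Cell n} (hd : d ∈ D s'.1)
    (h : ∀ y ∈ Hd i₀ i₁ s' d, ((g j).trans (g i).symm) y ∈ Hd i₀ i₁ s c) :
    j ∈ S ∧ s' = s ∧ g j (cpt i₀ i₁ s' d) = g i (cpt i₀ i₁ s c) := by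
  set u := (g j).trans (g i).symm with hu
  have hclo : ∀ y ∈ Cd i₀ i₁ s' d, u y ∈ Cd i₀ i₁ s c := by
    intro y hy
    rw [← closure_Hd hn] at hy ⊢
    have e := u.toHomeomorph.image_closure (Hd i₀ i₁ s' d)
    change u '' closure (Hd i₀ i₁ s' d) = closure (u '' Hd i₀ i₁ s' d) at e
    have h1 : u y ∈ closure (u '' Hd i₀ i₁ s' d) := by
      rw [← e]
      exact ⟨y, hy, rfl⟩
    refine closure_mono ?_ h1
    rintro _ ⟨x, hx, rfl⟩
    exact h x hx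
  have hcor : ∀ σ : ℝ, |σ| = 1 → u.symm (corner i₀ i₁ s c σ) ∈ Cd i₀ i₁ s' d ∧ j ∈ S := by
    intro σ hσ
    constructor
    · rw [← closure_Hd hn, _root_.mem_closure_iff]
      intro O hO hcO
      have hO' : IsOpen (u '' O) := u.toHomeomorph.isOpenMap _ hO
      obtain ⟨j', hj'S, hij', s'', d', hd', hsub, y, hy, hyO⟩ :=
        exists_atom hn h01 hFD hg hfill hc s hσ hO' ⟨_, hcO, u.apply_symm_apply _⟩
      obtain ⟨h1, h2, h3⟩ := atom_unique hn hg hd hd' h hsub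
      subst h1; subst h2; subst h3
      obtain ⟨y', hy', hyy⟩ := hyO
      have : y' = y := u.injective hyy
      subst this
      exact ⟨y', hy', hy⟩
    · obtain ⟨j', hj'S, hij', s'', d', hd', hsub, y, hy, hyO⟩ :=
        exists_atom hn h01 hFD hg hfill hc s hσ isOpen_univ (mem_univ _)
      obtain ⟨h1, -, -⟩ := atom_unique hn hg hd hd' h hsub
      rw [h1]
      exact hj'S
  obtain ⟨h1, h2⟩ := match_of_corners hn u hclo (hcor 1 (by norm_num)).1 (hcor (-1) (by norm_num)).1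
  refine ⟨(hcor 1 (by norm_num)).2, h1, ?_⟩
  rw [← h2]
  change _ = g i ((g i).symm (g j (cpt i₀ i₁ s' d)))
  rw [(g i).apply_symm_apply]

/-- every hole of a surrounded copy is filled -/
lemma hole_exists (hn : 2 ≤ n) (h01 : i₀ ≠ i₁) (hFD : ∀ b, Disjoint F (D b))
    (hg : Sep i₀ i₁ F D g) {S : Set ι} {i : ι} (hfill : Filled i₀ i₁ F D g S i) {c : Cell n}
    (hc : c ∈ F) (s : Site n) :
    ∃ j ∈ S, i ≠ j ∧ ∃ d ∈ D s.1, g j (cpt i₀ i₁ s d) = g i (cpt i₀ i₁ s c) := by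
  obtain ⟨j, hjS, hij, s', d, hd, hsub, -⟩ :=
    exists_atom hn h01 hFD hg hfill hc s (σ := 1) (by norm_num) isOpen_univ (mem_univ _)
  obtain ⟨-, h1, h2⟩ := atom_match hn h01 hFD hg hfill hc hd hsub
  subst h1
  exact ⟨j, hjS, hij, d, hd, h2⟩

lemma dist_cpt_le (b : Bool) (l : Fin n) (c : Cell n) :
    dist (cpt i₀ i₁ (b, l) c) (cpt i₀ i₁ (b, i₀) c) ≤ 1 / 10 := by
  have h : cpt i₀ i₁ (b, l) c = cpt i₀ i₁ (b, i₀) c +
      EuclideanSpace.single l (if l ≠ i₀ then 1 / 10 else 0 : ℝ) := by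
    ext m
    rw [PiLp.add_apply, cpt_apply, cpt_apply, PiLp.single_apply]
    unfold pos off
    simp only [ne_eq, not_true_eq_false, and_false, if_false, add_zero]
    by_cases hm : m = l
    · subst hm
      by_cases h0 : m = i₀
      · simp [h0]
      · simp [h0]; ring
    · simp [hm]
  rw [h, dist_eq_norm, add_sub_cancel_left, PiLp.norm_single, Real.norm_eq_abs]
  split_ifs <;> norm_num

/-- the small cubes of a whole cluster of a copy fill the whole cluster of holes -/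
lemma link (hn : 2 ≤ n) (h01 : i₀ ≠ i₁) (hFD : ∀ b, Disjoint F (D b))
    (hg : Sep i₀ i₁ F D g) {S : Set ι} {i : ι} (hfill : Filled i₀ i₁ F D g S i) {c : Cell n}
    (hc : c ∈ F) (b : Bool) {j : ι} (hij : i ≠ j) {d : Cell n} (hd : d ∈ D b)
    (h : g j (cpt i₀ i₁ (b, i₀) d) = g i (cpt i₀ i₁ (b, i₀) c)) (l : Fin n) :
    g j (cpt i₀ i₁ (b, l) d) = g i (cpt i₀ i₁ (b, l) c) := by
  set u := (g j).trans (g i).symm with hu
  have hcomp := sep_comp hg hij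
  rw [← hu] at hcomp
  have hu0 : u (cpt i₀ i₁ (b, i₀) d) = cpt i₀ i₁ (b, i₀) c := by
    change (g i).symm (g j (cpt i₀ i₁ (b, i₀) d)) = _
    rw [h, (g i).symm_apply_apply]
  have hdist : dist (u (cpt i₀ i₁ (b, l) d)) (cpt i₀ i₁ (b, i₀) c) ≤ 1 / 10 := by
    rw [← hu0, u.dist_eq]
    exact dist_cpt_le b l d
  have hUC : u (cpt i₀ i₁ (b, l) d) ∈ UC c := by
    rw [mem_UC]
    intro m
    have h1 := (abs_coord_le_dist (u (cpt i₀ i₁ (b, l) d)) (cpt i₀ i₁ (b, i₀) c) m).trans hdist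
    have h2 := off_bound (i₀ := i₀) (i₁ := i₁) (b, i₀) m
    rw [cpt_apply] at h1
    simp only [pos] at h1
    have h3 := abs_le.1 h1
    have h4 := abs_le.1 h2
    rw [abs_lt]
    constructor <;> linarith [h3.1, h3.2, h4.1, h4.2]
  have hxW : Hd i₀ i₁ (b, l) d ⊆ W i₀ i₁ F D := Hd_subset_W (s := (b, l)) hd
  have hx := cpt_mem_Hd (i₀ := i₀) (i₁ := i₁) hn (b, l) d
  have hnF : ∀ y ∈ Hd i₀ i₁ (b, l) d, u y ∉ Fr i₀ i₁ c := fun y hy hy' =>
    hcomp y (hxW hy) (Or.inl ⟨c, hc, hy'⟩)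
  obtain ⟨s', hs'⟩ : ∃ s', u (cpt i₀ i₁ (b, l) d) ∈ Cd i₀ i₁ s' c := by
    by_contra hcon
    push Not at hcon
    exact hnF _ hx ⟨hUC, hcon⟩
  have hs'' : u (cpt i₀ i₁ (b, l) d) ∈ Hd i₀ i₁ s' c := by
    by_contra hcon
    have h1 := frontier_subset hn s' c hs' hcon
    have hO : IsOpen (u '' Hd i₀ i₁ (b, l) d) := u.toHomeomorph.isOpenMap _ (isOpen_Hd hn _ _)
    obtain ⟨z, ⟨y, hy, rfl⟩, hz2⟩ := _root_.mem_closure_iff.1 h1 _ hO ⟨_, hx, rfl⟩
    exact hnF y hy hz2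
  have hsub := subset_hole u hn hcomp hc (convex_Hd hn (b, l) d).isPreconnected hxW hx hs''
  obtain ⟨-, h1, h2⟩ := atom_match hn h01 hFD hg hfill hc (s' := (b, l)) hd hsub
  rw [← h1] at h2
  exact h2

/-- every cluster of holes of a surrounded copy is filled by a cluster of another copy -/
theorem cluster_filled (hn : 2 ≤ n) (h01 : i₀ ≠ i₁) (hFD : ∀ b, Disjoint F (D b))
    (hg : Sep i₀ i₁ F D g) {S : Set ι} {i : ι} (hfill : Filled i₀ i₁ F D g S i) {c : Cell n}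
    (hc : c ∈ F) (b : Bool) :
    ∃ j ∈ S, i ≠ j ∧ ∃ d ∈ D b, ∀ l, g j (cpt i₀ i₁ (b, l) d) = g i (cpt i₀ i₁ (b, l) c) := by
  obtain ⟨j, hjS, hij, d, hd, h⟩ := hole_exists hn h01 hFD hg hfill hc (b, i₀)
  exact ⟨j, hjS, hij, d, hd, link hn h01 hFD hg hfill hc b hij hd h⟩

end Pool.Agent.KS6_71.HX
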