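import Pool.Agent.KS6_71.HX.Res

/-!
# Existence of tuples of polynomials with good restrictions
-/

set_option autoImplicit false

open Classical

namespace Pool.Agent.KS6_71.HX

open Pool.Agent.W979.TE

/-- the property of tuples of polynomials which excludes blowups -/
def Fine {V E F : Type} [Field F] [Fintype E] (U : Finset V) {d : ℕ} (K : ℕ)
    (g : Om F U.card (Fintype.card E) d) : Prop :=
  ∀ a b : E → V, Bal U a b →
    ∃ μ : {v // v ∈ U} × Fin (Fintype.card E) → E × Fin U.card, Mat U a b μ ∧
      ∀ z : V → Fin (Fintype.card E) → F, Function.Injective (fun ε : E => (z (a ε), z (b ε))) →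
        Cert K (fun p : {v // v ∈ U} × Fin (Fintype.card E) =>
          sub U a b z (μ p).1 (g (μ p).2 : MvPolynomial (Fin (Fintype.card E) ⊕
            Fin (Fintype.card E)) F)) (fun p => z p.1.1 p.2)

/-- common zeros -/
def Zr {F : Type} [Field F] {k m e d : ℕ} (f : Ok F k m e d) (x : Fin k → Fin e → F) : Prop :=
  ∀ l, MvPolynomial.eval (fun v : Fin k × Fin e => x v.1 v.2)
    (f l : MvPolynomial (Fin k × Fin e) F) = 0

/-- the number of polynomial tuples vanishing at a point -/
theorem fibk (F : Type) [Field F] [Fintype F] (k m e d : ℕ) (x : Fin k → Fin e → F) :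
    Nat.card {f : Ok F k m e d // Zr f x} * Fintype.card F ^ m = Nat.card (Ok F k m e d) := by
  let φ : Ok F k m e d →+ (Fin m → F) :=
    { toFun := fun f l => MvPolynomial.eval (fun v : Fin k × Fin e => x v.1 v.2)
        (f l : MvPolynomial (Fin k × Fin e) F)
      map_zero' := by
        funext l
        simp
      map_add' := by
        intro f g
        funext l
        simp }
  have hsurj : Function.Surjective φ := by
    intro c
    refine ⟨fun l => ⟨MvPolynomial.C (c l), ?_⟩, ?_⟩
    · rw [mem_rd]
      intro n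
      rw [MvPolynomial.degreeOf_C]
      exact Nat.zero_le _
    · funext l
      show MvPolynomial.eval _ (MvPolynomial.C (c l)) = c l
      simp
  have h1 := AddSubgroup.card_eq_card_quotient_mul_card_addSubgroup φ.ker
  have h2 : Nat.card (Ok F k m e d ⧸ φ.ker) = Nat.card (Fin m → F) :=
    Nat.card_congr (QuotientAddGroup.quotientKerEquivOfSurjective φ hsurj).toEquiv
  have h3 : Nat.card φ.ker = Nat.card {f : Ok F k m e d // Zr f x} := by
    apply Nat.card_congr
    apply Equiv.subtypeEquivRight
    intro f
    rw [AddMonoidHom.mem_ker]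
    constructor
    · intro h l
      exact congrFun h l
    · intro h
      funext l
      exact h l
  rw [h1, h2, h3, Nat.card_fun]
  simp [Nat.card_eq_fintype_card, mul_comm]

/-- all restrictions to two coordinates are fine -/
theorem goodk (hHall : S_HALL) (hLoc : S_LOC) (k : ℕ) (V E : Type) [Fintype V] [Fintype E]
    (U : Finset V) (hU : U.Nonempty) (hE : 0 < Fintype.card E) : ∃ d K q0 : ℕ,
    ∀ (F : Type) [Field F] [Fintype F], q0 ≤ Fintype.card F →
      ∃ f : Ok F k U.card (Fintype.card E) d,
        Fintype.card F ^ (k * Fintype.card E) ≤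
          2 * Fintype.card F ^ U.card * Nat.card {x : Fin k → Fin (Fintype.card E) → F // Zr f x} ∧
        ∀ (i j : Fin k) (hij : i ≠ j) (c : Fin k → Fin (Fintype.card E) → F),
          Fine (E := E) U K (res hij c f) := by
  set e := Fintype.card E with he
  set m := U.card with hm
  set vv := Fintype.card V with hvv
  set n := m * e with hn
  set L := k * e + e * vv + m + 1 with hL
  set K := NN n L n with hK
  set A := k * k * (vv ^ e * vv ^ e) * (n * K ^ n) with hA
  refine ⟨e * (K + 1) ^ 2 + K, K, 2 * A + 1, ?_⟩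
  intro F _ _ hq
  set q := Fintype.card F with hqd
  set d := e * (K + 1) ^ 2 + K with hd
  -- choose matchings
  have hch : ∀ ab : (E → V) × (E → V), ∃ μ : {v // v ∈ U} × Fin e → E × Fin m,
      Bal U ab.1 ab.2 → Mat U ab.1 ab.2 μ := by
    intro ab
    by_cases hb : Bal U ab.1 ab.2
    · obtain ⟨μ, hμ⟩ := hHall V E U ab.1 ab.2 hb
      exact ⟨μ, fun _ => hμ⟩
    · refine ⟨fun _ => (Classical.choice (Fintype.card_pos_iff.mp hE), ⟨0, ?_⟩),
        fun h => absurd h hb⟩
      exact Finset.card_pos.mpr hU
  choose μ hμ using hch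
  let _ : Fintype (Ok F k m e d) := Fintype.ofFinite _
  -- bad sets
  let Pb : (E → V) × (E → V) → (V → Fin e → F) → Om F m e d → Prop := fun ab z g =>
    Bal U ab.1 ab.2 ∧ Function.Injective (fun ε : E => (z (ab.1 ε), z (ab.2 ε))) ∧
      ¬ Cert K (fun p : {v // v ∈ U} × Fin e =>
            sub U ab.1 ab.2 z (μ ab p).1 (g (μ ab p).2 : MvPolynomial (Fin e ⊕ Fin e) F))
            (fun p => z p.1.1 p.2)
  have hPb : ∀ ab z, Nat.card {g : Om F m e d // Pb ab z g} * q ^ L ≤
      n * K ^ n * Nat.card (Om F m e d) := by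
    intro ab z
    by_cases hb : Bal U ab.1 ab.2
    · by_cases hz : Function.Injective (fun ε : E => (z (ab.1 ε), z (ab.2 ε)))
      · have := hLoc F V E U ab.1 ab.2 L K d (μ ab) z (hμ ab hb) hz hK le_rfl
        refine le_trans (Nat.mul_le_mul_right _ ?_) this
        exact Nat.card_le_card_of_injective
          (fun g : {g : Om F m e d // Pb ab z g} => (⟨g.1, g.2.2.2⟩ : {f : Om F m e d //
            ¬ Cert K (fun p : {v // v ∈ U} × Fin e =>
            sub U ab.1 ab.2 z (μ ab p).1 (f (μ ab p).2 : MvPolynomial (Fin e ⊕ Fin e) F))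
            (fun p => z p.1.1 p.2)})) (fun g g' h => Subtype.ext (congrArg (fun x => x.1) h))
      · have : IsEmpty {g : Om F m e d // Pb ab z g} := ⟨fun g => hz g.2.2.1⟩
        rw [Nat.card_of_isEmpty]
        simp
    · have : IsEmpty {g : Om F m e d // Pb ab z g} := ⟨fun g => hb g.2.1⟩
      rw [Nat.card_of_isEmpty]
      simp
  let B : (Fin k × Fin k) × (Fin k → Fin e → F) × ((E → V) × (E → V)) × (V → Fin e → F) →
      Finset (Ok F k m e d) := fun x =>
    Finset.univ.filter (fun f => ∃ hij : x.1.1 ≠ x.1.2,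
      Pb x.2.2.1 x.2.2.2 (res hij x.2.1 f))
  have hOm : 0 < Nat.card (Om F m e d) := Nat.card_pos
  have hB : ∀ x, (B x).card * q ^ L ≤ n * K ^ n * Fintype.card (Ok F k m e d) := by
    rintro ⟨⟨i, j⟩, c, ab, z⟩
    by_cases hij : i ≠ j
    · have h1 := res_card hij c (Pb ab z) (F := F) (m := m) (d := d)
      have h2 : (B ((i, j), c, ab, z)).card =
          Nat.card {f : Ok F k m e d // Pb ab z (res hij c f)} := by
        rw [Nat.card_eq_fintype_card, Fintype.card_subtype]
        congr 1
        ext f
        simp only [B, Finset.mem_filter, Finset.mem_univ, true_and]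
        exact ⟨fun h => h.2, fun h => ⟨hij, h⟩⟩
      rw [h2]
      apply Nat.le_of_mul_le_mul_left _ hOm
      calc Nat.card (Om F m e d) * (Nat.card {f : Ok F k m e d // Pb ab z (res hij c f)} * q ^ L)
          = (Nat.card {f : Ok F k m e d // Pb ab z (res hij c f)} * Nat.card (Om F m e d)) *
            q ^ L := by ring
        _ = (Nat.card {g : Om F m e d // Pb ab z g} * q ^ L) * Nat.card (Ok F k m e d) := by
            rw [h1]; ring
        _ ≤ (n * K ^ n * Nat.card (Om F m e d)) * Nat.card (Ok F k m e d) :=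
            Nat.mul_le_mul_right _ (hPb ab z)
        _ = Nat.card (Om F m e d) * (n * K ^ n * Fintype.card (Ok F k m e d)) := by
            rw [Nat.card_eq_fintype_card (α := Ok F k m e d)]
            ring
    · have : B ((i, j), c, ab, z) = ∅ := by
        apply Finset.filter_eq_empty_iff.mpr
        rintro f - ⟨h, _⟩
        exact hij h
      rw [this]
      simp
  let Bad : Finset (Ok F k m e d) :=
    (Finset.univ : Finset ((Fin k × Fin k) × (Fin k → Fin e → F) × ((E → V) × (E → V)) ×
      (V → Fin e → F))).biUnion B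
  have hqpos : 0 < q := Fintype.card_pos
  have hBad : Bad.card * q ^ L ≤ A * q ^ (k * e + e * vv) * Fintype.card (Ok F k m e d) := by
    calc Bad.card * q ^ L
        ≤ (∑ x, (B x).card) * q ^ L := Nat.mul_le_mul_right _ Finset.card_biUnion_le
      _ = ∑ x, (B x).card * q ^ L := by rw [Finset.sum_mul]
      _ ≤ ∑ _x : (Fin k × Fin k) × (Fin k → Fin e → F) × ((E → V) × (E → V)) ×
            (V → Fin e → F), n * K ^ n * Fintype.card (Ok F k m e d) :=
          Finset.sum_le_sum (fun x _ => hB x)
      _ = A * q ^ (k * e + e * vv) * Fintype.card (Ok F k m e d) := by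
          simp only [Finset.sum_const, Finset.card_univ, Fintype.card_prod, Fintype.card_fun,
            Fintype.card_fin, smul_eq_mul, ← he, ← hvv, ← hqd, hA, ← pow_mul, pow_add]
          ring
  have hBad2 : Bad.card * q ^ (m + 1) ≤ A * Fintype.card (Ok F k m e d) := by
    have hLq : q ^ L = q ^ (k * e + e * vv) * q ^ (m + 1) := by
      rw [← pow_add, hL, add_assoc]
    rw [hLq] at hBad
    have hpos : 0 < q ^ (k * e + e * vv) := pow_pos hqpos _
    apply Nat.le_of_mul_le_mul_left _ hpos
    calc q ^ (k * e + e * vv) * (Bad.card * q ^ (m + 1))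
        = Bad.card * (q ^ (k * e + e * vv) * q ^ (m + 1)) := by ring
      _ ≤ A * q ^ (k * e + e * vv) * Fintype.card (Ok F k m e d) := hBad
      _ = _ := by ring
  have hBad3 : 2 * Bad.card * q ^ m ≤ Fintype.card (Ok F k m e d) := by
    apply Nat.le_of_mul_le_mul_left _ hqpos
    calc q * (2 * Bad.card * q ^ m) = 2 * (Bad.card * q ^ (m + 1)) := by ring
      _ ≤ 2 * (A * Fintype.card (Ok F k m e d)) := Nat.mul_le_mul_left _ hBad2
      _ = (2 * A) * Fintype.card (Ok F k m e d) := by ring
      _ ≤ q * Fintype.card (Ok F k m e d) := Nat.mul_le_mul_right _ (by omega)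
  obtain ⟨f, hf1, hf2⟩ := Pool.Agent.W493.TE.avg (Ω := Ok F k m e d) (P := Fin k → Fin e → F)
    (fun f x => Zr f x) (q ^ m) (q ^ (k * e)) Bad
    Fintype.card_pos (pow_pos hqpos _)
    (by
      simp only [Fintype.card_fun, Fintype.card_fin, ← hqd]
      rw [← pow_mul, mul_comm e k])
    (by
      intro x
      have := fibk F k m e d x
      rw [Nat.card_eq_fintype_card, Fintype.card_subtype, Nat.card_eq_fintype_card] at this
      convert this) hBad3
  refine ⟨f, ?_, ?_⟩
  · have : Nat.card {x : Fin k → Fin e → F // Zr f x} =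
        (Finset.univ.filter (fun x : Fin k → Fin e → F => Zr f x)).card := by
      rw [Nat.card_eq_fintype_card, Fintype.card_subtype]
    rw [this]
    convert hf2
  · intro i j hij c a b hab
    refine ⟨μ (a, b), hμ (a, b) hab, ?_⟩
    intro z hz
    by_contra hcon
    apply hf1
    apply Finset.mem_biUnion.mpr
    refine ⟨((i, j), c, (a, b), z), Finset.mem_univ _, ?_⟩
    simp only [B, Finset.mem_filter, Finset.mem_univ, true_and]
    exact ⟨hij, hab, hz, hcon⟩

end Pool.Agent.KS6_71.HX
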