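import Pool.Agent.KS6_71.HX.Atoms

set_option autoImplicit false

/-! In a packing by copies of a body, the holes of a surrounded copy are filled exactly by the
matching small cubes of other copies. -/

namespace Pool.Agent.KS6_71.HX

open Set Metric
open Pool.Agent.H389R3.Heesch (E φ φ_apply ctr UC CC isOpen_UC disjoint_UC convex_UC preconn_subset
  abs_coord_le_dist)

variable {n : ℕ} {i₀ i₁ : Fin n}

lemma dist_sq (x y : E n) : dist x y ^ 2 = ∑ l, (x l - y l) ^ 2 := by
  rw [EuclideanSpace.dist_eq, Real.sq_sqrt (Finset.sum_nonneg fun i _ => sq_nonneg _)]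
  apply Finset.sum_congr rfl
  intro l _
  rw [Real.dist_eq, sq_abs]

lemma dist_sq_le {x y : E n} {M : ℝ} (h : ∀ l, |x l - y l| ≤ M) : dist x y ^ 2 ≤ n * M ^ 2 := by
  rw [dist_sq]
  calc ∑ l, (x l - y l) ^ 2 ≤ ∑ _l : Fin n, M ^ 2 := by
        apply Finset.sum_le_sum
        intro l _
        rw [← sq_abs]
        exact pow_le_pow_left₀ (abs_nonneg _) (h l) 2
    _ = n * M ^ 2 := by simp

lemma dist_le_mul (hn : 2 ≤ n) {x y : E n} {M : ℝ} (h : ∀ l, |x l - y l| ≤ M) :
    dist x y ≤ n * M := by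
  have h1 := dist_sq_le h
  have hM : 0 ≤ M := (abs_nonneg _).trans (h ⟨0, by omega⟩)
  have hn' := n_real hn
  have h2 : (n : ℝ) * M ^ 2 ≤ (n * M) ^ 2 := by
    have : 0 ≤ M ^ 2 := sq_nonneg M
    nlinarith
  exact abs_le_of_sq_le_sq' (h1.trans h2) (by positivity) |>.2

lemma dist_Cd (hn : 2 ≤ n) {s : Site n} {c : Cell n} {x y : E n} (hx : x ∈ Cd i₀ i₁ s c)
    (hy : y ∈ Cd i₀ i₁ s c) : dist x y ≤ 1 / 50 := by
  have h : ∀ l, |x l - y l| ≤ 2 * rad s := by
    intro l
    have h1 := abs_le.1 (hx l)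
    have h2 := abs_le.1 (hy l)
    rw [abs_le]
    constructor <;> linarith [h1.1, h1.2, h2.1, h2.2]
  have h1 := dist_le_mul hn h
  have h2 := n_rad_le hn s
  linarith

lemma convex_Hd (hn : 2 ≤ n) (s : Site n) (c : Cell n) : Convex ℝ (Hd i₀ i₁ s c) := by
  rw [Hd_eq hn]
  exact (convex_ball _ _).linear_preimage (φ n).toLinearMap

/-- every point of a frame lies in a long convex part of it -/
lemma exists_slab (hn : 2 ≤ n) (h01 : i₀ ≠ i₁) {c : Cell n} {x : E n} (hx : x ∈ Fr i₀ i₁ c) :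
    ∃ B : Set (E n), Convex ℝ B ∧ B ⊆ Fr i₀ i₁ c ∧ x ∈ B ∧ ∃ p ∈ B, ∃ q ∈ B, 1 / 5 < dist p q := by
  have hsel : ∀ s : Site n, ∃ l, rad s < |x l - pos i₀ i₁ s c l| := by
    intro s
    by_contra h
    push Not at h
    exact hx.2 s h
  choose l hl using hsel
  have hlin : ∀ m : Fin n, IsLinearMap ℝ (fun z : E n => z m) := fun m =>
    ⟨fun a b => rfl, fun a b => rfl⟩
  -- the half space of a hole
  let H : Site n → Set (E n) := fun s =>
    if pos i₀ i₁ s c (l s) < x (l s) then {z | pos i₀ i₁ s c (l s) + rad s < z (l s)}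
    else {z | z (l s) < pos i₀ i₁ s c (l s) - rad s}
  have hHconv : ∀ s, Convex ℝ (H s) := by
    intro s
    simp only [H]
    split_ifs
    · exact convex_halfSpace_gt (hlin _) _
    · exact convex_halfSpace_lt (hlin _) _
  have hxH : ∀ s, x ∈ H s := by
    intro s
    have h1 := hl s
    have h2 := rad_pos hn s
    simp only [H]
    split_ifs with h
    · rw [abs_of_pos (by linarith)] at h1
      rw [mem_ofPred_eq]
      linarith
    · rw [abs_of_nonpos (by linarith)] at h1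
      rw [mem_ofPred_eq]
      linarith
  have hHCd : ∀ s z, z ∈ H s → z ∉ Cd i₀ i₁ s c := by
    intro s z hz hzC
    have h1 := abs_le.1 (hzC (l s))
    simp only [H] at hz
    split_ifs at hz with h
    · have h2 : pos i₀ i₁ s c (l s) + rad s < z (l s) := hz
      linarith [h1.2]
    · have h2 : z (l s) < pos i₀ i₁ s c (l s) - rad s := hz
      linarith [h1.1]
  let B : Set (E n) := UC c ∩ ⋂ s, H s
  have hxU := mem_UC.1 hx.1
  -- the test points
  have key : ∀ t : ℝ, |t - ((c i₀ : ℝ) + 1 / 2)| < 1 / 2 →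
      ((c i₀ : ℝ) + 1 / 2 ≤ x i₀ → (c i₀ : ℝ) + 1 / 2 + 1 / 20 < t) →
      (x i₀ < (c i₀ : ℝ) + 1 / 2 → t < (c i₀ : ℝ) + 1 / 2 - 1 / 20) →
      (φ n).symm (Function.update (φ n x) i₀ t) ∈ B := by
    intro t ht ht1 ht2
    have hval : ∀ m, ((φ n).symm (Function.update (φ n x) i₀ t)) m =
        if m = i₀ then t else x m := by
      intro m
      show Function.update (φ n x) i₀ t m = _
      by_cases hm : m = i₀
      · subst hm; simp
      · rw [Function.update_of_ne hm, if_neg hm]; rfl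
    refine ⟨mem_UC.2 fun m => ?_, mem_iInter.2 fun s => ?_⟩
    · rw [hval]
      split_ifs with hm
      · subst hm; exact ht
      · exact hxU m
    · have h1 := hxH s
      have h3 := rad_lt hn s
      simp only [H] at h1 ⊢
      by_cases hm : l s = i₀
      · have hp : pos i₀ i₁ s c (l s) = (c i₀ : ℝ) + 1 / 2 := by
          rw [hm]; unfold pos; rw [off_i0 h01]
        rw [hp] at h1 ⊢
        rw [hm] at h1 ⊢
        split_ifs at h1 ⊢ with h
        · rw [mem_ofPred_eq]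
          rw [hval, if_pos rfl]
          have := ht1 h.le
          linarith
        · rw [mem_ofPred_eq]
          rw [hval, if_pos rfl]
          have h4 : x i₀ < (c i₀ : ℝ) + 1 / 2 - rad s := h1
          have := ht2 (by have := rad_pos hn s; linarith)
          linarith
      · split_ifs at h1 ⊢ with h
        · rw [mem_ofPred_eq]
          rw [hval, if_neg hm]
          exact h1
        · rw [mem_ofPred_eq]
          rw [hval, if_neg hm]
          exact h1
  refine ⟨B, (convex_UC c).inter (convex_iInter hHconv), ?_, ⟨hx.1, mem_iInter.2 hxH⟩, ?_⟩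
  · rintro z ⟨hz1, hz2⟩
    exact ⟨hz1, fun s => hHCd s z (mem_iInter.1 hz2 s)⟩
  · by_cases hside : (c i₀ : ℝ) + 1 / 2 ≤ x i₀
    · refine ⟨_, key ((c i₀ : ℝ) + 1 / 2 + 9 / 20) ?_ (fun _ => by linarith) (fun h => by linarith),
        _, key ((c i₀ : ℝ) + 1 / 2 + 1 / 10) ?_ (fun _ => by linarith) (fun h => by linarith), ?_⟩
      · rw [add_sub_cancel_left, abs_of_pos (by norm_num)]; norm_num
      · rw [add_sub_cancel_left, abs_of_pos (by norm_num)]; norm_num
      · refine lt_of_lt_of_le ?_ (abs_coord_le_dist _ _ i₀)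
        show _ < |Function.update (φ n x) i₀ _ i₀ - Function.update (φ n x) i₀ _ i₀|
        rw [Function.update_self, Function.update_self]
        rw [show (c i₀ : ℝ) + 1 / 2 + 9 / 20 - ((c i₀ : ℝ) + 1 / 2 + 1 / 10) = 7 / 20 by ring]
        norm_num
    · push Not at hside
      refine ⟨_, key ((c i₀ : ℝ) + 1 / 2 - 9 / 20) ?_ (fun _ => by linarith) (fun h => by linarith),
        _, key ((c i₀ : ℝ) + 1 / 2 - 1 / 10) ?_ (fun _ => by linarith) (fun h => by linarith), ?_⟩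
      · rw [show (c i₀ : ℝ) + 1 / 2 - 9 / 20 - ((c i₀ : ℝ) + 1 / 2) = -(9 / 20) by ring, abs_neg,
          abs_of_pos (by norm_num)]; norm_num
      · rw [show (c i₀ : ℝ) + 1 / 2 - 1 / 10 - ((c i₀ : ℝ) + 1 / 2) = -(1 / 10) by ring, abs_neg,
          abs_of_pos (by norm_num)]; norm_num
      · refine lt_of_lt_of_le ?_ (abs_coord_le_dist _ _ i₀)
        show _ < |Function.update (φ n x) i₀ _ i₀ - Function.update (φ n x) i₀ _ i₀|
        rw [Function.update_self, Function.update_self]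
        rw [show (c i₀ : ℝ) + 1 / 2 - 9 / 20 - ((c i₀ : ℝ) + 1 / 2 - 1 / 10) = -(7 / 20) by ring,
          abs_neg]
        norm_num

section single

variable {F : Finset (Cell n)} {D : Bool → Finset (Cell n)} (g : E n ≃ᵢ E n)

/-- a preconnected part of a copy that meets a hole lies in the hole -/
lemma subset_hole (hn : 2 ≤ n) (hg : ∀ x ∈ W i₀ i₁ F D, g x ∉ W i₀ i₁ F D) {a : Cell n}
    (ha : a ∈ F) {s : Site n} {B : Set (E n)} (hB : IsPreconnected B) (hBW : B ⊆ W i₀ i₁ F D)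
    {x : E n} (hx : x ∈ B) (hgx : g x ∈ Hd i₀ i₁ s a) : ∀ y ∈ B, g y ∈ Hd i₀ i₁ s a := by
  have h1 : IsPreconnected (g '' B) := hB.image g g.continuous.continuousOn
  have h2 : g '' B ∩ frontier (Hd i₀ i₁ s a) = ∅ := by
    rw [eq_empty_iff_forall_notMem]
    rintro _ ⟨⟨y, hy, rfl⟩, hfr⟩
    have hfr' : g y ∈ Cd i₀ i₁ s a ∧ g y ∉ Hd i₀ i₁ s a := by
      rw [frontier, closure_Hd hn, (isOpen_Hd hn s a).interior_eq] at hfr
      exact hfr
    have h3 : g y ∈ closure (W i₀ i₁ F D) := by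
      refine closure_mono ?_ (frontier_subset hn s a hfr'.1 hfr'.2)
      intro z hz
      exact Or.inl ⟨a, ha, hz⟩
    have h4 : IsOpen (g '' W i₀ i₁ F D) := g.toHomeomorph.isOpenMap _ (isOpen_W hn F D)
    obtain ⟨z, hz1, hz2⟩ := _root_.mem_closure_iff.1 h3 _ h4 ⟨y, hBW hy, rfl⟩
    obtain ⟨w, hw, rfl⟩ := hz1
    exact hg w hw hz2
  have h3 := preconn_subset h1 (isOpen_Hd hn s a) ⟨g x, ⟨x, hx, rfl⟩, hgx⟩ h2
  intro y hy
  exact h3 ⟨y, hy, rfl⟩

/-- frames of a copy do not meet holes -/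
lemma frame_not_hole (hn : 2 ≤ n) (h01 : i₀ ≠ i₁) (hg : ∀ x ∈ W i₀ i₁ F D, g x ∉ W i₀ i₁ F D)
    {a c : Cell n} (ha : a ∈ F) (hc : c ∈ F) {s : Site n} {x : E n} (hx : x ∈ Fr i₀ i₁ c) :
    g x ∉ Hd i₀ i₁ s a := by
  intro hgx
  obtain ⟨B, hB, hBs, hxB, p, hp, q, hq, hpq⟩ := exists_slab hn h01 hx
  have h1 := subset_hole g hn hg ha hB.isPreconnected
    (fun z hz => Or.inl ⟨c, hc, hBs hz⟩) hxB hgx
  have h2 := dist_Cd hn (Hd_subset_Cd _ _ (h1 p hp)) (Hd_subset_Cd _ _ (h1 q hq))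
  rw [g.dist_eq] at h2
  linarith

end single

/-- a copy of a small cube inside a hole contains the centre of the hole -/
lemma center_mem (hn : 2 ≤ n) (u : E n ≃ᵢ E n) {s s' : Site n} {c d : Cell n}
    (h : ∀ y ∈ Hd i₀ i₁ s' d, u y ∈ Cd i₀ i₁ s c) : u.symm (cpt i₀ i₁ s c) ∈ Hd i₀ i₁ s' d := by
  have hr := rad_pos hn s'
  -- the image of the centre is close to the centre
  have h1 : ∀ l, |u (cpt i₀ i₁ s' d) l - pos i₀ i₁ s c l| ≤ rad s - rad s' := by
    intro l
    have h2 : ∀ t : ℝ, |t| < rad s' →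
        |u (cpt i₀ i₁ s' d) l + t - pos i₀ i₁ s c l| ≤ rad s := by
      intro t ht
      set z : E n := u (cpt i₀ i₁ s' d) + EuclideanSpace.single l t with hz
      have hdz : dist (u.symm z) (cpt i₀ i₁ s' d) = |t| := by
        have : dist (u (u.symm z)) (u (cpt i₀ i₁ s' d)) = dist (u.symm z) (cpt i₀ i₁ s' d) :=
          u.dist_eq _ _
        rw [← this, u.apply_symm_apply, hz, dist_eq_norm, add_sub_cancel_left,
          PiLp.norm_single, Real.norm_eq_abs]
      have h3 : u.symm z ∈ Hd i₀ i₁ s' d := by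
        intro m
        have h4 := abs_coord_le_dist (u.symm z) (cpt i₀ i₁ s' d) m
        rw [hdz] at h4
        exact lt_of_le_of_lt h4 ht
      have h5 := h _ h3 l
      rw [u.apply_symm_apply, hz] at h5
      simpa using h5
    apply le_of_forall_pos_lt_add
    intro ε hε
    have hle : rad s - rad s' + ε = rad s - (rad s' - ε) := by ring
    by_cases hεr : ε < rad s'
    · rcases le_total (pos i₀ i₁ s c l) (u (cpt i₀ i₁ s' d) l) with h3 | h3
      · have h4 := (abs_le.1 (h2 (rad s' - ε / 2) (by rw [abs_of_pos (by linarith)]; linarith))).2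
        rw [abs_of_nonneg (by linarith)]
        linarith
      · have h4 := (abs_le.1 (h2 (-(rad s' - ε / 2))
          (by rw [abs_neg, abs_of_pos (by linarith)]; linarith))).1
        rw [abs_of_nonpos (by linarith)]
        linarith
    · push Not at hεr
      have h4 := h2 0 (by simpa using hr)
      rw [add_zero] at h4
      rcases le_total (pos i₀ i₁ s c l) (u (cpt i₀ i₁ s' d) l) with h3 | h3
      · have h5 := (abs_le.1 (h2 (rad s' / 2) (by rw [abs_of_pos (by linarith)]; linarith))).2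
        rw [abs_of_nonneg (by linarith)]
        linarith
      · have h5 := (abs_le.1 (h2 (-(rad s' / 2))
          (by rw [abs_neg, abs_of_pos (by linarith)]; linarith))).1
        rw [abs_of_nonpos (by linarith)]
        linarith
  have h2 : dist (u (cpt i₀ i₁ s' d)) (cpt i₀ i₁ s c) ≤ n * (rad s - rad s') :=
    dist_le_mul hn (fun l => h1 l)
  have h3 := rad_cmp hn s s'
  have h4 : dist (cpt i₀ i₁ s' d) (u.symm (cpt i₀ i₁ s c)) < rad s' := by
    have : dist (u (cpt i₀ i₁ s' d)) (u (u.symm (cpt i₀ i₁ s c))) =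
        dist (cpt i₀ i₁ s' d) (u.symm (cpt i₀ i₁ s c)) := u.dist_eq _ _
    rw [← this, u.apply_symm_apply]
    linarith
  intro m
  have h5 := abs_coord_le_dist (u.symm (cpt i₀ i₁ s c)) (cpt i₀ i₁ s' d) m
  rw [dist_comm] at h5
  exact lt_of_le_of_lt h5 h4

/-- the two opposite corners of a hole -/
noncomputable def corner (i₀ i₁ : Fin n) (s : Site n) (c : Cell n) (σ : ℝ) : E n :=
  (φ n).symm (fun l => pos i₀ i₁ s c l + σ * rad s)

lemma corner_apply (s : Site n) (c : Cell n) (σ : ℝ) (l : Fin n) :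
    corner i₀ i₁ s c σ l = pos i₀ i₁ s c l + σ * rad s := rfl

lemma corner_mem (hn : 2 ≤ n) (s : Site n) (c : Cell n) {σ : ℝ} (hσ : |σ| = 1) :
    corner i₀ i₁ s c σ ∈ Cd i₀ i₁ s c := by
  intro l
  rw [corner_apply, add_sub_cancel_left, abs_mul, hσ, one_mul, abs_of_pos (rad_pos hn s)]

lemma corner_notMem (hn : 2 ≤ n) (s : Site n) (c : Cell n) {σ : ℝ} (hσ : |σ| = 1) :
    corner i₀ i₁ s c σ ∉ Hd i₀ i₁ s c := by
  intro h
  have := h ⟨0, by omega⟩
  rw [corner_apply, add_sub_cancel_left, abs_mul, hσ, one_mul, abs_of_pos (rad_pos hn s)] at this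
  exact lt_irrefl _ this

lemma dist_corner_sq (s : Site n) (c : Cell n) :
    dist (corner i₀ i₁ s c 1) (corner i₀ i₁ s c (-1)) ^ 2 = 4 * (n * rad s ^ 2) := by
  rw [dist_sq]
  simp only [corner_apply]
  rw [Finset.sum_congr rfl (fun l _ => show (pos i₀ i₁ s c l + 1 * rad s -
    (pos i₀ i₁ s c l + -1 * rad s)) ^ 2 = 4 * rad s ^ 2 by ring)]
  simp
  ring

lemma dist_Cd_sq {s : Site n} {c : Cell n} {x : E n} (hx : x ∈ Cd i₀ i₁ s c) :
    dist x (cpt i₀ i₁ s c) ^ 2 ≤ n * rad s ^ 2 :=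
  dist_sq_le (fun l => hx l)

/-- the core of the argument: a small cube whose closure contains two opposite corners of the hole
in which it lies is the hole -/
lemma match_of_corners (hn : 2 ≤ n) (u : E n ≃ᵢ E n) {s s' : Site n} {c d : Cell n}
    (h : ∀ y ∈ Cd i₀ i₁ s' d, u y ∈ Cd i₀ i₁ s c)
    (h1 : u.symm (corner i₀ i₁ s c 1) ∈ Cd i₀ i₁ s' d)
    (h2 : u.symm (corner i₀ i₁ s c (-1)) ∈ Cd i₀ i₁ s' d) :
    s' = s ∧ u (cpt i₀ i₁ s' d) = cpt i₀ i₁ s c := by
  have hn' := n_real hn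
  have hr := rad_pos hn s
  have hr' := rad_pos hn s'
  set P := u (cpt i₀ i₁ s' d) with hP
  set z₁ := corner i₀ i₁ s c 1 with hz₁
  set z₂ := corner i₀ i₁ s c (-1) with hz₂
  have d1 : dist z₁ P ^ 2 ≤ n * rad s' ^ 2 := by
    have := dist_Cd_sq h1
    rw [← u.dist_eq, u.apply_symm_apply] at this
    exact this
  have d2 : dist z₂ P ^ 2 ≤ n * rad s' ^ 2 := by
    have := dist_Cd_sq h2
    rw [← u.dist_eq, u.apply_symm_apply] at this
    exact this
  have d3 : dist z₁ z₂ ^ 2 = 4 * (n * rad s ^ 2) := dist_corner_sq s c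
  -- parallelogram law
  have hpar := parallelogram_law_with_norm ℝ (z₁ - P) (z₂ - P)
  have e1 : z₁ - P - (z₂ - P) = z₁ - z₂ := by abel
  rw [e1] at hpar
  rw [dist_eq_norm] at d1 d2 d3
  have hsq : ‖z₁ - P + (z₂ - P)‖ ^ 2 + 4 * (n * rad s ^ 2) ≤ 4 * (n * rad s' ^ 2) := by
    nlinarith [hpar, d1, d2, d3]
  have hle : rad s ≤ rad s' := by
    have h3 : (n : ℝ) * rad s ^ 2 ≤ n * rad s' ^ 2 := by
      have := sq_nonneg ‖z₁ - P + (z₂ - P)‖
      linarith
    have h4 : rad s ^ 2 ≤ rad s' ^ 2 := le_of_mul_le_mul_left h3 (by linarith)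
    exact (sq_le_sq₀ hr.le hr'.le).1 h4
  have hge : rad s' ≤ rad s := by
    have e2 := u.dist_eq (corner i₀ i₁ s' d 1) (corner i₀ i₁ s' d (-1))
    have k1 := h _ (corner_mem hn s' d (σ := 1) (by norm_num))
    have k2 := h _ (corner_mem hn s' d (σ := -1) (by norm_num))
    have k3 : dist (u (corner i₀ i₁ s' d 1)) (u (corner i₀ i₁ s' d (-1))) ^ 2 ≤
        n * (2 * rad s) ^ 2 := by
      apply dist_sq_le
      intro l
      have h1 := abs_le.1 (k1 l)
      have h2 := abs_le.1 (k2 l)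
      rw [abs_le]
      constructor <;> linarith [h1.1, h1.2, h2.1, h2.2]
    rw [e2, dist_corner_sq] at k3
    have h3 : (n : ℝ) * rad s' ^ 2 ≤ n * rad s ^ 2 := by linarith
    have h4 : rad s' ^ 2 ≤ rad s ^ 2 := le_of_mul_le_mul_left h3 (by linarith)
    exact (sq_le_sq₀ hr'.le hr.le).1 h4
  have heq : rad s = rad s' := le_antisymm hle hge
  refine ⟨(rad_inj hn heq).symm, ?_⟩
  rw [heq] at hsq
  have h0 : ‖z₁ - P + (z₂ - P)‖ ^ 2 ≤ 0 := by linarith
  have h00 : ‖z₁ - P + (z₂ - P)‖ = 0 := by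
    have := sq_nonneg ‖z₁ - P + (z₂ - P)‖
    exact pow_eq_zero_iff (two_ne_zero) |>.1 (le_antisymm h0 this)
  rw [norm_eq_zero] at h00
  ext l
  have h5 := congrArg (fun v : E n => v l) h00
  simp only [PiLp.add_apply, PiLp.sub_apply, PiLp.zero_apply] at h5
  rw [hz₁, hz₂, corner_apply, corner_apply] at h5
  rw [cpt_apply]
  linarith

end Pool.Agent.KS6_71.HX
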