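import Pool.Agent.KS6_71.HX.NoBU

/-!
# The host hypergraphs
-/

set_option autoImplicit false

open Classical

namespace Pool.Agent.KS6_71.HX

open Pool.Agent.W979.TE Pool.Agent.W493.TE

/-- the set `A` with two more points -/
noncomputable def tri {W : Type} (x y : W) (A : Finset W) : Finset W := insert x (insert y A)

theorem mem_tri {W : Type} {x y p : W} {A : Finset W} : p ∈ tri x y A ↔ p = x ∨ p = y ∨ p ∈ A := by
  unfold tri
  rw [Finset.mem_insert, Finset.mem_insert]

theorem map_tri {W W' : Type} (ι : W ↪ W') (x y : W) (A : Finset W) :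
    (tri x y A).map ι = tri (ι x) (ι y) (A.map ι) := by
  unfold tri
  rw [Finset.map_insert, Finset.map_insert]

/-- `G` contains the `(k - 2)`-fold cone over the blowup -/
def HasCone {V W : Type} (k : ℕ) (T : SimpleGraph V) (R : Set V) (t : ℕ)
    (G : Finset (Finset W)) : Prop :=
  ∃ (φ : BV V R t → W) (A : Finset W), Function.Injective φ ∧ A.card + 2 = k ∧
    (∀ a, φ a ∉ A) ∧ ∀ a b, (BU T R t).Adj a b → tri (φ a) (φ b) A ∈ G

/-- the graph of a map -/
noncomputable def grf {k : ℕ} {Y : Type} (x : Fin k → Y) : Finset (Fin k × Y) :=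
  Finset.univ.image (fun i => (i, x i))

theorem mem_grf {k : ℕ} {Y : Type} (x : Fin k → Y) (p : Fin k × Y) :
    p ∈ grf x ↔ x p.1 = p.2 := by
  unfold grf
  rw [Finset.mem_image]
  constructor
  · rintro ⟨i, _, rfl⟩
    rfl
  · intro h
    exact ⟨p.1, Finset.mem_univ _, Prod.ext rfl h⟩

theorem grf_inj {k : ℕ} {Y : Type} : Function.Injective (grf (k := k) (Y := Y)) := by
  intro x y h
  funext i
  have h1 : (i, y i) ∈ grf y := (mem_grf y _).2 rfl
  rw [← h, mem_grf] at h1
  exact h1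

theorem card_grf {k : ℕ} {Y : Type} (x : Fin k → Y) : (grf x).card = k := by
  unfold grf
  rw [Finset.card_image_of_injective]
  · simp
  · intro i j h
    exact congrArg Prod.fst h

/-- the host hypergraph -/
noncomputable def HG {F : Type} [Field F] [Fintype F] {k m e d : ℕ} (f : Ok F k m e d) :
    Finset (Finset (Fin k × (Fin e → F))) :=
  (Finset.univ.filter (fun x : Fin k → Fin e → F => Zr f x)).image grf

theorem card_HG {F : Type} [Field F] [Fintype F] {k m e d : ℕ} (f : Ok F k m e d) :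
    (HG f).card = Nat.card {x : Fin k → Fin e → F // Zr f x} := by
  unfold HG
  rw [Finset.card_image_of_injective _ grf_inj, Nat.card_eq_fintype_card, Fintype.card_subtype]

theorem mem_HG {F : Type} [Field F] [Fintype F] {k m e d : ℕ} (f : Ok F k m e d)
    {s : Finset (Fin k × (Fin e → F))} (h : s ∈ HG f) : ∃ x, Zr f x ∧ s = grf x := by
  unfold HG at h
  rw [Finset.mem_image] at h
  obtain ⟨x, hx, rfl⟩ := h
  exact ⟨x, (Finset.mem_filter.1 hx).2, rfl⟩

/-- no cone in the host hypergraph -/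
theorem no_cone {F : Type} [Field F] [Fintype F] {k m e d : ℕ} (f : Ok F k m e d) {V : Type}
    {T : SimpleGraph V} {R : Set V} {t : ℕ} (hne : Nonempty (BV V R t))
    (hnb : ∀ a : BV V R t, ∃ b, (BU T R t).Adj a b)
    (hno : ∀ (i j : Fin k) (hij : i ≠ j) (c : Fin k → Fin e → F),
      ¬ HasBU T R t (GG (res hij c f))) : ¬ HasCone k T R t (HG f) := by
  rintro ⟨φ, A, hφ, hA, hdisj, hadj⟩
  obtain ⟨a0⟩ := hne
  obtain ⟨b0, h0⟩ := hnb a0
  obtain ⟨c, hc, hce⟩ := mem_HG f (hadj a0 b0 h0)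
  have hmemc : ∀ p, p ∈ tri (φ a0) (φ b0) A ↔ c p.1 = p.2 := by
    intro p
    rw [hce, mem_grf]
  set i : Fin k := (φ a0).1 with hi
  set j : Fin k := (φ b0).1 with hj
  have ca : c i = (φ a0).2 := (hmemc (φ a0)).1 (mem_tri.2 (Or.inl rfl))
  have cb : c j = (φ b0).2 := (hmemc (φ b0)).1 (mem_tri.2 (Or.inr (Or.inl rfl)))
  have hij : i ≠ j := by
    intro h
    have h1 : φ a0 = φ b0 := by
      refine Prod.ext h ?_
      rw [← ca, ← cb, h]
    exact h0.ne (hφ h1)
  -- the apexes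
  have hAc : ∀ i', i' ≠ i → i' ≠ j → (i', c i') ∈ A := by
    intro i' h1 h2
    have h3 := (hmemc (i', c i')).2 rfl
    rw [mem_tri] at h3
    rcases h3 with h3 | h3 | h3
    · exact absurd (congrArg Prod.fst h3) h1
    · exact absurd (congrArg Prod.fst h3) h2
    · exact h3
  -- adjacent pairs
  have key : ∀ a b, (BU T R t).Adj a b → ∃ x, Zr f x ∧ x (φ a).1 = (φ a).2 ∧
      x (φ b).1 = (φ b).2 ∧ (∀ i', i' ≠ i → i' ≠ j → x i' = c i') ∧
      (((φ a).1 = i ∧ (φ b).1 = j) ∨ ((φ a).1 = j ∧ (φ b).1 = i)) := by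
    intro a b hab
    obtain ⟨x, hx, hxe⟩ := mem_HG f (hadj a b hab)
    have hmemx : ∀ p, p ∈ tri (φ a) (φ b) A ↔ x p.1 = p.2 := by
      intro p
      rw [hxe, mem_grf]
    have xa : x (φ a).1 = (φ a).2 := (hmemx (φ a)).1 (mem_tri.2 (Or.inl rfl))
    have xb : x (φ b).1 = (φ b).2 := (hmemx (φ b)).1 (mem_tri.2 (Or.inr (Or.inl rfl)))
    have xc : ∀ i', i' ≠ i → i' ≠ j → x i' = c i' := by
      intro i' h1 h2
      exact (hmemx (i', c i')).1 (mem_tri.2 (Or.inr (Or.inr (hAc i' h1 h2))))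
    have hcol : ∀ v, x (φ v).1 = (φ v).2 → (φ v).1 = i ∨ (φ v).1 = j := by
      intro v hv
      by_contra hcon
      push Not at hcon
      apply hdisj v
      have h1 := hAc _ hcon.1 hcon.2
      rw [← xc _ hcon.1 hcon.2, hv] at h1
      exact h1
    have hne' : (φ a).1 ≠ (φ b).1 := by
      intro h
      have h1 : φ a = φ b := by
        refine Prod.ext h ?_
        rw [← xa, ← xb, h]
      exact hab.ne (hφ h1)
    refine ⟨x, hx, xa, xb, xc, ?_⟩
    rcases hcol a xa with h1 | h1 <;> rcases hcol b xb with h2 | h2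
    · exact absurd (h1.trans h2.symm) hne'
    · exact Or.inl ⟨h1, h2⟩
    · exact Or.inr ⟨h1, h2⟩
    · exact absurd (h1.trans h2.symm) hne'
  have hcols : ∀ v, (φ v).1 = i ∨ (φ v).1 = j := by
    intro v
    obtain ⟨b, hb⟩ := hnb v
    obtain ⟨_, _, _, _, _, h1⟩ := key v b hb
    rcases h1 with h1 | h1
    · exact Or.inl h1.1
    · exact Or.inr h1.1
  have hpnt : ∀ x : Fin k → Fin e → F, (∀ i', i' ≠ i → i' ≠ j → x i' = c i') →
      pnt i j c (x i) (x j) = x := by
    intro x hx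
    funext v
    unfold pnt
    split_ifs with h1 h2
    · rw [h1]
    · rw [h2]
    · exact (hx v h1 h2).symm
  apply hno i j hij c
  refine ⟨fun v => (decide ((φ v).1 = j), (φ v).2), ?_, ?_⟩
  · intro v v' h
    simp only [Prod.mk.injEq, decide_eq_decide] at h
    apply hφ
    refine Prod.ext ?_ h.2
    rcases hcols v with h1 | h1 <;> rcases hcols v' with h2 | h2
    · rw [h1, h2]
    · exact absurd (h.1.2 h2) (by rw [h1]; exact hij)
    · exact absurd (h.1.1 h1) (by rw [h2]; exact hij)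
    · rw [h1, h2]
  · intro a b hab
    obtain ⟨x, hx, xa, xb, xc, h1⟩ := key a b hab
    have hz : ∀ l, MvPolynomial.eval (Sum.elim (x i) (x j))
        ((res hij c f l : MvPolynomial (Fin e ⊕ Fin e) F)) = 0 := by
      intro l
      show MvPolynomial.eval (Sum.elim (x i) (x j)) (rsub i j c (f l)) = 0
      rw [rsub_eval, hpnt x xc]
      exact hx l
    rcases h1 with ⟨h1, h2⟩ | ⟨h1, h2⟩
    · left
      refine ⟨?_, ?_, ?_⟩
      · simp [h1, hij]
      · simp [h2]
      · intro l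
        show MvPolynomial.eval (Sum.elim (φ a).2 (φ b).2) _ = 0
        rw [← xa, ← xb, h1, h2]
        exact hz l
    · right
      refine ⟨?_, ?_, ?_⟩
      · simp [h2, hij]
      · simp [h1]
      · intro l
        show MvPolynomial.eval (Sum.elim (φ b).2 (φ a).2) _ = 0
        rw [← xa, ← xb, h1, h2]
        exact hz l

/-- the image of a hypergraph -/
def mapH {W W' : Type} (ι : W ↪ W') (G : Finset (Finset W)) : Finset (Finset W') :=
  G.map ⟨fun s => s.map ι, Finset.map_injective ι⟩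

theorem mem_mapH {W W' : Type} {ι : W ↪ W'} {G : Finset (Finset W)} {s : Finset W'} :
    s ∈ mapH ι G ↔ ∃ s' ∈ G, s'.map ι = s := by
  unfold mapH
  rw [Finset.mem_map]
  rfl

/-- transfer to larger vertex sets -/
theorem cone_map {W W' V : Type} {k : ℕ} {T : SimpleGraph V} {R : Set V} {t : ℕ}
    (hne : Nonempty (BV V R t)) (hnb : ∀ a : BV V R t, ∃ b, (BU T R t).Adj a b)
    (G : Finset (Finset W)) (ι : W ↪ W') (h : HasCone k T R t (mapH ι G)) :
    HasCone k T R t G := by
  obtain ⟨φ, A, hφ, hA, hdisj, hadj⟩ := h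
  have key : ∀ a b, (BU T R t).Adj a b → ∃ s ∈ G, s.map ι = tri (φ a) (φ b) A := by
    intro a b hab
    exact mem_mapH.1 (hadj a b hab)
  have hφι : ∀ a, ∃ u, ι u = φ a := by
    intro a
    obtain ⟨b, hb⟩ := hnb a
    obtain ⟨s, _, hs⟩ := key a b hb
    have h1 : φ a ∈ s.map ι := by rw [hs]; exact mem_tri.2 (Or.inl rfl)
    rw [Finset.mem_map] at h1
    obtain ⟨u, _, hu⟩ := h1
    exact ⟨u, hu⟩
  choose ψ hψ using hφι
  obtain ⟨a0⟩ := hne
  obtain ⟨b0, h0⟩ := hnb a0
  obtain ⟨s0, hs0, hs0e⟩ := key a0 b0 h0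
  have hAι : ∃ A' : Finset W, A'.map ι = A := by
    refine ⟨s0.filter (fun u => ι u ∈ A), ?_⟩
    ext y
    rw [Finset.mem_map]
    constructor
    · rintro ⟨u, hu, rfl⟩
      exact (Finset.mem_filter.1 hu).2
    · intro hy
      have h1 : y ∈ s0.map ι := by
        rw [hs0e, mem_tri]
        exact Or.inr (Or.inr hy)
      rw [Finset.mem_map] at h1
      obtain ⟨u, hu, rfl⟩ := h1
      exact ⟨u, Finset.mem_filter.2 ⟨hu, hy⟩, rfl⟩
  obtain ⟨A', hA'⟩ := hAι
  refine ⟨ψ, A', ?_, ?_, ?_, ?_⟩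
  · intro a b hab
    apply hφ
    rw [← hψ, ← hψ, hab]
  · rw [← hA, ← hA', Finset.card_map]
  · intro a ha
    apply hdisj a
    rw [← hA', ← hψ]
    exact Finset.mem_map_of_mem ι ha
  · intro a b hab
    obtain ⟨s, hs, hse⟩ := key a b hab
    have h1 : tri (ψ a) (ψ b) A' = s := by
      apply Finset.map_injective ι
      rw [hse, map_tri, hψ, hψ, hA']
    rw [h1]
    exact hs

end Pool.Agent.KS6_71.HX
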