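import Pool.Agent.KS6_71.HX.Host

/-!
# The upper bound
-/

set_option autoImplicit false

open Classical

namespace Pool.Agent.KS6_71.HX

open Pool.Agent.W979.TE

theorem tri_comm {W : Type} (x y : W) (A : Finset W) : tri x y A = tri y x A := by
  unfold tri
  exact Finset.insert_comm x y A

/-- the link graph of a set -/
noncomputable def Lk {W : Type} (G : Finset (Finset W)) (A : Finset W) : SimpleGraph W where
  Adj x y := x ≠ y ∧ x ∉ A ∧ y ∉ A ∧ tri x y A ∈ G
  symm := ⟨fun x y h => ⟨h.1.symm, h.2.2.1, h.2.1, by rw [tri_comm]; exact h.2.2.2⟩⟩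
  loopless := ⟨fun _ h => h.1 rfl⟩

theorem link_bu {W V : Type} {k : ℕ} {T : SimpleGraph V} {R : Set V} {t : ℕ}
    (hnb : ∀ a : BV V R t, ∃ b, (BU T R t).Adj a b) (G : Finset (Finset W)) {A : Finset W}
    (hA : A.card + 2 = k) (h : HasBU T R t (Lk G A)) : HasCone k T R t G := by
  obtain ⟨φ, h1, h2⟩ := h
  refine ⟨φ, A, h1, hA, ?_, fun a b hab => (h2 a b hab).2.2.2⟩
  intro a
  obtain ⟨b, hb⟩ := hnb a
  exact (h2 a b hb).2.1

theorem split {W : Type} {k : ℕ} (hk : 2 ≤ k) {s : Finset W} (hs : s.card = k) :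
    ∃ (A : Finset W) (x y : W), A.card + 2 = k ∧ x ≠ y ∧ x ∉ A ∧ y ∉ A ∧ s = tri x y A := by
  obtain ⟨A, hA, hAc⟩ := Finset.exists_subset_card_eq (s := s) (n := k - 2) (by omega)
  have h1 : (s \ A).card = 2 := by
    rw [Finset.card_sdiff_of_subset hA]
    omega
  obtain ⟨x, y, hxy, he⟩ := Finset.card_eq_two.1 h1
  have hx : x ∈ s \ A := by rw [he]; simp
  have hy : y ∈ s \ A := by rw [he]; simp
  rw [Finset.mem_sdiff] at hx hy
  refine ⟨A, x, y, by omega, hxy, hx.2, hy.2, ?_⟩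
  ext p
  rw [mem_tri]
  constructor
  · intro hp
    by_cases hpA : p ∈ A
    · exact Or.inr (Or.inr hpA)
    · have : p ∈ s \ A := Finset.mem_sdiff.2 ⟨hp, hpA⟩
      rw [he] at this
      simp only [Finset.mem_insert, Finset.mem_singleton] at this
      rcases this with h | h
      · exact Or.inl h
      · exact Or.inr (Or.inl h)
  · rintro (h | h | h)
    · rw [h]; exact hx.1
    · rw [h]; exact hy.1
    · exact hA h

theorem up_count {n k : ℕ} (hk : 2 ≤ k) (G : Finset (Finset (Fin n))) (hG : ∀ s ∈ G, s.card = k) :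
    G.card ≤ ∑ A ∈ (Finset.univ : Finset (Fin n)).powersetCard (k - 2),
      (Lk G A).edgeSet.ncard := by
  have hch : ∀ s : {s // s ∈ G}, ∃ p : Finset (Fin n) × Fin n × Fin n, p.1.card + 2 = k ∧
      p.2.1 ≠ p.2.2 ∧ p.2.1 ∉ p.1 ∧ p.2.2 ∉ p.1 ∧ s.1 = tri p.2.1 p.2.2 p.1 := by
    intro s
    obtain ⟨A, x, y, h⟩ := split hk (hG s.1 s.2)
    exact ⟨(A, x, y), h⟩
  choose p hp1 hp2 hp3 hp4 hp5 using hch
  have h1 : ∑ A ∈ (Finset.univ : Finset (Fin n)).powersetCard (k - 2),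
      (Lk G A).edgeSet.ncard = (((Finset.univ : Finset (Fin n)).powersetCard (k - 2)).sigma
        (fun A => (Lk G A).edgeSet.toFinset)).card := by
    rw [Finset.card_sigma]
    refine Finset.sum_congr rfl fun A _ => ?_
    rw [Set.ncard_eq_toFinset_card']
  rw [h1, ← Finset.card_attach]
  refine Finset.card_le_card_of_injOn
    (fun s => (⟨(p s).1, s((p s).2.1, (p s).2.2)⟩ : Σ _ : Finset (Fin n), Sym2 (Fin n))) ?_ ?_
  · intro s _
    rw [Finset.mem_coe, Finset.mem_sigma]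
    refine ⟨?_, ?_⟩
    · rw [Finset.mem_powersetCard]
      refine ⟨Finset.subset_univ _, ?_⟩
      show (p s).1.card = k - 2
      have := hp1 s
      omega
    · rw [Set.mem_toFinset, SimpleGraph.mem_edgeSet]
      exact ⟨hp2 s, hp3 s, hp4 s, by rw [← hp5 s]; exact s.2⟩
  · intro s _ s' _ h
    simp only [Sigma.mk.injEq, heq_eq_eq] at h
    apply Subtype.ext
    rw [hp5 s, hp5 s', h.1]
    rcases Sym2.eq_iff.1 h.2 with h2 | h2
    · rw [h2.1, h2.2]
    · rw [h2.1, h2.2, tri_comm]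

/-- the upper bound -/
theorem up (k : ℕ) (hk : 2 ≤ k) (V : Type) (T : SimpleGraph V) (R : Set V) (t : ℕ)
    (hnb : ∀ a : BV V R t, ∃ b, (BU T R t).Adj a b) (C γ : ℝ)
    (hUB : ∀ n : ℕ, ∀ G : SimpleGraph (Fin n), ¬ HasBU T R t G →
      (G.edgeSet.ncard : ℝ) ≤ C * (n : ℝ) ^ (2 - γ)) (n : ℕ) (G : Finset (Finset (Fin n)))
    (hG : ∀ s ∈ G, s.card = k) (hno : ¬ HasCone k T R t G) :
    (G.card : ℝ) ≤ max C 0 * (n : ℝ) ^ ((k : ℝ) - γ) := by
  rcases Nat.eq_zero_or_pos n with hn | hn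
  · subst hn
    have h0 : G = ∅ := by
      rw [Finset.eq_empty_iff_forall_notMem]
      intro s hs
      have h1 := hG s hs
      have h2 : s.card ≤ 0 := by
        have := Finset.card_le_univ s
        simpa using this
      omega
    rw [h0]
    simp only [Finset.card_empty, Nat.cast_zero]
    positivity
  have hn0 : (0 : ℝ) < n := by exact_mod_cast hn
  have h1 : (G.card : ℝ) ≤ ∑ A ∈ (Finset.univ : Finset (Fin n)).powersetCard (k - 2),
      ((Lk G A).edgeSet.ncard : ℝ) := by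
    have := up_count hk G hG
    exact_mod_cast this
  refine h1.trans ?_
  have h2 : ∀ A ∈ (Finset.univ : Finset (Fin n)).powersetCard (k - 2),
      ((Lk G A).edgeSet.ncard : ℝ) ≤ max C 0 * (n : ℝ) ^ (2 - γ) := by
    intro A hA
    rw [Finset.mem_powersetCard] at hA
    have h3 := hUB n (Lk G A) (fun h => hno (link_bu hnb G (by omega) h))
    refine h3.trans ?_
    exact mul_le_mul_of_nonneg_right (le_max_left _ _) (by positivity)
  refine (Finset.sum_le_sum h2).trans ?_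
  rw [Finset.sum_const, Finset.card_powersetCard, Finset.card_univ, Fintype.card_fin, nsmul_eq_mul]
  have h3 : ((n.choose (k - 2) : ℕ) : ℝ) ≤ (n : ℝ) ^ (k - 2) := by
    exact_mod_cast Nat.choose_le_pow n (k - 2)
  have h4 : (n : ℝ) ^ ((k : ℝ) - γ) = (n : ℝ) ^ (k - 2) * (n : ℝ) ^ (2 - γ) := by
    rw [← Real.rpow_natCast, ← Real.rpow_add hn0]
    congr 1
    rw [Nat.cast_sub hk]
    push_cast
    ring
  rw [h4]
  calc ((n.choose (k - 2) : ℕ) : ℝ) * (max C 0 * (n : ℝ) ^ (2 - γ))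
      ≤ (n : ℝ) ^ (k - 2) * (max C 0 * (n : ℝ) ^ (2 - γ)) :=
        mul_le_mul_of_nonneg_right h3 (by positivity)
    _ = _ := by ring

end Pool.Agent.KS6_71.HX
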