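import Pool.Agent.KS6_71.HX.Low
import Pool.Agent.KS6_71.HX.Up

/-!
# Hypergraphs, Turan numbers, cones
-/

set_option autoImplicit false

open Classical

namespace Pool.Agent.KS6_71.HX

open Pool.Agent.W979.TE

/-- every edge has `k` vertices -/
def Uniform {V : Type} (k : ℕ) (H : Finset (Finset V)) : Prop := ∀ s ∈ H, s.card = k

/-- the vertices can be coloured with `k` colours such that no edge has two vertices of the same
colour -/
def Partite {V : Type} (k : ℕ) (H : Finset (Finset V)) : Prop :=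
  ∃ χ : V → Fin k, ∀ s ∈ H, Set.InjOn χ (s : Set V)

/-- `G` contains a copy of `H` -/
def Contains {V W : Type} (H : Finset (Finset V)) (G : Finset (Finset W)) : Prop :=
  ∃ φ : V ↪ W, ∀ s ∈ H, s.map φ ∈ G

/-- `F` is isomorphic to an induced subhypergraph of `H` -/
def InducedIn {V W : Type} (F : Finset (Finset V)) (H : Finset (Finset W)) : Prop :=
  ∃ φ : V ↪ W, ∀ s : Finset V, s.map φ ∈ H ↔ s ∈ F

/-- the largest number of edges of a `k`-uniform hypergraph with `n` vertices without a copy of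
`H` -/
noncomputable def exk (k n : ℕ) {m : ℕ} (H : Finset (Finset (Fin m))) : ℕ :=
  sSup {N : ℕ | ∃ G : Finset (Finset (Fin n)), Uniform k G ∧ ¬ Contains H G ∧ G.card = N}

theorem le_exk {k n m : ℕ} {H : Finset (Finset (Fin m))} {G : Finset (Finset (Fin n))}
    (h1 : Uniform k G) (h2 : ¬ Contains H G) : G.card ≤ exk k n H := by
  unfold exk
  refine le_csSup ⟨Fintype.card (Finset (Fin n)), ?_⟩ ⟨G, h1, h2, rfl⟩
  rintro N ⟨G', _, _, rfl⟩
  exact Finset.card_le_univ G'

theorem exk_le {k n m : ℕ} {H : Finset (Finset (Fin m))} {X : ℝ} (hX : 0 ≤ X)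
    (h : ∀ G : Finset (Finset (Fin n)), Uniform k G → ¬ Contains H G → (G.card : ℝ) ≤ X) :
    (exk k n H : ℝ) ≤ X := by
  set S : Set ℕ := {N : ℕ | ∃ G : Finset (Finset (Fin n)), Uniform k G ∧ ¬ Contains H G ∧
    G.card = N} with hS
  rcases S.eq_empty_or_nonempty with h0 | h0
  · have : exk k n H = 0 := by
      show sSup S = 0
      rw [h0]
      exact csSup_empty
    rw [this, Nat.cast_zero]
    exact hX
  · have h1 : sSup S ∈ S := by
      refine Nat.sSup_mem h0 ⟨Fintype.card (Finset (Fin n)), ?_⟩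
      rintro N ⟨G', _, _, rfl⟩
      exact Finset.card_le_univ G'
    obtain ⟨G, h2, h3, h4⟩ := h1
    have h5 := h G h2 h3
    show ((sSup S : ℕ) : ℝ) ≤ X
    rw [← h4]
    exact h5

theorem exk_mono {k n m m' : ℕ} {H : Finset (Finset (Fin m))} {H' : Finset (Finset (Fin m'))}
    (h : ∀ G : Finset (Finset (Fin n)), Contains H' G → Contains H G) :
    exk k n H ≤ exk k n H' := by
  have : (exk k n H : ℝ) ≤ (exk k n H' : ℝ) := by
    refine exk_le (Nat.cast_nonneg _) fun G h1 h2 => ?_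
    exact_mod_cast le_exk h1 (fun h3 => h2 (h G h3))
  exact_mod_cast this

theorem contains_trans {U V W : Type} {F : Finset (Finset U)} {H : Finset (Finset V)}
    {G : Finset (Finset W)} (h1 : Contains F H) (h2 : Contains H G) : Contains F G := by
  obtain ⟨φ, hφ⟩ := h1
  obtain ⟨ψ, hψ⟩ := h2
  refine ⟨φ.trans ψ, fun s hs => ?_⟩
  rw [← Finset.map_map]
  exact hψ _ (hφ s hs)

theorem contains_mapH {V W : Type} (φ : V ↪ W) (H : Finset (Finset V)) : Contains H (mapH φ H) :=
  ⟨φ, fun s hs => mem_mapH.2 ⟨s, hs, rfl⟩⟩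

theorem mapH_contains {V W : Type} (e : V ≃ W) (H : Finset (Finset V)) :
    Contains (mapH e.toEmbedding H) H := by
  refine ⟨e.symm.toEmbedding, fun s hs => ?_⟩
  obtain ⟨s', hs', rfl⟩ := mem_mapH.1 hs
  rw [Finset.map_map]
  have : e.toEmbedding.trans e.symm.toEmbedding = Function.Embedding.refl V := by
    ext x
    simp
  rw [this, Finset.map_refl]
  exact hs'

theorem uniform_mapH {V W : Type} {k : ℕ} (φ : V ↪ W) {H : Finset (Finset V)}
    (h : Uniform k H) : Uniform k (mapH φ H) := by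
  intro s hs
  obtain ⟨s', hs', rfl⟩ := mem_mapH.1 hs
  rw [Finset.card_map]
  exact h s' hs'

theorem partite_equiv {V W : Type} {k : ℕ} (e : V ≃ W) {H : Finset (Finset V)}
    (h : Partite k H) : Partite k (mapH e.toEmbedding H) := by
  obtain ⟨χ, hχ⟩ := h
  refine ⟨fun w => χ (e.symm w), ?_⟩
  intro s hs x hx y hy hxy
  obtain ⟨s', hs', rfl⟩ := mem_mapH.1 hs
  rw [Finset.mem_coe, Finset.mem_map] at hx hy
  obtain ⟨x', hx', rfl⟩ := hx
  obtain ⟨y', hy', rfl⟩ := hy
  simp only [Equiv.coe_toEmbedding, Equiv.symm_apply_apply] at hxy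
  rw [hχ s' hs' (Finset.mem_coe.2 hx') (Finset.mem_coe.2 hy') hxy]

/-! ## cones -/

section
variable {V : Type} [Fintype V] (T : SimpleGraph V) (R : Set V) (t k : ℕ)

noncomputable instance instBV : Fintype (BV V R t) := by
  have : Finite (BV V R t) := Pool.Agent.W493.TE.finite_BV V R t
  exact Fintype.ofFinite _

/-- the apexes -/
noncomputable def apx : Finset (BV V R t ⊕ Fin (k - 2)) :=
  (Finset.univ : Finset (Fin (k - 2))).map ⟨Sum.inr, Sum.inr_injective⟩

theorem mem_apx (x : BV V R t ⊕ Fin (k - 2)) : x ∈ apx R t k ↔ ∃ i, x = Sum.inr i := by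
  unfold apx
  rw [Finset.mem_map]
  constructor
  · rintro ⟨i, _, rfl⟩
    exact ⟨i, rfl⟩
  · rintro ⟨i, rfl⟩
    exact ⟨i, Finset.mem_univ _, rfl⟩

/-- the cone over the blowup -/
noncomputable def coneH : Finset (Finset (BV V R t ⊕ Fin (k - 2))) :=
  ((Finset.univ : Finset (BV V R t × BV V R t)).filter (fun p => (BU T R t).Adj p.1 p.2)).image
    (fun p => tri (Sum.inl p.1) (Sum.inl p.2) (apx R t k))

theorem mem_coneH (s : Finset (BV V R t ⊕ Fin (k - 2))) : s ∈ coneH T R t k ↔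
    ∃ a b, (BU T R t).Adj a b ∧ s = tri (Sum.inl a) (Sum.inl b) (apx R t k) := by
  unfold coneH
  rw [Finset.mem_image]
  constructor
  · rintro ⟨⟨a, b⟩, h, rfl⟩
    exact ⟨a, b, (Finset.mem_filter.1 h).2, rfl⟩
  · rintro ⟨a, b, h, rfl⟩
    exact ⟨(a, b), Finset.mem_filter.2 ⟨Finset.mem_univ _, h⟩, rfl⟩

theorem card_tri {W : Type} {x y : W} {A : Finset W} (h1 : x ≠ y) (h2 : x ∉ A) (h3 : y ∉ A) :
    (tri x y A).card = A.card + 2 := by
  unfold tri
  rw [Finset.card_insert_of_notMem, Finset.card_insert_of_notMem h3]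
  rw [Finset.mem_insert]
  push Not
  exact ⟨h1, h2⟩

theorem card_apx (hk : 2 ≤ k) : (apx R t k).card + 2 = k := by
  unfold apx
  rw [Finset.card_map, Finset.card_univ, Fintype.card_fin]
  omega

theorem cone_uniform (hk : 2 ≤ k) : Uniform k (coneH T R t k) := by
  intro s hs
  obtain ⟨a, b, h, rfl⟩ := (mem_coneH T R t k s).1 hs
  rw [card_tri, card_apx R t k hk]
  · intro h1
    exact h.ne (Sum.inl_injective h1)
  · rw [mem_apx]
    rintro ⟨i, hi⟩
    exact absurd hi (by simp)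
  · rw [mem_apx]
    rintro ⟨i, hi⟩
    exact absurd hi (by simp)

theorem cone_partite (hk : 2 ≤ k) (χ : BV V R t → Bool)
    (hχ : ∀ a b, (BU T R t).Adj a b → χ a ≠ χ b) : Partite k (coneH T R t k) := by
  refine ⟨Sum.elim (fun a => if χ a = true then ⟨0, by omega⟩ else ⟨1, by omega⟩)
    (fun i => ⟨i.1 + 2, by have := i.2; omega⟩), ?_⟩
  intro s hs
  obtain ⟨a, b, h, rfl⟩ := (mem_coneH T R t k s).1 hs
  have hab := hχ a b h
  have hmem : ∀ x, x ∈ tri (Sum.inl a) (Sum.inl b) (apx R t k) → x = Sum.inl a ∨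
      x = Sum.inl b ∨ ∃ i, x = Sum.inr i := by
    intro x hx
    rw [mem_tri, mem_apx] at hx
    exact hx
  intro x hx y hy hxy
  rw [Finset.mem_coe] at hx hy
  rcases hmem x hx with rfl | rfl | ⟨i, rfl⟩ <;> rcases hmem y hy with rfl | rfl | ⟨j, rfl⟩
  · rfl
  · exfalso
    simp only [Sum.elim_inl] at hxy
    cases h1 : χ a <;> cases h2 : χ b <;> rw [h1, h2] at hxy <;> simp_all
  · exfalso
    simp only [Sum.elim_inl, Sum.elim_inr] at hxy
    split_ifs at hxy <;> simp [Fin.ext_iff] at hxy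
  · exfalso
    simp only [Sum.elim_inl] at hxy
    cases h1 : χ a <;> cases h2 : χ b <;> rw [h1, h2] at hxy <;> simp_all
  · rfl
  · exfalso
    simp only [Sum.elim_inl, Sum.elim_inr] at hxy
    split_ifs at hxy <;> simp [Fin.ext_iff] at hxy
  · exfalso
    simp only [Sum.elim_inl, Sum.elim_inr] at hxy
    split_ifs at hxy <;> simp [Fin.ext_iff] at hxy
  · exfalso
    simp only [Sum.elim_inl, Sum.elim_inr] at hxy
    split_ifs at hxy <;> simp [Fin.ext_iff] at hxy
  · simp only [Sum.elim_inr, Fin.mk.injEq] at hxy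
    congr 1
    apply Fin.ext
    omega

theorem cone_noiso (hne : Nonempty (BV V R t)) (hnb : ∀ a : BV V R t, ∃ b, (BU T R t).Adj a b)
    (v : BV V R t ⊕ Fin (k - 2)) : ∃ s ∈ coneH T R t k, v ∈ s := by
  rcases v with a | i
  · obtain ⟨b, hb⟩ := hnb a
    exact ⟨_, (mem_coneH T R t k _).2 ⟨a, b, hb, rfl⟩, mem_tri.2 (Or.inl rfl)⟩
  · obtain ⟨a⟩ := hne
    obtain ⟨b, hb⟩ := hnb a
    exact ⟨_, (mem_coneH T R t k _).2 ⟨a, b, hb, rfl⟩,
      mem_tri.2 (Or.inr (Or.inr ((mem_apx R t k _).2 ⟨i, rfl⟩)))⟩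

theorem cone_iff (hk : 2 ≤ k) {W : Type} (G : Finset (Finset W)) :
    Contains (coneH T R t k) G ↔ HasCone k T R t G := by
  constructor
  · rintro ⟨φ, hφ⟩
    refine ⟨fun a => φ (Sum.inl a), (apx R t k).map φ, ?_, ?_, ?_, ?_⟩
    · intro a b h
      exact Sum.inl_injective (φ.injective h)
    · rw [Finset.card_map, card_apx R t k hk]
    · intro a h
      rw [Finset.mem_map] at h
      obtain ⟨x, hx, hxa⟩ := h
      obtain ⟨i, rfl⟩ := (mem_apx R t k x).1 hx
      exact absurd (φ.injective hxa) (by simp)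
    · intro a b h
      have h1 := hφ _ ((mem_coneH T R t k _).2 ⟨a, b, h, rfl⟩)
      rw [map_tri] at h1
      exact h1
  · rintro ⟨φ, A, hφ, hA, hdisj, hadj⟩
    have hc : A.card = k - 2 := by omega
    let g : Fin (k - 2) → W := fun i => ((A.equivFin.symm (Fin.cast hc.symm i) : A) : W)
    have hg : Function.Injective g := by
      intro i j h
      have h1 := A.equivFin.symm.injective (Subtype.ext h)
      exact Fin.ext (by simpa [Fin.ext_iff] using h1)
    have hgA : ∀ i, g i ∈ A := fun i => (A.equivFin.symm (Fin.cast hc.symm i)).2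
    have hgs : ∀ y ∈ A, ∃ i, g i = y := by
      intro y hy
      refine ⟨Fin.cast hc (A.equivFin ⟨y, hy⟩), ?_⟩
      simp [g]
    let Φ : BV V R t ⊕ Fin (k - 2) ↪ W := ⟨Sum.elim φ g, by
      rintro (a | i) (b | j) h
      · simp only [Sum.elim_inl] at h
        rw [hφ h]
      · simp only [Sum.elim_inl, Sum.elim_inr] at h
        exact absurd (h ▸ hgA j) (hdisj a)
      · simp only [Sum.elim_inl, Sum.elim_inr] at h
        exact absurd (h ▸ hgA i) (hdisj b)
      · simp only [Sum.elim_inr] at h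
        rw [hg h]⟩
    have hap : (apx R t k).map Φ = A := by
      ext y
      rw [Finset.mem_map]
      constructor
      · rintro ⟨x, hx, rfl⟩
        obtain ⟨i, rfl⟩ := (mem_apx R t k x).1 hx
        exact hgA i
      · intro hy
        obtain ⟨i, hi⟩ := hgs y hy
        exact ⟨Sum.inr i, (mem_apx R t k _).2 ⟨i, rfl⟩, hi⟩
    refine ⟨Φ, fun s hs => ?_⟩
    obtain ⟨a, b, h, rfl⟩ := (mem_coneH T R t k s).1 hs
    rw [map_tri, hap]
    exact hadj a b h

end

end Pool.Agent.KS6_71.HX
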