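import Pool.Agent.KS6_71.HX.Host

/-!
# The lower bound
-/

set_option autoImplicit false

open Classical

namespace Pool.Agent.KS6_71.HX

open Pool.Agent.W979.TE Pool.Agent.W493.TE

/-- the lower bound -/
theorem low (k : ℕ) (hk : 2 ≤ k) (V : Type) [Fintype V] (T : SimpleGraph V) (R : Set V) (m e : ℕ)
    (hm : m = Rᶜ.ncard) (he : e = eS T Rᶜ) (hm0 : 0 < m) (hme : m ≤ e)
    (hbal : ∀ S : Set V, S ⊆ Rᶜ → e * S.ncard ≤ m * eS T S)
    (hnb : ∀ t : ℕ, 0 < t → ∀ a : BV V R t, ∃ b, (BU T R t).Adj a b) :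
    ∃ t : ℕ, 0 < t ∧ ∃ c : ℝ, 0 < c ∧ ∃ n0 : ℕ, ∀ n : ℕ, n0 ≤ n →
      ∃ G : Finset (Finset (Fin n)), (∀ s ∈ G, s.card = k) ∧ ¬ HasCone k T R t G ∧
        c * (n : ℝ) ^ ((k : ℝ) - (m : ℝ) / (e : ℝ)) ≤ (G.card : ℝ) := by
  have he0 : 0 < e := lt_of_lt_of_le hm0 hme
  have hk0 : 0 < k := by omega
  have hUm : (Rᶜ.toFinset).card = m := by
    rw [hm, Set.ncard_eq_toFinset_card']
  have hEe : Fintype.card (EE T R) = e := by
    rw [he, card_EE]
  obtain ⟨d, K, q0, hgood⟩ := goodk Pool.Agent.W290.TE.hall loc k V (EE T R) (Rᶜ.toFinset)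
    (Finset.card_pos.1 (by omega)) (by omega)
  obtain ⟨t, ht, hnobu⟩ := nobu bnd V T R (by omega) (by
    intro S hS
    rw [hEe, hUm]
    exact hbal S hS) d K
  have hneV : Nonempty (BV V R t) := by
    have h1 : (Rᶜ.toFinset).Nonempty := Finset.card_pos.1 (by omega)
    obtain ⟨v, hv⟩ := h1
    exact ⟨⟨(v, 0), ht, fun _ => rfl⟩⟩
  set α : ℝ := (k : ℝ) - (m : ℝ) / (e : ℝ) with hα
  have heR : (0 : ℝ) < (e : ℝ) := by exact_mod_cast he0
  have hkR : (0 : ℝ) < (k : ℝ) := by exact_mod_cast hk0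
  have hmeR : (m : ℝ) / (e : ℝ) ≤ 1 := by
    rw [div_le_one heR]
    exact_mod_cast hme
  have hα0 : 0 ≤ α := by
    have : (2 : ℝ) ≤ k := by exact_mod_cast hk
    rw [hα]; linarith
  set q1 := q0 + 1 with hq1
  refine ⟨t, ht, (1 / 2) * (1 / (k * 2 ^ e)) ^ α, by positivity, k * (2 * q1) ^ e, ?_⟩
  intro n hn
  obtain ⟨p, hp, hp1, hp2, hp3⟩ := prime_choice e (2 * (n / k)) q1 he0 (by
    have : (2 * q1) ^ e ≤ n / k := by
      rw [Nat.le_div_iff_mul_le hk0, mul_comm]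
      exact hn
    omega) (by omega)
  have hp2' : k * p ^ e ≤ n := by
    have h1 : p ^ e ≤ n / k := by omega
    rw [Nat.le_div_iff_mul_le hk0, mul_comm] at h1
    exact h1
  have hp3' : n < k * (2 * p) ^ e := by
    have h1 : n / k < (2 * p) ^ e := by omega
    rw [Nat.div_lt_iff_lt_mul hk0, mul_comm] at h1
    exact h1
  have : Fact p.Prime := ⟨hp⟩
  obtain ⟨f, hf1, hf2⟩ := hgood (ZMod p) (by rw [ZMod.card]; omega)
  rw [ZMod.card] at hf1
  have hcard : Fintype.card (Fin k × (Fin (Fintype.card (EE T R)) → ZMod p)) = k * p ^ e := by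
    rw [hEe]
    simp [Fintype.card_prod, ZMod.card]
  obtain ⟨ι⟩ : Nonempty (Fin k × (Fin (Fintype.card (EE T R)) → ZMod p) ↪ Fin n) := by
    apply Function.Embedding.nonempty_of_card_le
    rw [hcard, Fintype.card_fin]
    exact hp2'
  refine ⟨mapH ι (HG f), ?_, ?_, ?_⟩
  · intro s hs
    obtain ⟨s', hs', rfl⟩ := mem_mapH.1 hs
    obtain ⟨x, _, rfl⟩ := mem_HG f hs'
    rw [Finset.card_map, card_grf]
  · intro h
    refine no_cone f hneV (hnb t ht) ?_ (cone_map hneV (hnb t ht) _ ι h)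
    intro i j hij c
    exact hnobu (ZMod p) (res hij c f) (hf2 i j hij c)
  · have hN : (mapH ι (HG f)).card =
        Nat.card {x : Fin k → Fin (Fintype.card (EE T R)) → ZMod p // Zr f x} := by
      rw [mapH, Finset.card_map, card_HG]
    rw [hN]
    set N : ℕ := Nat.card {x : Fin k → Fin (Fintype.card (EE T R)) → ZMod p // Zr f x} with hNd
    rw [hEe, hUm] at hf1
    have hp0 : (0 : ℝ) < (p : ℝ) := by exact_mod_cast hp.pos
    have h1 : (p : ℝ) ^ (k * e) ≤ 2 * (p : ℝ) ^ m * (N : ℝ) := by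
      exact_mod_cast hf1
    have hmk : m ≤ k * e := le_trans hme (Nat.le_mul_of_pos_left e hk0)
    have h2 : (p : ℝ) ^ (k * e) = (p : ℝ) ^ m * (p : ℝ) ^ (k * e - m) := by
      rw [← pow_add]; congr 1; omega
    have h3 : (p : ℝ) ^ (k * e - m) ≤ 2 * (N : ℝ) := by
      rw [h2] at h1
      have : 0 < (p : ℝ) ^ m := by positivity
      nlinarith
    have h4 : ((p : ℝ) ^ e) ^ α = (p : ℝ) ^ (k * e - m) := by
      rw [← Real.rpow_natCast (p : ℝ) e, ← Real.rpow_mul hp0.le, ← Real.rpow_natCast]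
      congr 1
      rw [hα, Nat.cast_sub hmk]
      push_cast
      field_simp
    have h5 : (n : ℝ) / (k * 2 ^ e) ≤ (p : ℝ) ^ e := by
      rw [div_le_iff₀ (by positivity)]
      have : (n : ℝ) < k * (2 * (p : ℝ)) ^ e := by exact_mod_cast hp3'
      have h6 : k * (2 * (p : ℝ)) ^ e = (p : ℝ) ^ e * (k * 2 ^ e) := by
        rw [mul_pow]; ring
      rw [h6] at this
      exact this.le
    calc 1 / 2 * (1 / (k * 2 ^ e)) ^ α * (n : ℝ) ^ α
        = 1 / 2 * ((n : ℝ) / (k * 2 ^ e)) ^ α := by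
          rw [mul_assoc, ← Real.mul_rpow (by positivity) (by positivity)]
          congr 2
          ring
      _ ≤ 1 / 2 * ((p : ℝ) ^ e) ^ α := by
          apply mul_le_mul_of_nonneg_left _ (by norm_num)
          exact Real.rpow_le_rpow (by positivity) h5 hα0
      _ = 1 / 2 * (p : ℝ) ^ (k * e - m) := by rw [h4]
      _ ≤ (N : ℝ) := by linarith

end Pool.Agent.KS6_71.HX
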