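import Pool.Agent.KS6_71.HX.Pos

set_option autoImplicit false

/-! Every natural number is a Heesch number, in every dimension `n ≥ 2`. -/

namespace Pool.Agent.KS6_71.HX

open Set Metric
open Pool.Agent.H389R3.Heesch (E)

variable {n : ℕ}

lemma congruent_refl (A : Set (E n)) : Congruent A A :=
  ⟨IsometryEquiv.refl _, by
    have : ((IsometryEquiv.refl (E n) : E n ≃ᵢ E n) : E n → E n) = id := rfl
    rw [this, image_id]⟩

lemma isPatch_congr {A B : Set (E n)} (h : Congruent B A) {P : Set (Set (E n))}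
    (hP : IsPatch A P) : IsPatch B P :=
  ⟨fun Q hQ => congruent_trans h (hP.1 Q hQ), hP.2⟩

lemma corona_zero {A : Set (E n)} {P : Set (Set (E n))} (hA : A ∈ P) : corona P A 0 = {A} := by
  ext Q
  constructor
  · rintro ⟨m, c, hm, h0, hQ, -⟩
    have : m = 0 := by omega
    subst this
    rw [mem_singleton_iff, ← hQ, h0]
  · intro h
    rw [mem_singleton_iff] at h
    rw [h]
    exact mem_corona_zero hA

lemma byPackings_of {A : Set (E n)} {P : Set (Set (E n))} (hfin : P.Finite) {k : ℕ}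
    (h : SurroundsTimes P A k) : SurroundedByPackings A k := by
  obtain ⟨hP, hA, hs⟩ := h
  refine ⟨fun i => corona P A i, corona_zero hA, fun i _ => ⟨hfin.subset corona_subset,
    isPatch_mono hP corona_subset⟩, fun i _ => corona_mono (by omega), ?_⟩
  intro i hi1 hik Q hQ
  rw [closure_compl, eq_empty_iff_forall_notMem]
  rintro x ⟨hx1, hx2⟩
  exact hx1 (hs i hi1 hik ⟨Q, hQ, hx2⟩)

/-- For every `n ≥ 2` and `k` there is a body in `E n` with Heesch number exactly `k`, in the sense
of coronas and in the sense of nested packings. -/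
theorem heesch_exact (hn : 2 ≤ n) (k : ℕ) : ∃ A : Set (E n), IsBody A ∧ ¬ TilesSpace A ∧
    (∃ P : Set (Set (E n)), P.Finite ∧ SurroundsTimes P A k) ∧
    (∀ P : Set (Set (E n)), ¬ SurroundsTimes P A (k + 1)) ∧
    SurroundedByPackings A k ∧ ¬ SurroundedByPackings A (k + 1) := by
  have h0 : 0 < n := by omega
  have h1 : 1 < n := by omega
  have h01 : (⟨0, h0⟩ : Fin n) ≠ ⟨1, h1⟩ := by
    intro h
    simp at h
  set i₀ : Fin n := ⟨0, h0⟩ with hi₀
  set i₁ : Fin n := ⟨1, h1⟩ with hi₁
  rcases Nat.eq_zero_or_pos k with rfl | hk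
  · have hs : SurroundsTimes {B₀ i₀ i₁} (B₀ i₀ i₁) 0 := by
      refine ⟨⟨?_, ?_⟩, rfl, fun j hj1 hj2 => absurd hj1 (by omega)⟩
      · intro Q hQ
        rw [mem_singleton_iff] at hQ
        rw [hQ]
        exact congruent_refl _
      · intro Q hQ Q' hQ' hne
        rw [mem_singleton_iff] at hQ hQ'
        exact absurd (hQ.trans hQ'.symm) hne
    exact ⟨B₀ i₀ i₁, isBody_body hn h01 (Finset.singleton_nonempty 0) _, B_not_tiles hn h01,
      ⟨_, finite_singleton _, hs⟩, B_not_surrounds hn h01, byPackings_of (finite_singleton _) hs,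
      B_not_byPackings hn h01⟩
  · set κ : ℤ := (k : ℤ) with hκdef
    have hκ : 1 ≤ κ := by omega
    set A : Set (E n) := tlv i₀ i₁ κ (vc i₀ κ) with hA
    have hAA : Congruent (A₀ i₀ i₁ k) A := congruent_base h01 _ (sgn_or' _)
    obtain ⟨S, hS, hs⟩ := surrounds hn h01 k hk
    have hfin : (tlv i₀ i₁ κ '' S).Finite := hS.image _
    refine ⟨A, ?_, ?_, ⟨_, hfin, hs⟩, ?_, byPackings_of hfin hs, ?_⟩
    · refine isBody_body hn h01 ⟨Pool.Agent.H389R3.Heesch.bse i₀ i₁ (2 * κ - 1) (vc i₀ κ), ?_⟩ _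
      rw [Pool.Agent.H389R3.Heesch.mem_Fs]
      exact ⟨fun _ _ => rfl, le_rfl, by omega⟩
    · rintro ⟨P, hP, hcov⟩
      exact not_tiles hn h01 k hk ⟨P, isPatch_congr hAA hP, hcov⟩
    · rintro P ⟨hP, hAP, hs⟩
      refine no_nested hn h01 k hk (fun m => corona P A m)
        (isPatch_congr hAA (isPatch_mono hP corona_subset)) (mem_corona_zero hAP)
        (fun i _ => corona_mono (by omega)) ?_
      intro i hi Q hQ
      have h1 := hs (i + 1) (by omega) (by omega)
      rw [Nat.add_sub_cancel] at h1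
      exact (subset_sUnion_of_mem hQ).trans h1
    · rintro ⟨C, h0, h1, h2, h3⟩
      refine no_nested hn h01 k hk C (isPatch_congr hAA (h1 (k + 1) le_rfl).2) (Q₀ := A)
        (by rw [h0]; rfl) (fun i hi => h2 i (by omega)) ?_
      intro i hi Q hQ
      have h4 := h3 (i + 1) (by omega) (by omega) Q (by rw [Nat.add_sub_cancel]; exact hQ)
      rw [closure_compl] at h4
      intro x hx
      by_contra hcon
      have : x ∈ (interior (⋃₀ C (i + 1)))ᶜ ∩ Q := ⟨hcon, hx⟩
      rw [h4] at this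
      exact this

end Pool.Agent.KS6_71.HX
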