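import Pool.Agent.KS6_71.HX.Upper
import Pool.Agent.KS6_71.HX.Defs

set_option autoImplicit false

/-! No patch surrounds the body `A κ` more than `κ` times. -/

namespace Pool.Agent.KS6_71.HX

open Set Metric
open Pool.Agent.H389R3.Heesch (E φ φ_apply ctr UC CC isOpen_UC disjoint_UC convex_UC preconn_subset
  abs_coord_le_dist Fs Ds mem_Fs mem_Ds)

variable {n : ℕ} {i₀ i₁ : Fin n} {F : Finset (Cell n)} {D : Bool → Finset (Cell n)}

/-- a patch of congruent copies as a separated family of isometries -/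
lemma exists_family (hn : 2 ≤ n) {P : Set (Set (E n))} (hP : IsPatch (body i₀ i₁ F D) P) :
    ∃ g : P → (E n ≃ᵢ E n), (∀ Q, g Q '' body i₀ i₁ F D = Q.1) ∧ Sep i₀ i₁ F D g := by
  obtain ⟨hcong, hdisj⟩ := hP
  choose g hg using fun Q : P => hcong Q.1 Q.2
  refine ⟨g, hg, ?_⟩
  intro Q Q' hne x hx y hy h
  have h1 : ∀ R : P, ∀ z ∈ W i₀ i₁ F D, g R z ∈ interior R.1 := by
    intro R z hz
    have h2 : g R '' W i₀ i₁ F D ⊆ interior R.1 := by
      apply interior_maximal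
      · rw [← hg R]
        exact image_mono subset_closure
      · exact (g R).toHomeomorph.isOpenMap _ (isOpen_W hn F D)
    exact h2 ⟨z, hz, rfl⟩
  have h2 := hdisj Q.1 Q.2 Q'.1 Q'.2 (fun h => hne (Subtype.ext h))
  exact Set.disjoint_left.1 h2 (h1 Q x hx) (h ▸ h1 Q' y hy)

lemma filled_of {P : Set (Set (E n))} {g : P → (E n ≃ᵢ E n)}
    (hg : ∀ Q, g Q '' body i₀ i₁ F D = Q.1) {S : Set (Set (E n))} (hS : S ⊆ P) (Q : P)
    (h : Q.1 ⊆ interior (⋃₀ S)) : Filled i₀ i₁ F D g {R : P | R.1 ∈ S} Q := by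
  unfold Filled
  rw [hg]
  have : (⋃ j ∈ {R : P | R.1 ∈ S}, g j '' body i₀ i₁ F D) = ⋃₀ S := by
    ext x
    simp only [mem_iUnion, mem_sUnion, hg]
    constructor
    · rintro ⟨R, hR, hx⟩
      exact ⟨R.1, hR, hx⟩
    · rintro ⟨T, hT, hx⟩
      exact ⟨⟨T, hS hT⟩, hT, hx⟩
  rw [this]
  exact h

/-- the prototile -/
noncomputable def A₀ (i₀ i₁ : Fin n) (k : ℕ) : Set (E n) :=
  body i₀ i₁ (F₀ i₀ k) (D₀ i₀ i₁ k)

/-- nested families -/
theorem no_nested (hn : 2 ≤ n) (h01 : i₀ ≠ i₁) (k : ℕ) (hk : 1 ≤ k) (C : ℕ → Set (Set (E n)))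
    (hC : IsPatch (A₀ i₀ i₁ k) (C (k + 1))) {Q₀ : Set (E n)} (h0 : Q₀ ∈ C 0)
    (hmono : ∀ i ≤ k, C i ⊆ C (i + 1))
    (hsur : ∀ i ≤ k, ∀ Q ∈ C i, Q ⊆ interior (⋃₀ C (i + 1))) : False := by
  have hsub : ∀ m ≤ k + 1, C m ⊆ C (k + 1) := by
    intro m hm
    obtain ⟨d, hd⟩ := Nat.exists_eq_add_of_le hm
    induction d generalizing m with
    | zero => rw [hd]; exact subset_rfl
    | succ d ih =>
      exact (hmono m (by omega)).trans (ih (m + 1) (by omega) (by omega))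
  obtain ⟨g, hg, hsep⟩ := exists_family hn hC
  refine no_levels hn h01 k hk hsep (fun m => {R : C (k + 1) | R.1 ∈ C (min m (k + 1))})
    ⟨Q₀, hsub 0 (by omega) h0⟩ (by simpa using h0) ?_ ?_
  · intro m R hR
    simp only [mem_ofPred_eq] at hR ⊢
    rcases Nat.lt_or_ge m (k + 1) with h | h
    · rw [min_eq_left (by omega)] at hR ⊢
      exact hmono m (by omega) hR
    · rw [min_eq_right (by omega)] at hR ⊢
      exact hR
  · intro m hm R hR
    simp only [mem_ofPred_eq] at hR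
    rw [min_eq_left (by omega)] at hR
    rw [min_eq_left (by omega : m + 1 ≤ k + 1)]
    exact filled_of hg (hsub _ (by omega)) R (hsur m hm _ hR)

lemma corona_mono {P : Set (Set (E n))} {A : Set (E n)} {i j : ℕ} (h : i ≤ j) :
    corona P A i ⊆ corona P A j := by
  rintro Q ⟨m, c, hm, h1⟩
  exact ⟨m, c, hm.trans h, h1⟩

lemma corona_subset {P : Set (Set (E n))} {A : Set (E n)} {i : ℕ} : corona P A i ⊆ P := by
  rintro Q ⟨m, c, hm, h0, h1, h2, -⟩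
  rw [← h1]
  exact h2 m le_rfl

lemma mem_corona_zero {P : Set (Set (E n))} {A : Set (E n)} (hA : A ∈ P) : A ∈ corona P A 0 :=
  ⟨0, fun _ => A, le_rfl, rfl, rfl, fun _ _ => hA, fun i hi => absurd hi (by omega)⟩

lemma isPatch_mono {A : Set (E n)} {P P' : Set (Set (E n))} (h : IsPatch A P) (hP : P' ⊆ P) :
    IsPatch A P' :=
  ⟨fun Q hQ => h.1 Q (hP hQ), fun Q hQ Q' hQ' hne => h.2 Q (hP hQ) Q' (hP hQ') hne⟩

theorem not_surrounds (hn : 2 ≤ n) (h01 : i₀ ≠ i₁) (k : ℕ) (hk : 1 ≤ k) (P : Set (Set (E n))) :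
    ¬ SurroundsTimes P (A₀ i₀ i₁ k) (k + 1) := by
  rintro ⟨hP, hA, hs⟩
  refine no_nested hn h01 k hk (fun m => corona P (A₀ i₀ i₁ k) m)
    (isPatch_mono hP corona_subset) (mem_corona_zero hA) (fun i _ => corona_mono (by omega)) ?_
  intro i hi Q hQ
  have h1 := hs (i + 1) (by omega) (by omega)
  rw [Nat.add_sub_cancel] at h1
  exact (subset_sUnion_of_mem hQ).trans h1

theorem not_byPackings (hn : 2 ≤ n) (h01 : i₀ ≠ i₁) (k : ℕ) (hk : 1 ≤ k) :
    ¬ SurroundedByPackings (A₀ i₀ i₁ k) (k + 1) := by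
  rintro ⟨C, h0, h1, h2, h3⟩
  refine no_nested hn h01 k hk C (h1 (k + 1) le_rfl).2 (Q₀ := A₀ i₀ i₁ k) (by rw [h0]; rfl)
    (fun i hi => h2 i (by omega)) ?_
  intro i hi Q hQ
  have h4 := h3 (i + 1) (by omega) (by omega) Q (by rw [Nat.add_sub_cancel]; exact hQ)
  rw [closure_compl] at h4
  intro x hx
  by_contra hcon
  have : x ∈ (interior (⋃₀ C (i + 1)))ᶜ ∩ Q := ⟨hcon, hx⟩
  rw [h4] at this
  exact this

theorem not_tiles (hn : 2 ≤ n) (h01 : i₀ ≠ i₁) (k : ℕ) (hk : 1 ≤ k) :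
    ¬ TilesSpace (A₀ i₀ i₁ k) := by
  rintro ⟨P, hP, hcov⟩
  obtain ⟨Q, hQ⟩ : P.Nonempty := by
    by_contra h
    rw [not_nonempty_iff_eq_empty] at h
    rw [h, sUnion_empty] at hcov
    exact (empty_ne_univ hcov).elim
  refine no_nested hn h01 k hk (fun _ => P) hP hQ (fun _ _ => subset_rfl) ?_
  intro i hi Q hQ
  rw [hcov, interior_univ]
  exact subset_univ _

/-! The body with Heesch number `0`. -/

/-- a single frame -/
noncomputable def B₀ (i₀ i₁ : Fin n) : Set (E n) := body i₀ i₁ {0} (fun _ => ∅)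

theorem B_not_filled (hn : 2 ≤ n) (h01 : i₀ ≠ i₁) {P : Set (Set (E n))}
    (hP : IsPatch (B₀ i₀ i₁) P) {Q : Set (E n)} (hQ : Q ∈ P) : ¬ Q ⊆ interior (⋃₀ P) := by
  intro h
  obtain ⟨g, hg, hsep⟩ := exists_family hn hP
  obtain ⟨j, -, -, d, hd, -⟩ := hole_exists hn h01 (fun _ => Finset.disjoint_empty_right _) hsep
    (filled_of hg subset_rfl ⟨Q, hQ⟩ h) (Finset.mem_singleton_self 0) (false, i₀)
  simp at hd

theorem B_not_surrounds (hn : 2 ≤ n) (h01 : i₀ ≠ i₁) (P : Set (Set (E n))) :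
    ¬ SurroundsTimes P (B₀ i₀ i₁) 1 := by
  rintro ⟨hP, hA, hs⟩
  refine B_not_filled hn h01 (isPatch_mono hP (corona_subset (i := 1)))
    (corona_mono (by omega) (mem_corona_zero hA)) ?_
  exact (subset_sUnion_of_mem (mem_corona_zero hA)).trans (hs 1 le_rfl le_rfl)

theorem B_not_byPackings (hn : 2 ≤ n) (h01 : i₀ ≠ i₁) :
    ¬ SurroundedByPackings (B₀ i₀ i₁) 1 := by
  rintro ⟨C, h0, h1, h2, h3⟩
  have hA : B₀ i₀ i₁ ∈ C 0 := by rw [h0]; rfl
  refine B_not_filled hn h01 (h1 1 le_rfl).2 (h2 0 (by omega) hA) ?_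
  have h4 := h3 1 le_rfl le_rfl _ hA
  rw [closure_compl] at h4
  intro x hx
  by_contra hcon
  have : x ∈ (interior (⋃₀ C 1))ᶜ ∩ B₀ i₀ i₁ := ⟨hcon, hx⟩
  rw [h4] at this
  exact this

theorem B_not_tiles (hn : 2 ≤ n) (h01 : i₀ ≠ i₁) : ¬ TilesSpace (B₀ i₀ i₁) := by
  rintro ⟨P, hP, hcov⟩
  obtain ⟨Q, hQ⟩ : P.Nonempty := by
    by_contra h
    rw [not_nonempty_iff_eq_empty] at h
    rw [h, sUnion_empty] at hcov
    exact (empty_ne_univ hcov).elim
  refine B_not_filled hn h01 hP hQ ?_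
  rw [hcov, interior_univ]
  exact subset_univ _

end Pool.Agent.KS6_71.HX
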