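import Pool.Agent.KS6_71.HX.Good

/-!
# Fine tuples of polynomials define graphs without blowups
-/

set_option autoImplicit false

open Classical

namespace Pool.Agent.KS6_71.HX

open Pool.Agent.W979.TE Pool.Agent.W493.TE

/-- the edges which meet the non-roots -/
abbrev EE {V : Type} (T : SimpleGraph V) (R : Set V) : Type :=
  {ed : Sym2 V // ed ∈ T.edgeSet ∧ ∃ v ∈ Rᶜ, v ∈ ed}

noncomputable instance {V : Type} [Fintype V] (T : SimpleGraph V) (R : Set V) :
    Fintype (EE T R) := Fintype.ofFinite _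

theorem card_EE {V : Type} [Fintype V] (T : SimpleGraph V) (R : Set V) :
    Fintype.card (EE T R) = eS T Rᶜ := by
  rw [← Nat.card_eq_fintype_card]
  rfl

/-- fine tuples define graphs without large blowups -/
theorem nobu (hbnd : S_BND) (V : Type) [Fintype V] (T : SimpleGraph V) (R : Set V)
    (hm0 : 0 < (Rᶜ.toFinset).card)
    (hbal : ∀ S : Set V, S ⊆ Rᶜ →
      Fintype.card (EE T R) * S.ncard ≤ (Rᶜ.toFinset).card * eS T S) (d K : ℕ) :
    ∃ t : ℕ, 0 < t ∧ ∀ (F : Type) [Field F] [Fintype F]
      (f : Om F (Rᶜ.toFinset).card (Fintype.card (EE T R)) d),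
      Fine (E := EE T R) (Rᶜ.toFinset) K f → ¬ HasBU T R t (GG f) := by
  let E : Type := EE T R
  let U : Finset V := Rᶜ.toFinset
  have hmemU : ∀ v, v ∈ U ↔ v ∉ R := by
    intro v; simp [U]
  obtain ⟨C, hC⟩ := hbnd ({v // v ∈ U} × Fin (Fintype.card E))
    ({v // v ∈ U} × Fin (Fintype.card E)) (2 * Fintype.card E * d) K
  refine ⟨2 ^ Fintype.card V * C + 1, Nat.succ_pos _, ?_⟩
  intro F _ _ f hf2
  obtain ⟨t, ht⟩ : ∃ t, t = 2 ^ Fintype.card V * C + 1 := ⟨_, rfl⟩
  rw [← ht]
  rintro ⟨φ, hφi, hφa⟩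
  -- the copies
  let pt' : Fin t → V → BV V R t := fun k v =>
    ⟨(v, if v ∈ R then 0 else k.1), by
      refine ⟨?_, ?_⟩
      · show (if v ∈ R then 0 else k.1) < t
        split_ifs
        · omega
        · exact k.2
      · intro h
        show (if v ∈ R then 0 else k.1) = 0
        rw [if_pos h]⟩
  have hpti : ∀ k u v, pt' k u = pt' k v → u = v := by
    intro k u v h
    exact congrArg (fun x : BV V R t => x.1.1) h
  have hadj : ∀ k u v, T.Adj u v → (u ∉ R ∨ v ∉ R) → (GG f).Adj (φ (pt' k u)) (φ (pt' k v)) := by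
    intro k u v huv _
    apply hφa
    rw [BU, SimpleGraph.fromRel_adj]
    refine ⟨fun h => huv.ne (hpti k u v h), Or.inl ⟨huv, ?_⟩⟩
    show (if u ∈ R then 0 else k.1) = (if v ∈ R then 0 else k.1) ∨ u ∈ R ∨ v ∈ R
    by_cases hu : u ∈ R
    · exact Or.inr (Or.inl hu)
    · by_cases hv : v ∈ R
      · exact Or.inr (Or.inr hv)
      · left; rw [if_neg hu, if_neg hv]
  let col : Fin t → V → Bool := fun k v => (φ (pt' k v)).1
  let z : Fin t → V → Fin (Fintype.card E) → F := fun k v => (φ (pt' k v)).2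
  obtain ⟨χ, hχ⟩ := Fintype.exists_lt_card_fiber_of_mul_lt_card col (n := C) (by
    simp only [Fintype.card_fun, Fintype.card_bool, Fintype.card_fin]
    omega)
  obtain ⟨k0, hk0⟩ := Finset.card_pos.mp (lt_of_le_of_lt (Nat.zero_le _) hχ)
  rw [Finset.mem_filter] at hk0
  have hk0c := hk0.2
  -- colours of the ends
  have hends : ∀ ε : E, ∃ p : V × V, ε.1 = s(p.1, p.2) ∧ χ p.1 = false ∧ χ p.2 = true := by
    rintro ⟨ed, hed1, w, hw, hwe⟩
    induction ed using Sym2.ind with
    | _ u v =>
      rw [SimpleGraph.mem_edgeSet] at hed1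
      have huv : u ∉ R ∨ v ∉ R := by
        rw [Sym2.mem_iff] at hwe
        rcases hwe with rfl | rfl
        · exact Or.inl hw
        · exact Or.inr hw
      rcases hadj k0 u v hed1 huv with ⟨h1, h2, _⟩ | ⟨h1, h2, _⟩
      · refine ⟨(u, v), rfl, ?_, ?_⟩
        · rw [← hk0c]; exact h1
        · rw [← hk0c]; exact h2
      · refine ⟨(v, u), Sym2.eq_swap, ?_, ?_⟩
        · rw [← hk0c]; exact h1
        · rw [← hk0c]; exact h2
  choose ab hab1 hab2 hab3 using hends
  let a : E → V := fun ε => (ab ε).1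
  let b : E → V := fun ε => (ab ε).2
  have hBal : Bal U a b := by
    intro S hS
    have h1 := hbal (↑S : Set V) (by
      intro v hv
      have := hS hv
      rw [hmemU] at this
      exact this)
    rw [Set.ncard_coe_finset] at h1
    refine le_trans h1 (Nat.mul_le_mul_left _ ?_)
    have h2 : ({e | e ∈ T.edgeSet ∧ ∃ v ∈ (↑S : Set V), v ∈ e} : Set (Sym2 V)) ⊆
        ↑((Finset.univ.filter (fun ε : E => a ε ∈ S ∨ b ε ∈ S)).image Subtype.val) := by
      rintro ed ⟨h3, v, hv, hve⟩
      have hvR : v ∈ Rᶜ := by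
        have := hS hv
        rw [hmemU] at this
        exact this
      rw [Finset.coe_image]
      obtain ⟨ε, hε⟩ : ∃ ε : E, ε.1 = ed := ⟨⟨ed, h3, v, hvR, hve⟩, rfl⟩
      refine ⟨ε, ?_, hε⟩
      rw [Finset.mem_coe, Finset.mem_filter]
      refine ⟨Finset.mem_univ _, ?_⟩
      have h4 := hab1 ε
      rw [← hε, h4, Sym2.mem_iff] at hve
      rcases hve with h5 | h5
      · left
        show (ab ε).1 ∈ S
        rw [← h5]; exact hv
      · right
        show (ab ε).2 ∈ S
        rw [← h5]; exact hv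
    unfold eS
    refine le_trans (Set.ncard_le_ncard h2 (Finset.finite_toSet _)) ?_
    rw [Set.ncard_coe_finset]
    exact Finset.card_image_le
  obtain ⟨μ, _, hcert⟩ := hf2 a b hBal
  -- roots
  have hroot : ∀ k v, v ∉ U → z k v = z k0 v := by
    intro k v hv
    have hvR : v ∈ R := by
      by_contra h
      exact hv ((hmemU v).mpr h)
    have : pt' k v = pt' k0 v := by
      apply Subtype.ext
      show ((v, if v ∈ R then 0 else k.1) : V × ℕ) = (v, if v ∈ R then 0 else k0.1)
      rw [if_pos hvR, if_pos hvR]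
    show (φ (pt' k v)).2 = (φ (pt' k0 v)).2
    rw [this]
  let G : {v // v ∈ U} × Fin (Fintype.card E) →
      MvPolynomial ({v // v ∈ U} × Fin (Fintype.card E)) F := fun p =>
    sub U a b (z k0) (μ p).1 (f (μ p).2 : MvPolynomial (Fin (Fintype.card E) ⊕
              Fin (Fintype.card E)) F)
  have hCG := hC F G (fun j i => sub_deg U a b (z k0) _ _ (f (μ j).2).2 i)
  let X : Fin t → ({v // v ∈ U} × Fin (Fintype.card E) → F) := fun k p => z k p.1.1 p.2
  have hXmem : ∀ k, col k = χ → X k ∈ {x : {v // v ∈ U} × Fin (Fintype.card E) → F |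
      (∀ j, MvPolynomial.eval x (G j) = 0) ∧ Cert K G x} := by
    intro k hk
    have hGk : G = fun p => sub U a b (z k) (μ p).1 (f (μ p).2 : MvPolynomial
        (Fin (Fintype.card E) ⊕ Fin (Fintype.card E)) F) := by
      funext p
      show sub U a b (z k0) (μ p).1 _ = sub U a b (z k) (μ p).1 _
      rw [sub_congr U a b (z k0) (z k) (fun v hv => (hroot k v hv).symm)]
    have hφa' : ∀ ε, φ (pt' k (a ε)) = (false, z k (a ε)) := by
      intro ε
      apply Prod.ext
      · show col k (a ε) = false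
        rw [hk]; exact hab2 ε
      · rfl
    have hφb' : ∀ ε, φ (pt' k (b ε)) = (true, z k (b ε)) := by
      intro ε
      apply Prod.ext
      · show col k (b ε) = true
        rw [hk]; exact hab3 ε
      · rfl
    refine ⟨?_, ?_⟩
    · intro j
      rw [hGk]
      show MvPolynomial.eval (fun p : {v // v ∈ U} × Fin (Fintype.card E) => z k p.1.1 p.2)
        (sub U a b (z k) (μ j).1 _) = 0
      rw [sub_eval]
      set ε := (μ j).1 with hε
      obtain ⟨h3, w, hw, hwe⟩ := ε.2
      have h4 : ε.1 = s(a ε, b ε) := hab1 ε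
      have h5 : T.Adj (a ε) (b ε) := by
        rw [h4, SimpleGraph.mem_edgeSet] at h3
        exact h3
      have h6 : a ε ∉ R ∨ b ε ∉ R := by
        rw [h4, Sym2.mem_iff] at hwe
        rcases hwe with h | h
        · left; rw [← h]; exact hw
        · right; rw [← h]; exact hw
      have h7 := hadj k (a ε) (b ε) h5 h6
      rw [hφa', hφb'] at h7
      rcases h7 with ⟨_, _, h8⟩ | ⟨h8, _, _⟩
      · exact h8 _
      · exact absurd h8 (by simp)
    · rw [hGk]
      apply hcert (z k)
      intro ε ε' h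
      simp only [Prod.mk.injEq] at h
      have h1 : a ε = a ε' := by
        apply hpti k
        apply hφi
        rw [hφa', hφa', h.1]
      have h2 : b ε = b ε' := by
        apply hpti k
        apply hφi
        rw [hφb', hφb', h.2]
      apply Subtype.ext
      rw [hab1 ε, hab1 ε']
      show s(a ε, b ε) = s(a ε', b ε')
      rw [h1, h2]
  obtain ⟨v0, hv0⟩ := Finset.card_pos.mp hm0
  have hXinj : Set.InjOn X {k | col k = χ} := by
    intro k hk k' hk' h
    simp only [Set.mem_ofPred_eq] at hk hk'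
    have h1 : z k v0 = z k' v0 := by
      funext i
      exact congrFun h (⟨v0, hv0⟩, i)
    have h2 : φ (pt' k v0) = φ (pt' k' v0) := by
      apply Prod.ext
      · show col k v0 = col k' v0
        rw [hk, hk']
      · exact h1
    have h3 := hφi h2
    have h4 := congrArg (fun x : BV V R t => x.1.2) h3
    have hvR : v0 ∉ R := (hmemU v0).mp hv0
    simp only [pt', if_neg hvR] at h4
    exact Fin.ext h4
  have hle : (Finset.univ.filter (fun k => col k = χ)).card ≤
      {x : {v // v ∈ U} × Fin (Fintype.card E) → F |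
      (∀ j, MvPolynomial.eval x (G j) = 0) ∧ Cert K G x}.ncard := by
    rw [← Set.ncard_coe_finset]
    apply Set.ncard_le_ncard_of_injOn X
    · intro k hk
      rw [Finset.mem_coe, Finset.mem_filter] at hk
      exact hXmem k hk.2
    · intro k hk k' hk' h
      rw [Finset.mem_coe, Finset.mem_filter] at hk hk'
      exact hXinj hk.2 hk'.2 h
  omega

end Pool.Agent.KS6_71.HX
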