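import Pool.Agent.KS6_71.HX.Neg

set_option autoImplicit false

/-! The patch that surrounds the body `A κ` exactly `κ` times: congruence and disjointness of the
tiles. -/

namespace Pool.Agent.KS6_71.HX

open Set Metric
open Pool.Agent.H389R3.Heesch (E φ φ_apply ctr UC CC isOpen_UC disjoint_UC convex_UC preconn_subset
  abs_coord_le_dist Fs Ds mem_Fs mem_Ds bse sgn bse_i0 bse_ne sgn_cases sgn_or disj_F disj_D cover_F
  cover_D disjoint_interior_closure)

variable {n : ℕ} {i₀ i₁ : Fin n}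

lemma congruent_trans {A B C : Set (E n)} (h1 : Congruent A B) (h2 : Congruent B C) :
    Congruent A C := by
  obtain ⟨g, rfl⟩ := h1
  obtain ⟨g', rfl⟩ := h2
  exact ⟨g.trans g', by rw [← image_comp]; rfl⟩

lemma congruent_symm {A B : Set (E n)} (h1 : Congruent A B) : Congruent B A := by
  obtain ⟨g, rfl⟩ := h1
  refine ⟨g.symm, ?_⟩
  rw [← image_comp]
  have : (g.symm : E n → E n) ∘ g = id := by
    ext1 x; simp
  rw [this, image_id]

lemma image_body (g : E n ≃ᵢ E n) (γ : Cell n → Cell n)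
    (hU : ∀ x c, g x ∈ UC (γ c) ↔ x ∈ UC c)
    (hH : ∀ (s : Site n) x c l, |g x l - pos i₀ i₁ s (γ c) l| = |x l - pos i₀ i₁ s c l|)
    (F : Finset (Cell n)) (D : Bool → Finset (Cell n)) :
    g '' body i₀ i₁ F D = body i₀ i₁ (F.image γ) (fun b => (D b).image γ) := by
  have hC : ∀ s x c, g x ∈ Cd i₀ i₁ s (γ c) ↔ x ∈ Cd i₀ i₁ s c := by
    intro s x c
    exact forall_congr' fun l => by rw [hH]
  have hD : ∀ s x c, g x ∈ Hd i₀ i₁ s (γ c) ↔ x ∈ Hd i₀ i₁ s c := by
    intro s x c
    exact forall_congr' fun l => by rw [hH]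
  have hF : ∀ x c, g x ∈ Fr i₀ i₁ (γ c) ↔ x ∈ Fr i₀ i₁ c := by
    intro x c
    exact and_congr (hU x c) (forall_congr' fun s => not_congr (hC s x c))
  have hW : ∀ x, g x ∈ W i₀ i₁ (F.image γ) (fun b => (D b).image γ) ↔ x ∈ W i₀ i₁ F D := by
    intro x
    constructor
    · rintro (⟨c, hc, hx⟩ | ⟨s, c, hc, hx⟩)
      · obtain ⟨a, ha, rfl⟩ := Finset.mem_image.1 hc
        exact Or.inl ⟨a, ha, (hF x a).1 hx⟩
      · obtain ⟨a, ha, rfl⟩ := Finset.mem_image.1 hc
        exact Or.inr ⟨s, a, ha, (hD s x a).1 hx⟩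
    · rintro (⟨c, hc, hx⟩ | ⟨s, c, hc, hx⟩)
      · exact Or.inl ⟨γ c, Finset.mem_image_of_mem _ hc, (hF x c).2 hx⟩
      · exact Or.inr ⟨s, γ c, Finset.mem_image_of_mem _ hc, (hD s x c).2 hx⟩
  have hW' : g '' W i₀ i₁ F D = W i₀ i₁ (F.image γ) (fun b => (D b).image γ) := by
    ext z
    constructor
    · rintro ⟨x, hx, rfl⟩
      exact (hW x).2 hx
    · intro hz
      refine ⟨g.symm z, (hW _).1 (by simpa using hz), by simp⟩
  have e := g.toHomeomorph.image_closure (W i₀ i₁ F D)
  change g '' closure (W i₀ i₁ F D) = closure (g '' W i₀ i₁ F D) at e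
  unfold body
  rw [e, hW']

lemma congruent_translate (F : Finset (Cell n)) (D : Bool → Finset (Cell n)) (w : Cell n) :
    Congruent (body i₀ i₁ F D)
      (body i₀ i₁ (F.image (fun c => c + w)) (fun b => (D b).image (fun c => c + w))) := by
  refine ⟨IsometryEquiv.addRight ((φ n).symm (fun l => (w l : ℝ))), image_body _ _ ?_ ?_ _ _⟩
  · intro x c
    rw [mem_UC, mem_UC]
    refine forall_congr' fun l => ?_
    have : (IsometryEquiv.addRight ((φ n).symm (fun l => (w l : ℝ)))) x l = x l + w l := rfl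
    rw [this, Pi.add_apply]
    push_cast
    rw [show x l + (w l : ℝ) - (c l + w l + 1 / 2) = x l - (c l + 1 / 2) by ring]
  · intro s x c l
    have : (IsometryEquiv.addRight ((φ n).symm (fun l => (w l : ℝ)))) x l = x l + w l := rfl
    rw [this]
    unfold pos
    rw [Pi.add_apply]
    push_cast
    congr 1
    ring

lemma congruent_reflect (h01 : i₀ ≠ i₁) (F : Finset (Cell n)) (D : Bool → Finset (Cell n)) (m : ℤ) :
    Congruent (body i₀ i₁ F D)
      (body i₀ i₁ (F.image (fun c => Function.update c i₀ (m - c i₀)))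
        (fun b => (D b).image (fun c => Function.update c i₀ (m - c i₀)))) := by
  let g₁ : E n ≃ᵢ E n := (LinearIsometryEquiv.piLpCongrRight 2
    (fun l => if l = i₀ then LinearIsometryEquiv.neg ℝ
      else LinearIsometryEquiv.refl ℝ ℝ)).toIsometryEquiv
  have hg : ∀ (x : E n) l, g₁ x l = if l = i₀ then - x l else x l := by
    intro x l
    show (if l = i₀ then LinearIsometryEquiv.neg ℝ else LinearIsometryEquiv.refl ℝ ℝ :
      ℝ ≃ₗᵢ[ℝ] ℝ) (x l) = _
    by_cases h : l = i₀
    · simp [h]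
    · simp [h]
  have h1 : g₁ '' body i₀ i₁ F D = body i₀ i₁ (F.image (fun c => Function.update c i₀ (-1 - c i₀)))
      (fun b => (D b).image (fun c => Function.update c i₀ (-1 - c i₀))) := by
    apply image_body
    · intro x c
      rw [mem_UC, mem_UC]
      refine forall_congr' fun l => ?_
      rw [hg]
      by_cases h : l = i₀
      · subst h
        simp only [if_true, Function.update_self]
        push_cast
        rw [show -x l - (-1 - (c l : ℝ) + 1 / 2) = -(x l - (c l + 1 / 2)) by ring, abs_neg]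
      · simp [h]
    · intro s x c l
      rw [hg]
      by_cases h : l = i₀
      · subst h
        unfold pos
        rw [off_i0 h01]
        simp only [if_true, Function.update_self]
        push_cast
        rw [show -x l - (-1 - (c l : ℝ) + 1 / 2) = -(x l - (c l + 1 / 2)) by ring, abs_neg]
      · simp [h, pos]
  have h2 := congruent_translate (i₀ := i₀) (i₁ := i₁)
    (F.image (fun c => Function.update c i₀ (-1 - c i₀)))
    (fun b => (D b).image (fun c => Function.update c i₀ (-1 - c i₀)))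
    (Function.update 0 i₀ (m + 1))
  have h3 : ∀ S : Finset (Cell n), ((S.image (fun c => Function.update c i₀ (-1 - c i₀))).image
      (fun c => c + Function.update (0 : Cell n) i₀ (m + 1))) =
      S.image (fun c => Function.update c i₀ (m - c i₀)) := by
    intro S
    rw [Finset.image_image]
    congr 1
    ext c l
    by_cases h : l = i₀
    · subst h; simp; ring
    · simp [h]
  simp only [h3] at h2
  exact congruent_trans ⟨g₁, h1⟩ h2

variable {κ : ℤ}

lemma congruent_base (h01 : i₀ ≠ i₁) (w : Cell n) {s : ℤ} (hs : s = 2 * κ ∨ s = -1) :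
    Congruent (tl i₀ i₁ κ 0 (2 * κ)) (tl i₀ i₁ κ w s) := by
  have h1 := congruent_translate (i₀ := i₀) (i₁ := i₁) (Fs i₀ (2 * κ - 1) 0)
    (Dd i₀ i₁ κ 0 (2 * κ)) w
  have e1 : (Fs i₀ (2 * κ - 1) 0).image (fun c => c + w) = Fs i₀ (2 * κ - 1) w := by
    ext c
    rw [Finset.mem_image, mem_Fs]
    constructor
    · rintro ⟨a, ha, rfl⟩
      rw [mem_Fs] at ha
      simp only [Pi.zero_apply] at ha
      refine ⟨fun l hl => by simp [ha.1 l hl], ?_, ?_⟩ <;> simp only [Pi.add_apply] <;> omega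
    · rintro ⟨h1, h2, h3⟩
      refine ⟨c - w, ?_, by simp⟩
      rw [mem_Fs]
      simp only [Pi.zero_apply, Pi.sub_apply]
      refine ⟨fun l hl => by rw [h1 l hl]; simp, ?_, ?_⟩ <;> omega
  have e2 : ∀ b, (Dd i₀ i₁ κ 0 (2 * κ) b).image (fun c => c + w) = Dd i₀ i₁ κ w (2 * κ) b := by
    intro b
    unfold Dd
    cases b
    · rw [if_neg (by simp), if_neg (by simp)]
      ext c
      rw [Finset.mem_image, mem_Ds h01]
      constructor
      · rintro ⟨a, ha, rfl⟩
        rw [mem_Ds h01] at ha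
        simp only [Pi.zero_apply] at ha
        refine ⟨fun l hl hl' => by simp [ha.1 l hl hl'], ?_, ?_, ?_⟩ <;>
          simp only [Pi.add_apply] <;> omega
      · rintro ⟨h1, h2, h3, h4⟩
        refine ⟨c - w, ?_, by simp⟩
        rw [mem_Ds h01]
        simp only [Pi.zero_apply, Pi.sub_apply]
        refine ⟨fun l hl hl' => by rw [h1 l hl hl']; simp, ?_, ?_, ?_⟩ <;> omega
    · rw [if_pos rfl, if_pos rfl]
      ext c
      rw [Finset.mem_image, mem_Es]
      constructor
      · rintro ⟨a, ha, rfl⟩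
        rw [mem_Es] at ha
        simp only [Pi.zero_apply] at ha
        refine ⟨fun l hl => by simp [ha.1 l hl], ?_⟩
        simp only [Pi.add_apply]
        omega
      · rintro ⟨h1, h2⟩
        refine ⟨c - w, ?_, by simp⟩
        rw [mem_Es]
        simp only [Pi.zero_apply, Pi.sub_apply]
        refine ⟨fun l hl => by rw [h1 l hl]; simp, ?_⟩
        omega
  have h1' : Congruent (tl i₀ i₁ κ 0 (2 * κ)) (tl i₀ i₁ κ w (2 * κ)) := by
    rw [e1] at h1
    have : (fun b => (Dd i₀ i₁ κ 0 (2 * κ) b).image (fun c => c + w)) = Dd i₀ i₁ κ w (2 * κ) :=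
      funext e2
    rw [this] at h1
    exact h1
  rcases hs with rfl | rfl
  · exact h1'
  · refine congruent_trans h1' ?_
    have h2 := congruent_reflect h01 (Fs i₀ (2 * κ - 1) w) (Dd i₀ i₁ κ w (2 * κ))
      (2 * w i₀ + 2 * κ - 1)
    have e3 : (Fs i₀ (2 * κ - 1) w).image
        (fun c => Function.update c i₀ (2 * w i₀ + 2 * κ - 1 - c i₀)) = Fs i₀ (2 * κ - 1) w := by
      ext c
      rw [Finset.mem_image]
      constructor
      · rintro ⟨a, ha, rfl⟩
        rw [mem_Fs] at ha ⊢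
        refine ⟨fun l hl => by simp [hl, ha.1 l hl], ?_, ?_⟩ <;>
          simp only [Function.update_self] <;> omega
      · intro hc
        rw [mem_Fs] at hc
        refine ⟨Function.update c i₀ (2 * w i₀ + 2 * κ - 1 - c i₀), ?_, ?_⟩
        · rw [mem_Fs]
          refine ⟨fun l hl => by simp [hl, hc.1 l hl], ?_, ?_⟩ <;>
            simp only [Function.update_self] <;> omega
        · ext l
          by_cases h : l = i₀
          · subst h; simp
          · simp [h]
    have e4 : ∀ b, (Dd i₀ i₁ κ w (2 * κ) b).image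
        (fun c => Function.update c i₀ (2 * w i₀ + 2 * κ - 1 - c i₀)) = Dd i₀ i₁ κ w (-1) b := by
      intro b
      unfold Dd
      cases b
      · rw [if_neg (by simp), if_neg (by simp)]
        ext c
        rw [Finset.mem_image]
        constructor
        · rintro ⟨a, ha, rfl⟩
          rw [mem_Ds h01] at ha ⊢
          refine ⟨fun l hl hl' => by simp [hl, ha.1 l hl hl'], ?_, ?_, ?_⟩ <;>
            simp only [Function.update_self, ne_eq, h01.symm, not_false_eq_true,
              Function.update_of_ne] <;> omega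
        · intro hc
          rw [mem_Ds h01] at hc
          refine ⟨Function.update c i₀ (2 * w i₀ + 2 * κ - 1 - c i₀), ?_, ?_⟩
          · rw [mem_Ds h01]
            refine ⟨fun l hl hl' => by simp [hl, hc.1 l hl hl'], ?_, ?_, ?_⟩ <;>
              simp only [Function.update_self, ne_eq, h01.symm, not_false_eq_true,
              Function.update_of_ne] <;> omega
          · ext l
            by_cases h : l = i₀
            · subst h; simp
            · simp [h]
      · rw [if_pos rfl, if_pos rfl]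
        ext c
        rw [Finset.mem_image]
        constructor
        · rintro ⟨a, ha, rfl⟩
          rw [mem_Es] at ha ⊢
          refine ⟨fun l hl => by simp [hl, ha.1 l hl], ?_⟩
          simp only [Function.update_self]
          omega
        · intro hc
          rw [mem_Es] at hc
          refine ⟨Function.update c i₀ (2 * w i₀ + 2 * κ - 1 - c i₀), ?_, ?_⟩
          · rw [mem_Es]
            refine ⟨fun l hl => by simp [hl, hc.1 l hl], ?_⟩
            simp only [Function.update_self]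
            omega
          · ext l
            by_cases h : l = i₀
            · subst h; simp
            · simp [h]
    have e5 : (fun b => (Dd i₀ i₁ κ w (2 * κ) b).image
        (fun c => Function.update c i₀ (2 * w i₀ + 2 * κ - 1 - c i₀))) = Dd i₀ i₁ κ w (-1) :=
      funext e4
    rw [e3, e5] at h2
    exact h2

/-- the tile with index `v` -/
noncomputable def tlv (i₀ i₁ : Fin n) (κ : ℤ) (v : Cell n) : Set (E n) :=
  tl i₀ i₁ κ (bse i₀ i₁ (2 * κ - 1) v) (sgn i₀ i₁ (2 * κ - 1) v)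

lemma sgn_or' (v : Cell n) : sgn i₀ i₁ (2 * κ - 1) v = 2 * κ ∨ sgn i₀ i₁ (2 * κ - 1) v = -1 := by
  rcases sgn_or (i₀ := i₀) (i₁ := i₁) (q := 2 * κ - 1) v with h | h
  · left; rw [h]; ring
  · exact Or.inr h

lemma congruent_tlv (h01 : i₀ ≠ i₁) (v v' : Cell n) :
    Congruent (tlv i₀ i₁ κ v) (tlv i₀ i₁ κ v') :=
  congruent_trans (congruent_symm (congruent_base h01 _ (sgn_or' v)))
    (congruent_base h01 _ (sgn_or' v'))

lemma bse_i0' (v : Cell n) :
    bse i₀ i₁ (2 * κ - 1) v i₀ = v i₁ % (2 * κ - 1) + v i₀ * (2 * κ) := by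
  rw [bse_i0]; ring

lemma disj_E (h01 : i₀ ≠ i₁) (hκ : 1 ≤ κ) {v v' : Cell n} (hne : v ≠ v') :
    Disjoint (Es i₀ κ (bse i₀ i₁ (2 * κ - 1) v)) (Es i₀ κ (bse i₀ i₁ (2 * κ - 1) v')) := by
  rw [Finset.disjoint_left]
  intro c hc hc'
  rw [mem_Es, bse_i0'] at hc hc'
  apply hne
  have h1 : ∀ l, l ≠ i₀ → v l = v' l := by
    intro l hl
    have e1 := hc.1 l hl
    have e2 := hc'.1 l hl
    rw [bse_ne _ hl] at e1 e2
    omega
  have h2 := h1 i₁ h01.symm
  rw [h2] at hc
  obtain ⟨-, h3⟩ := hc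
  obtain ⟨-, h4⟩ := hc'
  set r := v' i₁ % (2 * κ - 1) with hr
  have h7 : v i₀ = v' i₀ := by
    rcases lt_trichotomy (v i₀) (v' i₀) with hlt | heq | hgt
    · exfalso
      rcases lt_or_ge (v' i₀) (v i₀ + 2) with h | h
      · have he : v' i₀ = v i₀ + 1 := by omega
        have he2 : v' i₀ * (2 * κ) = v i₀ * (2 * κ) + 2 * κ := by rw [he]; ring
        omega
      · have he2 : (v i₀ + 2) * (2 * κ) ≤ v' i₀ * (2 * κ) :=
          mul_le_mul_of_nonneg_right h (by omega)
        have he3 : (v i₀ + 2) * (2 * κ) = v i₀ * (2 * κ) + 4 * κ := by ring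
        omega
    · exact heq
    · exfalso
      rcases lt_or_ge (v i₀) (v' i₀ + 2) with h | h
      · have he : v i₀ = v' i₀ + 1 := by omega
        have he2 : v i₀ * (2 * κ) = v' i₀ * (2 * κ) + 2 * κ := by rw [he]; ring
        omega
      · have he2 : (v' i₀ + 2) * (2 * κ) ≤ v i₀ * (2 * κ) :=
          mul_le_mul_of_nonneg_right h (by omega)
        have he3 : (v' i₀ + 2) * (2 * κ) = v' i₀ * (2 * κ) + 4 * κ := by ring
        omega
  ext l
  by_cases hl : l = i₀
  · subst hl; exact h7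
  · exact h1 l hl

lemma disj_Dd (h01 : i₀ ≠ i₁) (hκ : 1 ≤ κ) {v v' : Cell n} (hne : v ≠ v') (b : Bool) :
    Disjoint (Dd i₀ i₁ κ (bse i₀ i₁ (2 * κ - 1) v) (sgn i₀ i₁ (2 * κ - 1) v) b)
      (Dd i₀ i₁ κ (bse i₀ i₁ (2 * κ - 1) v') (sgn i₀ i₁ (2 * κ - 1) v') b) := by
  unfold Dd
  cases b
  · rw [if_neg (by simp), if_neg (by simp)]
    exact disj_D h01 (by omega) hne
  · rw [if_pos rfl, if_pos rfl]
    exact disj_E h01 hκ hne

lemma disjoint_W (hn : 2 ≤ n) {F F' : Finset (Cell n)} {D D' : Bool → Finset (Cell n)}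
    (h1 : Disjoint F F') (h2 : ∀ b, Disjoint (D b) (D' b)) :
    Disjoint (W i₀ i₁ F D) (W i₀ i₁ F' D') := by
  have key : ∀ {c c' : Cell n} {s : Site n} {x : E n}, x ∈ Fr i₀ i₁ c → x ∈ Hd i₀ i₁ s c' →
      False := by
    intro c c' s x hx hx'
    have h3 := Hd_subset_Cd _ _ hx'
    by_cases h : c = c'
    · subst h
      exact hx.2 s h3
    · exact Set.disjoint_left.1 (disjoint_UC h) hx.1 (Cd_subset_UC hn s c' h3)
  rw [Set.disjoint_left]
  rintro x (⟨c, hc, hx⟩ | ⟨s, c, hc, hx⟩) (⟨c', hc', hx'⟩ | ⟨s', c', hc', hx'⟩)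
  · by_cases h : c = c'
    · subst h; exact Finset.disjoint_left.1 h1 hc hc'
    · exact Set.disjoint_left.1 (disjoint_UC h) hx.1 hx'.1
  · exact key hx hx'
  · exact key hx' hx
  · obtain ⟨h3, h4⟩ := Cd_disjoint hn (Hd_subset_Cd _ _ hx) (Hd_subset_Cd _ _ hx')
    subst h3; subst h4
    exact Finset.disjoint_left.1 (h2 _) hc hc'

lemma tlv_disjoint (hn : 2 ≤ n) (h01 : i₀ ≠ i₁) (hκ : 1 ≤ κ) {v v' : Cell n} (hne : v ≠ v') :
    Disjoint (interior (tlv i₀ i₁ κ v)) (interior (tlv i₀ i₁ κ v')) :=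
  disjoint_interior_closure (isOpen_W hn _ _)
    (disjoint_W hn (disj_F h01 (by omega) hne) (disj_Dd h01 hκ hne))

lemma body_subset (hn : 2 ≤ n) {F : Finset (Cell n)} {D : Bool → Finset (Cell n)} {x : E n}
    (hx : x ∈ body i₀ i₁ F D) :
    (∃ c ∈ F, x ∈ closure (Fr i₀ i₁ c)) ∨ ∃ s : Site n, ∃ c ∈ D s.1, x ∈ Cd i₀ i₁ s c := by
  have hcl : IsClosed ((⋃ c ∈ F, closure (Fr i₀ i₁ c)) ∪
      ⋃ s : Site n, ⋃ c ∈ D s.1, Cd i₀ i₁ s c) := by
    apply IsClosed.union
    · exact Set.Finite.isClosed_biUnion F.finite_toSet (fun c _ => isClosed_closure)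
    · exact isClosed_iUnion_of_finite fun s =>
        Set.Finite.isClosed_biUnion (D s.1).finite_toSet (fun c _ => isClosed_Cd hn s c)
  have h := closure_minimal (s := W i₀ i₁ F D) ?_ hcl hx
  · simpa only [mem_union, mem_iUnion, exists_prop] using h
  · rintro y (⟨c, hc, hy⟩ | ⟨s, c, hc, hy⟩)
    · left
      simp only [mem_iUnion, exists_prop]
      exact ⟨c, hc, subset_closure hy⟩
    · right
      simp only [mem_iUnion, exists_prop]
      exact ⟨s, c, hc, Hd_subset_Cd _ _ hy⟩

lemma closure_Fr_subset (c : Cell n) : closure (Fr i₀ i₁ c) ⊆ CC c := by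
  apply closure_minimal _ (Pool.Agent.H389R3.Heesch.isClosed_CC c)
  intro x hx
  exact Pool.Agent.H389R3.Heesch.UC_subset_CC c hx.1

lemma isCompact_body (hn : 2 ≤ n) (F : Finset (Cell n)) (D : Bool → Finset (Cell n)) :
    IsCompact (body i₀ i₁ F D) := by
  have h1 : IsCompact (⋃ c ∈ F ∪ (D false ∪ D true), CC (n := n) c) :=
    (F ∪ (D false ∪ D true)).finite_toSet.isCompact_biUnion
      (fun c _ => Pool.Agent.H389R3.Heesch.isCompact_CC c)
  refine h1.of_isClosed_subset isClosed_closure ?_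
  intro x hx
  simp only [mem_iUnion, exists_prop, Finset.mem_union]
  rcases body_subset hn hx with ⟨c, hc, hx⟩ | ⟨⟨b, l⟩, c, hc, hx⟩
  · exact ⟨c, Or.inl hc, closure_Fr_subset c hx⟩
  · refine ⟨c, Or.inr ?_, Pool.Agent.H389R3.Heesch.UC_subset_CC c (Cd_subset_UC hn _ c hx)⟩
    cases b
    · exact Or.inl hc
    · exact Or.inr hc

lemma isBody_body (hn : 2 ≤ n) (h01 : i₀ ≠ i₁) {F : Finset (Cell n)} (hF : F.Nonempty)
    (D : Bool → Finset (Cell n)) : IsBody (body i₀ i₁ F D) := by
  have hsub : W i₀ i₁ F D ⊆ interior (body i₀ i₁ F D) :=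
    interior_maximal subset_closure (isOpen_W hn F D)
  refine ⟨isCompact_body hn F D, ?_, ?_⟩
  · obtain ⟨c, hc⟩ := hF
    exact ⟨tpt i₀ c, hsub (Or.inl ⟨c, hc, tpt_mem hn h01 c⟩)⟩
  · apply subset_antisymm
    · exact closure_minimal interior_subset isClosed_closure
    · exact closure_mono hsub

end Pool.Agent.KS6_71.HX
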