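import Pool.Agent.KS6_71.HX.Patch

set_option autoImplicit false

/-! The body `A κ` can be surrounded `κ` times. -/

namespace Pool.Agent.KS6_71.HX

open Set Metric
open Pool.Agent.H389R3.Heesch (E φ φ_apply ctr UC CC isOpen_UC disjoint_UC convex_UC preconn_subset
  abs_coord_le_dist Fs Ds mem_Fs mem_Ds bse sgn bse_i0 bse_ne sgn_cases sgn_or disj_F disj_D cover_F
  cover_D disjoint_interior_closure norm_bound_CC exists_mem_UC_CC boxSet boxSet_finite)

variable {n : ℕ} {i₀ i₁ : Fin n} {κ : ℤ}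

lemma UC_inter_CC {c c' : Cell n} {x : E n} (h : x ∈ UC c) (h' : x ∈ CC c') : c = c' := by
  ext l
  have h1 := abs_lt.1 (mem_UC.1 h l)
  have h2 := norm_bound_CC h' l
  have h3 : (c l : ℝ) < c' l + 1 := by linarith [h1.1, h2.2]
  have h4 : (c' l : ℝ) < c l + 1 := by linarith [h1.2, h2.1]
  have h5 : c l < c' l + 1 := by exact_mod_cast h3
  have h6 : c' l < c l + 1 := by exact_mod_cast h4
  omega

/-- the cells of the small cubes of a tile -/
lemma mem_Dd (h01 : i₀ ≠ i₁) {w c : Cell n} {s : ℤ} {b : Bool}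
    (h : c ∈ Dd i₀ i₁ κ w s b) :
    (∀ l, l ≠ i₀ → l ≠ i₁ → c l = w l) ∧ (w i₁ ≤ c i₁ ∧ c i₁ ≤ w i₁ + 2 * κ) ∨ κ < 1 := by
  by_cases hκ : κ < 1
  · exact Or.inr hκ
  · left
    unfold Dd at h
    cases b
    · rw [if_neg (by simp), mem_Ds h01] at h
      exact ⟨h.1, h.2.2.1, by omega⟩
    · rw [if_pos rfl, mem_Es] at h
      have := h.1 i₁ h01.symm
      exact ⟨fun l hl _ => h.1 l hl, by omega, by omega⟩

lemma mem_Dd_i0 (h01 : i₀ ≠ i₁) (hκ : 1 ≤ κ) {w c : Cell n} {s : ℤ} (hs : s = 2 * κ ∨ s = -1)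
    {b : Bool} (h : c ∈ Dd i₀ i₁ κ w s b) : w i₀ - κ ≤ c i₀ ∧ c i₀ < w i₀ + 3 * κ := by
  unfold Dd at h
  cases b
  · rw [if_neg (by simp), mem_Ds h01] at h
    rcases hs with rfl | rfl <;> omega
  · rw [if_pos rfl, mem_Es] at h
    omega

/-- all cells of a tile are near its least cell -/
lemma tile_cell (hn : 2 ≤ n) (h01 : i₀ ≠ i₁) (hκ : 1 ≤ κ) {v : Cell n} {x : E n}
    (hx : x ∈ tlv i₀ i₁ κ v) : ∃ c : Cell n, x ∈ CC c ∧
      ∀ l, bse i₀ i₁ (2 * κ - 1) v l - κ ≤ c l ∧ c l < bse i₀ i₁ (2 * κ - 1) v l + 3 * κ := by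
  rcases body_subset hn hx with ⟨c, hc, hx⟩ | ⟨s, c, hc, hx⟩
  · refine ⟨c, closure_Fr_subset c hx, fun l => ?_⟩
    rw [mem_Fs] at hc
    by_cases hl : l = i₀
    · subst hl; omega
    · rw [hc.1 l hl]; omega
  · refine ⟨c, Pool.Agent.H389R3.Heesch.UC_subset_CC c (Cd_subset_UC hn s c hx), fun l => ?_⟩
    by_cases hl : l = i₀
    · subst hl
      exact mem_Dd_i0 h01 hκ (sgn_or' v) hc
    · rcases mem_Dd h01 hc with h | h
      · by_cases hl' : l = i₁
        · subst hl'; omega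
        · rw [h.1 l hl hl']; omega
      · omega

lemma tile_extent (hn : 2 ≤ n) (h01 : i₀ ≠ i₁) (hκ : 1 ≤ κ) {v : Cell n} {x : E n}
    (hx : x ∈ tlv i₀ i₁ κ v) (l : Fin n) :
    |x l - bse i₀ i₁ (2 * κ - 1) v l| ≤ 3 * κ := by
  obtain ⟨c, hxc, hc⟩ := tile_cell hn h01 hκ hx
  have h2 := norm_bound_CC hxc l
  obtain ⟨h3, h4⟩ := hc l
  set w := bse i₀ i₁ (2 * κ - 1) v with hw
  have h5 : ((w l : ℝ)) - κ ≤ c l := by exact_mod_cast h3
  have h6 : ((c l : ℝ)) + 1 ≤ w l + 3 * κ := by exact_mod_cast h4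
  have h7 : (1 : ℝ) ≤ κ := by exact_mod_cast hκ
  rw [abs_le]
  constructor <;> linarith [h2.1, h2.2]

/-- intersecting tiles are close in the direction of the bars -/
lemma tile_inter (hn : 2 ≤ n) (h01 : i₀ ≠ i₁) (hκ : 1 ≤ κ) {v v' : Cell n} {x : E n}
    (hx : x ∈ tlv i₀ i₁ κ v) (hx' : x ∈ tlv i₀ i₁ κ v') :
    bse i₀ i₁ (2 * κ - 1) v' i₀ ≤ bse i₀ i₁ (2 * κ - 1) v i₀ + 2 * κ := by
  -- a cell of the bar of one tile and of the small cubes of the other
  have key : ∀ {v v' c : Cell n} {b : Bool}, c ∈ Fs i₀ (2 * κ - 1) (bse i₀ i₁ (2 * κ - 1) v) →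
      c ∈ Dd i₀ i₁ κ (bse i₀ i₁ (2 * κ - 1) v') (sgn i₀ i₁ (2 * κ - 1) v') b →
      bse i₀ i₁ (2 * κ - 1) v' i₀ ≤ bse i₀ i₁ (2 * κ - 1) v i₀ + 2 * κ ∧
      bse i₀ i₁ (2 * κ - 1) v i₀ ≤ bse i₀ i₁ (2 * κ - 1) v' i₀ + 2 * κ := by
    intro v v' c b hc hc'
    rw [mem_Fs] at hc
    unfold Dd at hc'
    cases b
    · rw [if_neg (by simp), mem_Ds h01] at hc'
      rcases sgn_or' (i₀ := i₀) (i₁ := i₁) (κ := κ) v' with h | h <;> rw [h] at hc' <;> omega
    · rw [if_pos rfl, mem_Es] at hc'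
      have h1 : ∀ l, l ≠ i₀ → v l = v' l := by
        intro l hl
        have e1 := hc.1 l hl
        have e2 := hc'.1 l hl
        rw [bse_ne _ hl] at e1 e2
        omega
      have h2 := h1 i₁ h01.symm
      rw [bse_i0'] at hc hc' ⊢
      rw [bse_i0', h2]
      rw [h2] at hc
      set r := v' i₁ % (2 * κ - 1) with hr
      obtain ⟨-, h3, h4⟩ := hc
      obtain ⟨-, h5⟩ := hc'
      rcases lt_trichotomy (v i₀) (v' i₀) with hlt | heq | hgt
      · rcases lt_or_ge (v' i₀) (v i₀ + 2) with h | h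
        · have he : v' i₀ = v i₀ + 1 := by omega
          have he2 : v' i₀ * (2 * κ) = v i₀ * (2 * κ) + 2 * κ := by rw [he]; ring
          omega
        · have he2 : (v i₀ + 2) * (2 * κ) ≤ v' i₀ * (2 * κ) :=
            mul_le_mul_of_nonneg_right h (by omega)
          have he3 : (v i₀ + 2) * (2 * κ) = v i₀ * (2 * κ) + 4 * κ := by ring
          omega
      · rw [heq]; omega
      · rcases lt_or_ge (v i₀) (v' i₀ + 2) with h | h
        · have he : v i₀ = v' i₀ + 1 := by omega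
          have he2 : v i₀ * (2 * κ) = v' i₀ * (2 * κ) + 2 * κ := by rw [he]; ring
          omega
        · have he2 : (v' i₀ + 2) * (2 * κ) ≤ v i₀ * (2 * κ) :=
            mul_le_mul_of_nonneg_right h (by omega)
          have he3 : (v' i₀ + 2) * (2 * κ) = v' i₀ * (2 * κ) + 4 * κ := by ring
          omega
  rcases body_subset hn hx with ⟨c, hc, hx⟩ | ⟨s, c, hc, hx⟩ <;>
    rcases body_subset hn hx' with ⟨c', hc', hx'⟩ | ⟨s', c', hc', hx'⟩
  · have h1 := norm_bound_CC (closure_Fr_subset c hx) i₀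
    have h2 := norm_bound_CC (closure_Fr_subset c' hx') i₀
    have h3 : (c i₀ : ℝ) ≤ c' i₀ + 1 := by linarith [h1.1, h2.2]
    have h4 : (c' i₀ : ℝ) ≤ c i₀ + 1 := by linarith [h1.2, h2.1]
    have h5 : c i₀ ≤ c' i₀ + 1 := by exact_mod_cast h3
    have h6 : c' i₀ ≤ c i₀ + 1 := by exact_mod_cast h4
    rw [mem_Fs] at hc hc'
    omega
  · have h1 := UC_inter_CC (Cd_subset_UC hn s' c' hx') (closure_Fr_subset c hx)
    subst h1
    exact (key hc hc').1
  · have h1 := UC_inter_CC (Cd_subset_UC hn s c hx) (closure_Fr_subset c' hx')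
    subst h1
    exact (key hc' hc).2
  · obtain ⟨h1, h2⟩ := Cd_disjoint hn hx hx'
    subst h1; subst h2
    have h3 : v = v' := by
      by_contra hne
      exact Finset.disjoint_left.1 (disj_Dd h01 hκ hne s.1) hc hc'
    subst h3
    omega

/-- the indices of the tiles in a corona -/
lemma corona_bound (hn : 2 ≤ n) (h01 : i₀ ≠ i₁) (hκ : 1 ≤ κ) {S : Set (Cell n)}
    {v₀ : Cell n} {k : ℕ} {Q : Set (E n)}
    (hQ : Q ∈ corona (tlv i₀ i₁ κ '' S) (tlv i₀ i₁ κ v₀) k) :
    ∃ v ∈ S, Q = tlv i₀ i₁ κ v ∧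
      bse i₀ i₁ (2 * κ - 1) v i₀ ≤ bse i₀ i₁ (2 * κ - 1) v₀ i₀ + 2 * κ * k ∧
      bse i₀ i₁ (2 * κ - 1) v₀ i₀ ≤ bse i₀ i₁ (2 * κ - 1) v i₀ + 2 * κ * k ∧
      ∀ l, |(bse i₀ i₁ (2 * κ - 1) v l : ℝ) - bse i₀ i₁ (2 * κ - 1) v₀ l| ≤ 6 * κ * k := by
  obtain ⟨m, c, hmk, h0, hmQ, hP, hint⟩ := hQ
  have hκ' : (1 : ℝ) ≤ κ := by exact_mod_cast hκ
  have key : ∀ i, i ≤ m → ∃ v ∈ S, c i = tlv i₀ i₁ κ v ∧
      bse i₀ i₁ (2 * κ - 1) v i₀ ≤ bse i₀ i₁ (2 * κ - 1) v₀ i₀ + 2 * κ * i ∧
      bse i₀ i₁ (2 * κ - 1) v₀ i₀ ≤ bse i₀ i₁ (2 * κ - 1) v i₀ + 2 * κ * i ∧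
      ∀ l, |(bse i₀ i₁ (2 * κ - 1) v l : ℝ) - bse i₀ i₁ (2 * κ - 1) v₀ l| ≤ 6 * κ * i := by
    intro i
    induction i with
    | zero =>
      intro _
      obtain ⟨v, hvS, hv⟩ := hP 0 (by omega)
      rw [h0] at hv
      -- equal tiles have equal indices
      have hvv : v = v₀ := by
        by_contra hne
        have h1 := tlv_disjoint hn h01 hκ hne
        rw [hv, _root_.disjoint_self] at h1
        have h2 : (interior (tlv i₀ i₁ κ v₀)).Nonempty :=
          (isBody_body hn h01 ⟨bse i₀ i₁ (2 * κ - 1) v₀, by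
            rw [mem_Fs]; exact ⟨fun _ _ => rfl, le_rfl, by omega⟩⟩ _).2.1
        rw [h1] at h2
        exact not_nonempty_empty h2
      subst hvv
      exact ⟨v, hvS, h0, by simp, by simp, fun l => by simp⟩
    | succ i ih =>
      intro hi
      obtain ⟨v, hvS, hv, hb1, hb2, hb⟩ := ih (by omega)
      obtain ⟨v', hv'S, hv'⟩ := hP (i + 1) hi
      obtain ⟨x, hx, hx'⟩ := hint i (by omega)
      rw [hv] at hx
      rw [← hv'] at hx'
      have h5 := tile_inter hn h01 hκ hx hx'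
      have h6 := tile_inter hn h01 hκ hx' hx
      refine ⟨v', hv'S, hv'.symm, ?_, ?_, fun l => ?_⟩
      · push_cast; linarith
      · push_cast; linarith
      · have h1 := abs_le.1 (tile_extent hn h01 hκ hx l)
        have h2 := abs_le.1 (tile_extent hn h01 hκ hx' l)
        have h3 := abs_le.1 (hb l)
        push_cast
        rw [abs_le]
        constructor <;> nlinarith [h1.1, h1.2, h2.1, h2.2, h3.1, h3.2]
  obtain ⟨v, hvS, hv, hb1, hb2, hb⟩ := key m le_rfl
  have hm : (m : ℝ) ≤ k := by exact_mod_cast hmk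
  have hm' : (m : ℤ) ≤ k := by exact_mod_cast hmk
  have hm'' : 2 * κ * m ≤ 2 * κ * k := mul_le_mul_of_nonneg_left hm' (by omega)
  refine ⟨v, hvS, by rw [← hmQ, hv], by linarith, by linarith, fun l => (hb l).trans ?_⟩
  nlinarith

/-- every cell is one of the outer cells of some tile -/
lemma cover_E (h01 : i₀ ≠ i₁) (hκ : 1 ≤ κ) (c : Cell n) :
    ∃ v : Cell n, c ∈ Es i₀ κ (bse i₀ i₁ (2 * κ - 1) v) ∧ (∀ l, l ≠ i₀ → v l = c l) ∧
      |v i₀| ≤ |c i₀| + 2 * κ := by
  obtain ⟨v, hv, hv1, hv2⟩ := cover_F (q := 2 * κ - 1) h01 (by omega) c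
  rw [mem_Fs, bse_i0'] at hv
  have hv0 := le_abs_self (v i₀)
  have hv0' := neg_abs_le (v i₀)
  by_cases h : c i₀ < v i₁ % (2 * κ - 1) + v i₀ * (2 * κ) + κ
  · refine ⟨Function.update v i₀ (v i₀ - 1), ?_, fun l hl => by simp [hl, hv1 l hl], ?_⟩
    · rw [mem_Es, bse_i0']
      refine ⟨fun l hl => ?_, ?_⟩
      · rw [bse_ne _ hl, Function.update_of_ne hl, hv1 l hl]
      · rw [Function.update_of_ne h01.symm, Function.update_self]
        have he : (v i₀ - 1) * (2 * κ) = v i₀ * (2 * κ) - 2 * κ := by ring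
        rw [he]
        omega
    · rw [Function.update_self, abs_le]
      constructor <;> omega
  · refine ⟨Function.update v i₀ (v i₀ + 1), ?_, fun l hl => by simp [hl, hv1 l hl], ?_⟩
    · rw [mem_Es, bse_i0']
      refine ⟨fun l hl => ?_, ?_⟩
      · rw [bse_ne _ hl, Function.update_of_ne hl, hv1 l hl]
      · rw [Function.update_of_ne h01.symm, Function.update_self]
        have he : (v i₀ + 1) * (2 * κ) = v i₀ * (2 * κ) + 2 * κ := by ring
        rw [he]
        omega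
    · rw [Function.update_self, abs_le]
      constructor <;> omega

/-- index of the central tile -/
def vc (i₀ : Fin n) (κ : ℤ) : Cell n := Function.update 0 i₀ (κ - 1)

theorem surrounds (hn : 2 ≤ n) (h01 : i₀ ≠ i₁) (k : ℕ) (hk : 1 ≤ k) :
    ∃ S : Set (Cell n), S.Finite ∧
      SurroundsTimes (tlv i₀ i₁ (k : ℤ) '' S) (tlv i₀ i₁ (k : ℤ) (vc i₀ k)) k := by
  set κ : ℤ := (k : ℤ) with hκdef
  have hκ : 1 ≤ κ := by omega
  set v₀ : Cell n := vc i₀ κ with hv₀
  have hv₀0 : v₀ i₀ = κ - 1 := by simp [hv₀, vc]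
  have hv₀1 : ∀ l, l ≠ i₀ → v₀ l = 0 := fun l hl => by simp [hv₀, vc, hl]
  have hb0 : bse i₀ i₁ (2 * κ - 1) v₀ i₀ = (κ - 1) * (2 * κ) := by
    rw [bse_i0', hv₀0, hv₀1 _ h01.symm]
    simp
  have hb1 : ∀ l, l ≠ i₀ → bse i₀ i₁ (2 * κ - 1) v₀ l = 0 := fun l hl => by
    rw [bse_ne _ hl, hv₀1 l hl]
  -- the size of the box
  set R : ℤ := (κ - 1) * (2 * κ) + 6 * κ * κ + 3 * κ + 1 with hR
  have hRκ : 3 * κ + 1 ≤ R := by
    rw [hR]; nlinarith
  set N : ℤ := R + 1 + 2 * κ with hN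
  have hfin : (boxSet n N).Finite := boxSet_finite N
  refine ⟨boxSet n N, hfin, ⟨?_, ?_⟩, ⟨v₀, ?_, rfl⟩, ?_⟩
  · rintro _ ⟨v, -, rfl⟩
    exact congruent_tlv h01 _ _
  · rintro _ ⟨v, -, rfl⟩ _ ⟨v', -, rfl⟩ hne
    exact tlv_disjoint hn h01 hκ (fun h => hne (by rw [h]))
  · intro l
    by_cases hl : l = i₀
    · subst hl
      rw [hv₀0, abs_of_nonneg (by omega)]
      omega
    · rw [hv₀1 l hl]
      simp
      omega
  · intro j hj1 hjk x hx
    obtain ⟨Q, hQ, hxQ⟩ := hx
    obtain ⟨v, hvS, hv, hbr, hbl, hb⟩ := corona_bound hn h01 hκ hQ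
    have hjκ : ((j - 1 : ℕ) : ℤ) ≤ κ - 1 := by omega
    have hjκ' : 2 * κ * ((j - 1 : ℕ) : ℤ) ≤ 2 * κ * (κ - 1) :=
      mul_le_mul_of_nonneg_left hjκ (by omega)
    rw [hb0] at hbr hbl
    set w := bse i₀ i₁ (2 * κ - 1) v with hw
    -- the bar is in the covered region
    have hw0 : 0 ≤ w i₀ := by nlinarith
    have hw1 : w i₀ ≤ 2 * ((κ - 1) * (2 * κ)) := by nlinarith
    -- `x` is in the box
    have hxb : ∀ l, |x l| < (R : ℝ) := by
      intro l
      have h1 := abs_le.1 (tile_extent hn h01 hκ (hv ▸ hxQ) l)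
      have h2 := abs_le.1 (hb l)
      have h3 : ((j - 1 : ℕ) : ℝ) ≤ κ := by
        have : ((j - 1 : ℕ) : ℤ) ≤ κ := by omega
        exact_mod_cast this
      have hκ' : (1 : ℝ) ≤ κ := by exact_mod_cast hκ
      have h4 : |(bse i₀ i₁ (2 * κ - 1) v₀ l : ℝ)| ≤ (κ - 1) * (2 * κ) := by
        by_cases hl : l = i₀
        · subst hl
          rw [hb0]
          push_cast
          rw [abs_of_nonneg (mul_nonneg (by linarith) (by linarith))]
        · rw [hb1 l hl]
          simp only [Int.cast_zero, abs_zero]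
          exact mul_nonneg (by linarith) (by linarith)
      have h4' := abs_le.1 h4
      have h5 : (6 : ℝ) * κ * ((j - 1 : ℕ) : ℝ) ≤ 6 * κ * κ :=
        mul_le_mul_of_nonneg_left h3 (by positivity)
      rw [hR]
      push_cast
      rw [abs_lt]
      constructor <;> linarith [h1.1, h1.2, h2.1, h2.2, h4'.1, h4'.2]
    -- the tiles that do not contain `x`
    set Z : Set (E n) := ⋃₀ {T ∈ tlv i₀ i₁ κ '' boxSet n N | x ∉ T} with hZ
    have hZc : IsClosed Z := by
      rw [hZ, sUnion_eq_biUnion]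
      apply Set.Finite.isClosed_biUnion ((hfin.image _).subset (fun T hT => hT.1))
      rintro T ⟨⟨v', -, rfl⟩, -⟩
      exact isClosed_closure
    -- the holes that are not filled
    set bad : Set (Cell n) := {c | c ∈ boxSet n R ∧ ∀ v' ∈ boxSet n N,
      c ∉ Ds i₀ i₁ (2 * κ - 1) (bse i₀ i₁ (2 * κ - 1) v') (sgn i₀ i₁ (2 * κ - 1) v')} with hbad
    set K : Set (E n) := ⋃ c ∈ bad, ⋃ l : Fin n, Cd i₀ i₁ (false, l) c with hK
    have hKc : IsClosed K := by
      rw [hK]
      apply Set.Finite.isClosed_biUnion ((boxSet_finite R).subset (fun c hc => hc.1))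
      intro c _
      exact isClosed_iUnion_of_finite fun l => isClosed_Cd hn _ c
    have hxK : x ∉ K := by
      intro hxK
      rw [hK] at hxK
      simp only [mem_iUnion, exists_prop] at hxK
      obtain ⟨c, hc, l, hxc⟩ := hxK
      have hxQ' : x ∈ tlv i₀ i₁ κ v := hv ▸ hxQ
      rcases body_subset hn hxQ' with ⟨c', hc', hx'⟩ | ⟨s', c', hc', hx'⟩
      · have h1 := UC_inter_CC (Cd_subset_UC hn _ c hxc) (closure_Fr_subset c' hx')
        subst h1
        rw [mem_Fs, ← hw] at hc'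
        obtain ⟨u, hu, hu1, hu2⟩ := cover_D (i₀ := i₀) (i₁ := i₁) (q := 2 * κ - 1) h01 (by omega) c
          (by omega) (by
            have : c i₀ ≤ 2 * ((κ - 1) * (2 * κ)) + (2 * κ - 1) := by omega
            nlinarith)
        refine hc.2 u ?_ hu
        intro l'
        by_cases hl : l' = i₀
        · subst hl; omega
        · have h3 := hu1 l' hl
          have h4 := hc.1 l'
          omega
      · obtain ⟨h1, h2⟩ := Cd_disjoint hn hxc hx'
        subst h2
        have hc'' : c ∈ Dd i₀ i₁ κ (bse i₀ i₁ (2 * κ - 1) v) (sgn i₀ i₁ (2 * κ - 1) v) s'.1 := hc'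
        rw [← h1] at hc''
        unfold Dd at hc''
        rw [if_neg (by simp)] at hc''
        exact hc.2 v hvS hc''
    have hO : IsOpen ((Zᶜ ∩ Kᶜ) ∩ {z : E n | ∀ l, |z l| < (R : ℝ)}) := by
      refine (hZc.isOpen_compl.inter hKc.isOpen_compl).inter ?_
      have : {z : E n | ∀ l, |z l| < (R : ℝ)} = ⋂ l, {z : E n | |z l| < (R : ℝ)} := by
        ext z; simp
      rw [this]
      apply isOpen_iInter_of_finite
      intro l
      exact isOpen_lt (by fun_prop) continuous_const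
    refine mem_interior.2 ⟨_, ?_, hO, ⟨⟨?_, hxK⟩, hxb⟩⟩
    · rintro z ⟨⟨hzZ, hzK⟩, hz⟩
      -- the tile that contains `z`
      obtain ⟨v', hv', hzv'⟩ : ∃ v' ∈ boxSet n N, z ∈ tlv i₀ i₁ κ v' := by
        set c : Cell n := fun l => ⌊z l⌋ with hc
        have hcR : c ∈ boxSet n R := by
          intro l
          have h1 := abs_lt.1 (hz l)
          have h2 : -R ≤ c l := by
            rw [hc]
            apply Int.le_floor.2
            push_cast
            linarith [h1.1]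
          have h3 : c l < R := by
            rw [hc]
            apply Int.floor_lt.2
            linarith [h1.2]
          rw [abs_le]
          constructor <;> omega
        rcases CC_subset (i₀ := i₀) (i₁ := i₁) hn (exists_mem_UC_CC z) with h | ⟨⟨b, l⟩, h⟩
        · obtain ⟨v', h1, h2, h3⟩ := cover_F (q := 2 * κ - 1) h01 (by omega) c
          refine ⟨v', ?_, ?_⟩
          · intro l
            have h4 := hcR l
            by_cases hl : l = i₀
            · subst hl; omega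
            · rw [h2 l hl]; omega
          · refine closure_mono ?_ h
            intro y hy
            exact Or.inl ⟨c, h1, hy⟩
        · cases b
          · by_cases hcb : c ∈ bad
            · exfalso
              apply hzK
              rw [hK]
              simp only [mem_iUnion, exists_prop]
              exact ⟨c, hcb, l, h⟩
            · have hcb' : ∃ v' ∈ boxSet n N, c ∈ Ds i₀ i₁ (2 * κ - 1)
                  (bse i₀ i₁ (2 * κ - 1) v') (sgn i₀ i₁ (2 * κ - 1) v') := by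
                by_contra hcon
                push Not at hcon
                exact hcb ⟨hcR, hcon⟩
              obtain ⟨v', h1, h2⟩ := hcb'
              refine ⟨v', h1, ?_⟩
              rw [← closure_Hd hn] at h
              refine closure_mono ?_ h
              refine Hd_subset_W ?_
              unfold Dd
              rw [if_neg (by simp)]
              exact h2
          · obtain ⟨v', h1, h2, h3⟩ := cover_E h01 hκ c
            refine ⟨v', ?_, ?_⟩
            · intro l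
              have h4 := hcR l
              by_cases hl : l = i₀
              · subst hl; omega
              · rw [h2 l hl]; omega
            · rw [← closure_Hd hn] at h
              refine closure_mono ?_ h
              refine Hd_subset_W ?_
              unfold Dd
              rw [if_pos rfl]
              exact h1
      refine ⟨tlv i₀ i₁ κ v', ?_, hzv'⟩
      have hxv' : x ∈ tlv i₀ i₁ κ v' := by
        by_contra hcon
        exact hzZ ⟨_, ⟨⟨v', hv', rfl⟩, hcon⟩, hzv'⟩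
      obtain ⟨m, c, hmk, h0, hmQ, hP, hint⟩ := hQ
      refine ⟨m + 1, fun i => if i ≤ m then c i else tlv i₀ i₁ κ v', by omega, by simp [h0],
        by simp, ?_, ?_⟩
      · intro i hi
        by_cases h : i ≤ m
        · simp only [h, if_true]; exact hP i h
        · simp only [h, if_false]; exact ⟨v', hv', rfl⟩
      · intro i hi
        by_cases h : i + 1 ≤ m
        · simp only [h, if_true, (by omega : i ≤ m)]; exact hint i (by omega)
        · have : i = m := by omega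
          subst this
          simp only [le_refl, if_true, h, if_false]
          exact ⟨x, by rw [hmQ]; exact hxQ, hxv'⟩
    · rintro ⟨T, ⟨-, hT⟩, hxT⟩
      exact hT hxT

end Pool.Agent.KS6_71.HX
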