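import Pool.Agent.KS6_71.HX.Fill

set_option autoImplicit false

/-! Copies that fill a cluster of holes of an aligned copy are aligned. -/

namespace Pool.Agent.KS6_71.HX

open Set Metric
open Pool.Agent.H389R3.Heesch (E φ φ_apply ctr UC CC isOpen_UC disjoint_UC convex_UC preconn_subset
  abs_coord_le_dist Fs Ds mem_Fs mem_Ds)

variable {n : ℕ} {i₀ i₁ : Fin n}

lemma cpt_single (b : Bool) {l : Fin n} (hl : l ≠ i₀) (c : Cell n) :
    cpt i₀ i₁ (b, l) c = cpt i₀ i₁ (b, i₀) c + EuclideanSpace.single l (1 / 10 : ℝ) := by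
  ext m
  rw [PiLp.add_apply, cpt_apply, cpt_apply, PiLp.single_apply]
  unfold pos off
  simp only [ne_eq, not_true_eq_false, and_false, if_false, add_zero]
  by_cases hm : m = l
  · subst hm
    simp [hl]; ring
  · simp [hm]

/-- an isometry that moves a cluster of centres of one cell to that of another cell is a translation,
up to a reflection of the coordinate `i₀` -/
theorem rigid (h01 : i₀ ≠ i₁) (b : Bool) (u : E n ≃ᵢ E n) (c d : Cell n)
    (h : ∀ l, u (cpt i₀ i₁ (b, l) d) = cpt i₀ i₁ (b, l) c) :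
    ∃ δ : ℝ, (δ = 1 ∨ δ = -1) ∧ ∀ x : E n,
      u x i₀ = c i₀ + 1 / 2 + δ * (x i₀ - d i₀ - 1 / 2) ∧ ∀ l, l ≠ i₀ → u x l = x l - d l + c l := by
  set q := cpt i₀ i₁ (b, i₀) d with hq
  set Q := cpt i₀ i₁ (b, i₀) c with hQ
  have hq0 : q i₀ = d i₀ + 1 / 2 := by
    rw [hq, cpt_apply]; unfold pos; rw [off_i0 h01]
  have hQ0 : Q i₀ = c i₀ + 1 / 2 := by
    rw [hQ, cpt_apply]; unfold pos; rw [off_i0 h01]
  have hqQ : ∀ l, Q l - q l = c l - d l := by
    intro l
    rw [hq, hQ, cpt_apply, cpt_apply]; unfold pos; ring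
  -- the coordinates other than `i₀`
  have hl : ∀ x : E n, ∀ l, l ≠ i₀ → u x l = x l - d l + c l := by
    intro x l hl
    have h1 : ‖u x - Q‖ = ‖x - q‖ := by
      rw [← dist_eq_norm, ← dist_eq_norm, ← u.dist_eq x q, h]
    have h2 : ‖(u x - Q) - EuclideanSpace.single l (1 / 10 : ℝ)‖ =
        ‖(x - q) - EuclideanSpace.single l (1 / 10 : ℝ)‖ := by
      rw [sub_sub, sub_sub, ← cpt_single b hl c, ← cpt_single b hl d, ← dist_eq_norm,
        ← dist_eq_norm, ← u.dist_eq x, h]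
    have h3 : ‖(u x - Q) - EuclideanSpace.single l (1 / 10 : ℝ)‖ ^ 2 =
        ‖(x - q) - EuclideanSpace.single l (1 / 10 : ℝ)‖ ^ 2 := by rw [h2]
    rw [norm_sub_sq_real (u x - Q), norm_sub_sq_real (x - q), h1, EuclideanSpace.inner_single_right,
      EuclideanSpace.inner_single_right] at h3
    simp only [PiLp.sub_apply, conj_trivial] at h3
    have h4 := hqQ l
    linarith
  -- squares of differences of the coordinate `i₀`
  have hsq : ∀ x y : E n, (u x i₀ - u y i₀) ^ 2 = (x i₀ - y i₀) ^ 2 := by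
    intro x y
    have h1 : dist (u x) (u y) ^ 2 = dist x y ^ 2 := by rw [u.dist_eq]
    rw [dist_sq, dist_sq, ← Finset.add_sum_erase _ _ (Finset.mem_univ i₀),
      ← Finset.add_sum_erase (a := i₀) _ (fun l => (x l - y l) ^ 2) (Finset.mem_univ i₀)] at h1
    have h2 : ∑ l ∈ Finset.univ.erase i₀, (u x l - u y l) ^ 2 =
        ∑ l ∈ Finset.univ.erase i₀, (x l - y l) ^ 2 := by
      apply Finset.sum_congr rfl
      intro l hl'
      have hne := (Finset.mem_erase.1 hl').1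
      rw [hl x l hne, hl y l hne]
      ring
    rw [h2] at h1
    linarith
  have huq : u q i₀ = c i₀ + 1 / 2 := by rw [h, ← hQ, hQ0]
  set y : E n := q + EuclideanSpace.single i₀ (1 : ℝ) with hy
  have hy0 : y i₀ = d i₀ + 1 / 2 + 1 := by
    rw [hy, PiLp.add_apply, hq0, PiLp.single_apply, if_pos rfl]
  set δ : ℝ := u y i₀ - (c i₀ + 1 / 2) with hδ
  have hδ2 : δ ^ 2 = 1 := by
    have := hsq y q
    rw [huq, hy0, hq0] at this
    rw [hδ, this]
    ring
  have hδ1 : δ = 1 ∨ δ = -1 := by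
    rw [← sq_eq_sq_iff_eq_or_eq_neg, hδ2, one_pow]
  refine ⟨δ, hδ1, fun x => ⟨?_, hl x⟩⟩
  have h1 := hsq x q
  have h2 := hsq x y
  rw [huq, hq0] at h1
  rw [hy0] at h2
  set B := u x i₀ - (c i₀ + 1 / 2) with hB
  set A := x i₀ - (d i₀ + 1 / 2) with hA
  have h3 : u x i₀ - u y i₀ = B - δ := by rw [hB, hδ]; ring
  have h4 : x i₀ - (d i₀ + 1 / 2 + 1) = A - 1 := by rw [hA]; ring
  rw [h3, h4] at h2
  have h5 : B * δ = A := by nlinarith
  have h6 : B = δ * A := by
    calc B = B * δ ^ 2 := by rw [hδ2, mul_one]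
      _ = (B * δ) * δ := by ring
      _ = δ * A := by rw [h5]; ring
  have h7 : x i₀ - d i₀ - 1 / 2 = A := by rw [hA]; ring
  rw [h7]
  linarith

end Pool.Agent.KS6_71.HX
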