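import Pool.Agent.KS6_71.HX.Align

set_option autoImplicit false

/-! The body `A κ` cannot be surrounded `κ + 1` times. -/

namespace Pool.Agent.KS6_71.HX

open Set Metric
open Pool.Agent.H389R3.Heesch (E φ φ_apply ctr UC CC isOpen_UC disjoint_UC convex_UC preconn_subset
  abs_coord_le_dist Fs Ds mem_Fs mem_Ds)

variable {n : ℕ} {i₀ i₁ : Fin n}

theorem no_levels (hn : 2 ≤ n) (h01 : i₀ ≠ i₁) (k : ℕ) (hk : 1 ≤ k) {ι : Type*}
    {g : ι → (E n ≃ᵢ E n)} (hg : Sep i₀ i₁ (F₀ i₀ k) (D₀ i₀ i₁ k) g) (lev : ℕ → Set ι) (o : ι)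
    (ho : o ∈ lev 0) (hmono : ∀ m, lev m ⊆ lev (m + 1))
    (hfill : ∀ m ≤ k, ∀ i ∈ lev m, Filled i₀ i₁ (F₀ i₀ k) (D₀ i₀ i₁ k) g (lev (m + 1)) i) :
    False := by
  set κ : ℤ := (k : ℤ) with hκ
  have hκ1 : 1 ≤ κ := by omega
  -- the row
  have hrow : ∀ τ : ℤ, (τ = 1 ∨ τ = -1) → ∀ m : ℕ, m ≤ k → ∃ j ∈ lev m, ∃ (a : Cell n) (δ : ℝ),
      Al i₀ κ a δ ((g j).trans (g o).symm) ∧ (∀ l, l ≠ i₀ → a l = 0) ∧
      a i₀ = τ * m * (2 * κ) := by
    intro τ hτ m
    induction m with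
    | zero =>
      intro _
      refine ⟨o, ho, 0, 1, ⟨Or.inl rfl, fun x => ?_⟩, fun l _ => rfl, by simp⟩
      have hx : ((g o).trans (g o).symm) x = x := (g o).symm_apply_apply x
      rw [hx]
      simp
    | succ m ih =>
      intro hm
      obtain ⟨i, hi, a, δ, hal, ha0, ha⟩ := ih (by omega)
      obtain ⟨j, hj, a', δ', hal', ha'0, ha'⟩ :=
        neighbour hn h01 hκ1 hg (hfill m (by omega) i hi) hal hτ
      refine ⟨j, hj, a', δ', hal', fun l hl => by rw [ha'0 l hl, ha0 l hl], ?_⟩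
      rw [ha', ha]
      push_cast
      ring
  have hmono' : ∀ m m', m ≤ m' → lev m ⊆ lev m' := fun m m' h => monotone_nat_of_le_succ hmono h
  -- the cells of the row and the copies that fill their holes
  have hcell : ∀ X : ℤ, -κ * (2 * κ) ≤ X → X < (κ + 1) * (2 * κ) →
      ∃ (j : ι) (a : Cell n) (δ : ℝ), Al i₀ κ a δ ((g j).trans (g o).symm) ∧
        0 ≤ -a i₁ ∧ -a i₁ < 2 * κ - 1 ∧ (∀ l, l ≠ i₀ → l ≠ i₁ → a l = 0) ∧
        ((δ = 1 ∧ a i₀ = X - 2 * κ) ∨ (δ = -1 ∧ a i₀ = X + 1)) := by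
    intro X hX1 hX2
    set t : ℤ := X / (2 * κ) with ht
    have h2κ : 0 < 2 * κ := by omega
    have e1 := Int.emod_add_mul_ediv X (2 * κ)
    have e2 := Int.emod_nonneg X h2κ.ne'
    have e3 := Int.emod_lt_of_pos X h2κ
    rw [← ht] at e1
    have ht1 : -κ ≤ t := Int.le_ediv_of_mul_le h2κ hX1
    have ht2 : t < κ + 1 := Int.ediv_lt_of_lt_mul h2κ hX2
    obtain ⟨m, hm, τ, hτ, hτm⟩ : ∃ m : ℕ, m ≤ k ∧ ∃ τ : ℤ, (τ = 1 ∨ τ = -1) ∧ τ * m = t := by
      rcases le_total 0 t with h | h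
      · refine ⟨t.toNat, by omega, 1, Or.inl rfl, by omega⟩
      · refine ⟨(-t).toNat, by omega, -1, Or.inr rfl, by omega⟩
    obtain ⟨i, hi, a, δ, hal, ha0, ha⟩ := hrow τ hτ m hm
    rw [hτm] at ha
    obtain ⟨j, -, -, d, hd, a', δ', hal', hr', hc'⟩ :=
      fill_cell (C := Function.update 0 i₀ X) hn h01 hg (hfill m hm i hi) hal
        (fun l hl => by simp [hl, ha0 l hl])
        (by simp only [Function.update_self]; rw [ha]; linarith)
        (by simp only [Function.update_self]; rw [ha]; linarith) false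
    unfold D₀ Dd at hd
    rw [if_neg (by simp), mem_Ds h01] at hd
    simp only [Pi.zero_apply, zero_add] at hd
    simp only [Function.update_self] at hc'
    have h1 := hr' i₁ h01.symm
    rw [Function.update_of_ne h01.symm, Pi.zero_apply] at h1
    refine ⟨j, a', δ', hal', by omega, by omega, fun l hl hl' => ?_, ?_⟩
    · rw [hr' l hl, Function.update_of_ne hl, Pi.zero_apply, hd.1 l hl hl', sub_zero]
    · rcases hc' with ⟨h2, h3⟩ | ⟨h2, h3⟩
      · exact Or.inl ⟨h2, by omega⟩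
      · exact Or.inr ⟨h2, by omega⟩
  have : Nonempty ι := ⟨o⟩
  choose! j a δ hal h1 h2 h3 h4 using hcell
  have h2κ : 0 < 2 * κ := by omega
  -- counting
  have hcard : (Finset.Ico (-κ * (2 * κ)) ((κ + 1) * (2 * κ) - 1)).card ≤
      (Finset.Ico 0 (2 * κ - 1) ×ˢ Finset.Ico 0 (2 * κ + 2)).card := by
    refine Finset.card_le_card_of_injOn
      (fun X => (-a X i₁, (a X i₀ + (κ + 1) * (2 * κ)) / (2 * κ))) ?_ ?_
    · intro X hX
      simp only [Finset.coe_Ico, mem_Ico] at hX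
      have k1 := h1 X hX.1 (by omega)
      have k2 := h2 X hX.1 (by omega)
      have k4 := h4 X hX.1 (by omega)
      simp only [Finset.coe_product, Finset.coe_Ico, mem_prod, mem_Ico]
      refine ⟨⟨k1, k2⟩, ?_, ?_⟩
      · apply Int.ediv_nonneg _ h2κ.le
        rcases k4 with ⟨-, h⟩ | ⟨-, h⟩ <;> nlinarith
      · apply Int.ediv_lt_of_lt_mul h2κ
        rcases k4 with ⟨-, h⟩ | ⟨-, h⟩ <;> nlinarith
    · intro X hX Y hY hXY
      simp only [Finset.coe_Ico, mem_Ico] at hX hY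
      simp only [Prod.mk.injEq] at hXY
      obtain ⟨q1, q2⟩ := hXY
      have aX := hal X hX.1 (by omega)
      have aY := hal Y hY.1 (by omega)
      have hrows : ∀ l, l ≠ i₀ → a X l = a Y l := by
        intro l hl
        by_cases hl' : l = i₁
        · subst hl'; omega
        · rw [h3 X hX.1 (by omega) l hl hl', h3 Y hY.1 (by omega) l hl hl']
      have e1 := Int.emod_add_mul_ediv (a X i₀ + (κ + 1) * (2 * κ)) (2 * κ)
      have e2 := Int.emod_nonneg (a X i₀ + (κ + 1) * (2 * κ)) h2κ.ne'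
      have e3 := Int.emod_lt_of_pos (a X i₀ + (κ + 1) * (2 * κ)) h2κ
      have f1 := Int.emod_add_mul_ediv (a Y i₀ + (κ + 1) * (2 * κ)) (2 * κ)
      have f2 := Int.emod_nonneg (a Y i₀ + (κ + 1) * (2 * κ)) h2κ.ne'
      have f3 := Int.emod_lt_of_pos (a Y i₀ + (κ + 1) * (2 * κ)) h2κ
      rw [q2] at e1
      have hj : j X = j Y := no_share hn h01 hg aX aY hrows (by linarith) (by linarith)
      rw [hj] at aX
      obtain ⟨g1, g2⟩ := al_inj aX aY
      have k4 := h4 X hX.1 (by omega)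
      have k4' := h4 Y hY.1 (by omega)
      rw [g1, g2] at k4
      rcases k4 with ⟨p1, p2⟩ | ⟨p1, p2⟩ <;> rcases k4' with ⟨p3, p4⟩ | ⟨p3, p4⟩
      · omega
      · rw [p1] at p3; norm_num at p3
      · rw [p1] at p3; norm_num at p3
      · omega
  rw [Finset.card_product, Int.card_Ico, Int.card_Ico, Int.card_Ico] at hcard
  have hc2 : (((κ + 1) * (2 * κ) - 1 - -κ * (2 * κ)).toNat : ℤ) ≤
      ((2 * κ - 1 - 0).toNat : ℤ) * ((2 * κ + 2 - 0).toNat : ℤ) := by exact_mod_cast hcard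
  rw [Int.toNat_of_nonneg (by nlinarith), Int.toNat_of_nonneg (by omega),
    Int.toNat_of_nonneg (by omega)] at hc2
  nlinarith

end Pool.Agent.KS6_71.HX
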